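import Pool.Agent.MP_82b037_lc.H62.Base
import Pool.Agent.Shared.H56.More

set_option autoImplicit false
set_option linter.unusedSectionVars false
set_option maxRecDepth 100000

namespace Pool.Agent.MP_82b037_lc.H62

open Pool.Agent.Shared.H56

def wagB : Bool :=
  allTo 5 fun x0 => 
  allTo 5 fun x1 => Nat.beq x0 x1 ||
    (
  allTo 5 fun x5 => Nat.beq x1 x5 ||
    (
  allTo 5 fun x4 => Nat.beq x0 x4 ||
    (Nat.beq x4 x5 ||
    ((Nat.beq x0 x5 && Nat.beq x1 x4) ||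
    ((Nat.beq x0 x5 && Nat.beq x4 x1) ||
    ((Nat.beq x1 x4 && Nat.beq x0 x5) ||
    ((Nat.beq x4 x1 && Nat.beq x0 x5) ||
    (
  allTo 5 fun x3 => Nat.beq x3 x4 ||
    ((Nat.beq x1 x4 && Nat.beq x0 x3) ||
    ((Nat.beq x1 x4 && Nat.beq x5 x3) ||
    (
  allTo 5 fun x2 => Nat.beq x1 x2 ||
    (Nat.beq x2 x3 ||
    ((Nat.beq x0 x2 && Nat.beq x1 x3) ||
    ((Nat.beq x0 x3 && Nat.beq x4 x2) ||
    ((Nat.beq x1 x3 && Nat.beq x2 x4) ||
    ((Nat.beq x2 x0 && Nat.beq x1 x4) ||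
    ((Nat.beq x2 x5 && Nat.beq x1 x4) ||
    ((Nat.beq x2 x4 && Nat.beq x3 x5) ||
    ((Nat.beq x3 x1 && Nat.beq x2 x5) ||
    (
  allTo 5 fun x6 => Nat.beq x2 x6 ||
    (Nat.beq x5 x6 ||
    ((Nat.beq x0 x2 && Nat.beq x1 x6) ||
    ((Nat.beq x0 x5 && Nat.beq x1 x6) ||
    ((Nat.beq x0 x5 && Nat.beq x4 x6) ||
    ((Nat.beq x1 x6 && Nat.beq x2 x5) ||
    ((Nat.beq x1 x6 && Nat.beq x5 x2) ||
    ((Nat.beq x2 x5 && Nat.beq x1 x6) ||
    ((Nat.beq x2 x5 && Nat.beq x6 x4) ||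
    ((Nat.beq x3 x6 && Nat.beq x2 x5) ||
    ((Nat.beq x3 x5 && Nat.beq x4 x6) ||
    ((Nat.beq x4 x2 && Nat.beq x3 x6) ||
    ((Nat.beq x5 x2 && Nat.beq x1 x6) ||
    (
  allTo 5 fun x7 => Nat.beq x0 x7 ||
    (Nat.beq x3 x7 ||
    (Nat.beq x6 x7 ||
    ((Nat.beq x0 x3 && Nat.beq x4 x7) ||
    ((Nat.beq x0 x3 && Nat.beq x7 x2) ||
    ((Nat.beq x0 x3 && Nat.beq x7 x4) ||
    ((Nat.beq x0 x6 && Nat.beq x7 x2) ||
    ((Nat.beq x0 x6 && Nat.beq x7 x5) ||
    ((Nat.beq x1 x7 && Nat.beq x0 x3) ||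
    ((Nat.beq x1 x7 && Nat.beq x0 x6) ||
    ((Nat.beq x1 x3 && Nat.beq x2 x7) ||
    ((Nat.beq x1 x6 && Nat.beq x2 x7) ||
    ((Nat.beq x1 x6 && Nat.beq x5 x7) ||
    ((Nat.beq x2 x0 && Nat.beq x1 x7) ||
    ((Nat.beq x2 x7 && Nat.beq x3 x6) ||
    ((Nat.beq x2 x7 && Nat.beq x6 x3) ||
    ((Nat.beq x3 x6 && Nat.beq x2 x7) ||
    ((Nat.beq x3 x0 && Nat.beq x4 x7) ||
    ((Nat.beq x3 x0 && Nat.beq x7 x4) ||
    ((Nat.beq x3 x6 && Nat.beq x7 x5) ||
    ((Nat.beq x4 x7 && Nat.beq x0 x6) ||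
    ((Nat.beq x4 x7 && Nat.beq x3 x6) ||
    ((Nat.beq x4 x6 && Nat.beq x5 x7) ||
    ((Nat.beq x5 x0 && Nat.beq x1 x7) ||
    ((Nat.beq x5 x0 && Nat.beq x4 x7) ||
    ((Nat.beq x5 x3 && Nat.beq x4 x7) ||
    ((Nat.beq x6 x3 && Nat.beq x2 x7) ||
    (
  false))))))))))))))))))))))))))))))))))))))))))))))))))))))))))))

theorem wagB_true : wagB = true := by decide +kernel

def WA (i j : ℕ) : Prop := i < 8 ∧ j < 8 ∧ (j = (i + 1) % 8 ∨ j = (i + 4) % 8 ∨ i = (j + 1) % 8)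

instance (i j : ℕ) : Decidable (WA i j) := by unfold WA; infer_instance

theorem wag_nc (σ : ℕ → Fin 5) (pe : ∀ i j, WA i j → (σ i).val ≠ (σ j).val)
    (pp : ∀ a b c d, WA a b ∧ WA b c ∧ WA c d ∧ a ≠ c ∧ b ≠ d ∧ a ≠ d →
      ¬ ((σ a).val = (σ c).val ∧ (σ b).val = (σ d).val)) : False := by
  have h := wagB_true
  unfold wagB at h
  simp only [allTo_iff, Bool.or_eq_true, Bool.and_eq_true, beq_iff] at h
  replace h := h _ (σ 0).2
  rcases h _ (σ 1).2 with e | h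
  · exact pe 0 1 (by decide) e
  rcases h _ (σ 5).2 with e | h
  · exact pe 1 5 (by decide) e
  rcases h _ (σ 4).2 with e | e | e | e | e | e | h
  · exact pe 0 4 (by decide) e
  · exact pe 4 5 (by decide) e
  · exact pp 0 1 5 4 (by decide) e
  · exact pp 0 4 5 1 (by decide) e
  · exact pp 1 0 4 5 (by decide) e
  · exact pp 4 0 1 5 (by decide) e
  rcases h _ (σ 3).2 with e | e | e | h
  · exact pe 3 4 (by decide) e
  · exact pp 1 0 4 3 (by decide) e
  · exact pp 1 5 4 3 (by decide) e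
  rcases h _ (σ 2).2 with e | e | e | e | e | e | e | e | e | h
  · exact pe 1 2 (by decide) e
  · exact pe 2 3 (by decide) e
  · exact pp 0 1 2 3 (by decide) e
  · exact pp 0 4 3 2 (by decide) e
  · exact pp 1 2 3 4 (by decide) e
  · exact pp 2 1 0 4 (by decide) e
  · exact pp 2 1 5 4 (by decide) e
  · exact pp 2 3 4 5 (by decide) e
  · exact pp 3 2 1 5 (by decide) e
  rcases h _ (σ 6).2 with e | e | e | e | e | e | e | e | e | e | e | e | e | h
  · exact pe 2 6 (by decide) e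
  · exact pe 5 6 (by decide) e
  · exact pp 0 1 2 6 (by decide) e
  · exact pp 0 1 5 6 (by decide) e
  · exact pp 0 4 5 6 (by decide) e
  · exact pp 1 2 6 5 (by decide) e
  · exact pp 1 5 6 2 (by decide) e
  · exact pp 2 1 5 6 (by decide) e
  · exact pp 2 6 5 4 (by decide) e
  · exact pp 3 2 6 5 (by decide) e
  · exact pp 3 4 5 6 (by decide) e
  · exact pp 4 3 2 6 (by decide) e
  · exact pp 5 1 2 6 (by decide) e
  rcases h _ (σ 7).2 with e | e | e | e | e | e | e | e | e | e | e | e | e | e | e | e | e | e | e | e | e | e | e | e | e | e | e | h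
  · exact pe 0 7 (by decide) e
  · exact pe 3 7 (by decide) e
  · exact pe 6 7 (by decide) e
  · exact pp 0 4 3 7 (by decide) e
  · exact pp 0 7 3 2 (by decide) e
  · exact pp 0 7 3 4 (by decide) e
  · exact pp 0 7 6 2 (by decide) e
  · exact pp 0 7 6 5 (by decide) e
  · exact pp 1 0 7 3 (by decide) e
  · exact pp 1 0 7 6 (by decide) e
  · exact pp 1 2 3 7 (by decide) e
  · exact pp 1 2 6 7 (by decide) e
  · exact pp 1 5 6 7 (by decide) e
  · exact pp 2 1 0 7 (by decide) e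
  · exact pp 2 3 7 6 (by decide) e
  · exact pp 2 6 7 3 (by decide) e
  · exact pp 3 2 6 7 (by decide) e
  · exact pp 3 4 0 7 (by decide) e
  · exact pp 3 7 0 4 (by decide) e
  · exact pp 3 7 6 5 (by decide) e
  · exact pp 4 0 7 6 (by decide) e
  · exact pp 4 3 7 6 (by decide) e
  · exact pp 4 5 6 7 (by decide) e
  · exact pp 5 1 0 7 (by decide) e
  · exact pp 5 4 0 7 (by decide) e
  · exact pp 5 4 3 7 (by decide) e
  · exact pp 6 2 3 7 (by decide) e
  exact absurd h (by decide)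

theorem not_col {V : Type} [Fintype V] [DecidableEq V] {G : SimpleGraph V} [DecidableRel G.Adj]
    (hW : HasWagner G) (f : V → Fin 5) (h1 : ∀ u v, G.Adj u v → f u ≠ f v)
    (h2 : ∀ a b c d, G.Adj a b → G.Adj b c → G.Adj c d → a ≠ c → b ≠ d → a ≠ d →
      ¬ (f a = f c ∧ f b = f d)) : False := by
  obtain ⟨φ, inj, ad⟩ := hW
  have ha : ∀ i j, WA i j → G.Adj (φ i) (φ j) := by
    rintro i j ⟨hi, hj, rfl | rfl | rfl⟩
    · exact (ad i hi).1
    · exact (ad i hi).2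
    · exact (ad j hj).1.symm
  refine wag_nc (fun i => f (φ i)) (fun i j h e => h1 _ _ (ha i j h) (Fin.ext e)) ?_
  rintro a b c d ⟨p1, p2, p3, n1, n2, n3⟩ ⟨e1, e2⟩
  exact h2 _ _ _ _ (ha a b p1) (ha b c p2) (ha c d p3) (fun e => n1 (inj a p1.1 c p3.1 e))
    (fun e => n2 (inj b p2.1 d p3.2.1 e)) (fun e => n3 (inj a p1.1 d p3.2.1 e)) ⟨Fin.ext e1, Fin.ext e2⟩

def tup (L : List ℕ) : ℕ → List (List ℕ)
  | 0 => [[]]
  | k + 1 => (tup L k).flatMap fun l => L.map fun a => a :: l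

theorem mem_tup {L : List ℕ} (l : List ℕ) (h : ∀ x ∈ l, x ∈ L) : l ∈ tup L l.length := by
  induction l with
  | nil => exact List.mem_singleton_self _
  | cons a l ih =>
    exact List.mem_flatMap.2 ⟨l, ih fun x hx => h x (List.mem_cons_of_mem _ hx),
      List.mem_map.2 ⟨a, h a List.mem_cons_self, rfl⟩⟩

def ends (E : List (ℕ × ℕ)) : List ℕ := E.flatMap fun e => [e.1, e.2]

def adjE (E : List (ℕ × ℕ)) (u v : ℕ) : Bool := E.contains (u, v) || E.contains (v, u)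

def chkW (E : List (ℕ × ℕ)) (l : List ℕ) : Bool :=
  (List.range 8).all fun i => ((List.range 8).all fun j => i == j || !(l.getD i 0 == l.getD j 0)) &&
    (adjE E (l.getD i 0) (l.getD ((i + 1) % 8) 0) && adjE E (l.getD i 0) (l.getD ((i + 4) % 8) 0))

def alg (x : ℕ × List (ℕ × ℕ)) : Bool := !((tup (ends x.2) 8).any (chkW x.2))

theorem pt_tup (k : ℕ) : PT fun x : ℕ × List (ℕ × ℕ) => tup (ends x.2) k := by
  induction k with
  | zero => unfold tup; fun_prop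
  | succ k ih => unfold tup ends; unfold ends at ih; fun_prop

theorem pt_alg : PT alg := by
  have := pt_tup 8
  unfold alg chkW adjE
  fun_prop

theorem alg_iff {n : ℕ} (G : SimpleGraph (Fin n)) [DecidableRel G.Adj] (E : List (ℕ × ℕ))
    (hE : ∀ u v : Fin n, G.Adj u v ↔ ((u.val, v.val) ∈ E ∨ (v.val, u.val) ∈ E))
    (hb : ∀ e ∈ E, e.1 < n ∧ e.2 < n) : alg (n, E) = true ↔ ¬ HasWagner G := by
  have ea : ∀ u v, adjE E u v = true ↔ ((u, v) ∈ E ∨ (v, u) ∈ E) := by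
    intro u v; simp [adjE]
  have ec : ∀ l, chkW E l = true ↔ ∀ i < 8, (∀ j < 8, l.getD i 0 = l.getD j 0 → i = j) ∧
      adjE E (l.getD i 0) (l.getD ((i + 1) % 8) 0) = true ∧
      adjE E (l.getD i 0) (l.getD ((i + 4) % 8) 0) = true := by
    intro l
    unfold chkW
    simp only [List.all_eq_true, List.mem_range, Bool.and_eq_true, Bool.or_eq_true, beq_iff_eq,
      Bool.not_eq_true', beq_eq_false_iff_ne]
    refine forall₂_congr fun i _ => and_congr_left' (forall₂_congr fun j _ => ?_)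
    tauto
  unfold alg
  rw [Bool.not_eq_true', ← Bool.not_eq_true, List.any_eq_true]
  refine not_congr ⟨?_, ?_⟩
  · rintro ⟨l, -, h⟩
    have h := (ec l).1 h
    have lt : ∀ i, l.getD (i % 8) 0 < n := by
      intro i
      rcases (ea _ _).1 (h (i % 8) (Nat.mod_lt _ (by decide))).2.1 with e | e
      · exact (hb _ e).1
      · exact (hb _ e).2
    refine ⟨fun i => ⟨l.getD (i % 8) 0, lt i⟩, fun i hi j hj e => ?_, fun i hi => ⟨?_, ?_⟩⟩
    · have e' : l.getD (i % 8) 0 = l.getD (j % 8) 0 := congrArg Fin.val e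
      rw [Nat.mod_eq_of_lt hi, Nat.mod_eq_of_lt hj] at e'
      exact (h i hi).1 j hj e'
    · rw [hE, ← ea]
      show adjE E (l.getD (i % 8) 0) (l.getD ((i + 1) % 8 % 8) 0) = true
      rw [Nat.mod_eq_of_lt hi, Nat.mod_mod]; exact (h i hi).2.1
    · rw [hE, ← ea]
      show adjE E (l.getD (i % 8) 0) (l.getD ((i + 4) % 8 % 8) 0) = true
      rw [Nat.mod_eq_of_lt hi, Nat.mod_mod]; exact (h i hi).2.2
  · rintro ⟨φ, inj, ad⟩
    have eg : ∀ i < 8, ((List.range 8).map fun i => (φ i).val).getD i 0 = (φ i).val := by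
      intro i hi
      interval_cases i <;> rfl
    refine ⟨(List.range 8).map fun i => (φ i).val, mem_tup _ ?_, (ec _).2 fun i hi => ⟨?_, ?_, ?_⟩⟩
    · intro x hx
      obtain ⟨i, hi, rfl⟩ := List.mem_map.1 hx
      rcases (hE _ _).1 (ad i (List.mem_range.1 hi)).1 with e | e
      · exact List.mem_flatMap.2 ⟨_, e, by simp⟩
      · exact List.mem_flatMap.2 ⟨_, e, by simp⟩
    · intro j hj e
      rw [eg i hi, eg j hj] at e
      exact inj i hi j hj (Fin.ext e)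
    · rw [eg i hi, eg _ (Nat.mod_lt _ (by decide)), ea, ← hE]; exact (ad i hi).1
    · rw [eg i hi, eg _ (Nat.mod_lt _ (by decide)), ea, ← hE]; exact (ad i hi).2

end Pool.Agent.MP_82b037_lc.H62
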