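import Mathlib

/-! The theorem of Brooks for maximum degree three. -/

namespace Pool.Agent.MP_82b037_lc.H62

open Finset
open scoped Classical

namespace Brooks

variable {V : Type}

/-- The degree of `w` inside `T`. -/
noncomputable def dg (A : V → V → Prop) (T : Finset V) (w : V) : ℕ := (T.filter (A w)).card

/-- A proper colouring of `T`. -/
def Pr (A : V → V → Prop) (T : Finset V) (f : V → Fin 3) : Prop :=
  ∀ u ∈ T, ∀ v ∈ T, A u v → f u ≠ f v

variable {A : V → V → Prop}

lemma dg_mono {T T' : Finset V} (h : T ⊆ T') (w : V) : dg A T w ≤ dg A T' w :=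
  card_le_card (filter_subset_filter _ h)

lemma dg_imp {B : V → V → Prop} (T : Finset V) (w : V) (h : ∀ z, B w z → A w z) :
    dg B T w ≤ dg A T w :=
  card_le_card fun z hz => mem_filter.2 ⟨(mem_filter.1 hz).1, h z (mem_filter.1 hz).2⟩

lemma dg_split (W C : Finset V) (h : C ⊆ W) (w : V) : dg A (W \ C) w + dg A C w = dg A W w := by
  unfold dg
  rw [← card_union_of_disjoint (disjoint_filter_filter sdiff_disjoint), ← filter_union,
    sdiff_union_of_subset h]

lemma dg_erase (T : Finset V) {u : V} (hu : u ∈ T) (w : V) :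
    dg A (T.erase u) w + (if A w u then 1 else 0) = dg A T w := by
  unfold dg
  rw [filter_erase]
  split_ifs with h
  · exact card_erase_add_one (mem_filter.2 ⟨hu, h⟩)
  · rw [erase_eq_of_notMem (fun h' => h (mem_filter.1 h').2), add_zero]

lemma closed_of_dg {T C : Finset V} (h : T ⊆ C) {w : V} (hw : dg A C w ≤ dg A T w) {z : V}
    (hz : z ∈ C) (hwz : A w z) : z ∈ T := by
  have := eq_of_subset_of_card_le (filter_subset_filter (A w) h) hw
  have h1 : z ∈ T.filter (A w) := this ▸ mem_filter.2 ⟨hz, hwz⟩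
  exact (mem_filter.1 h1).1

lemma dg_of_closed {T C : Finset V} {w : V} (h : ∀ z ∈ C, A w z → z ∈ T) :
    dg A C w ≤ dg A T w :=
  card_le_card fun z hz => mem_filter.2 ⟨h z (mem_filter.1 hz).1 (mem_filter.1 hz).2,
    (mem_filter.1 hz).2⟩

lemma glue (hs : ∀ u v, A u v → A v u) (W C : Finset V) (f g : V → Fin 3) (hf : Pr A (W \ C) f)
    (hg : Pr A C g) (h : ∀ w ∈ C, ∀ z ∈ W \ C, A w z → g w ≠ f z) : ∃ k, Pr A W k := by
  refine ⟨fun v => if v ∈ C then g v else f v, fun u hu v hv huv => ?_⟩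
  by_cases h1 : u ∈ C <;> by_cases h2 : v ∈ C <;> simp only [h1, h2, if_true, if_false]
  · exact hg u h1 v h2 huv
  · exact h u h1 v (mem_sdiff.2 ⟨hv, h2⟩) huv
  · exact (h v h2 u (mem_sdiff.2 ⟨hu, h1⟩) (hs _ _ huv)).symm
  · exact hf u (mem_sdiff.2 ⟨hu, h1⟩) v (mem_sdiff.2 ⟨hv, h2⟩) huv

lemma greedy (hs : ∀ u v, A u v → A v u) (hi : ∀ v, ¬ A v v) (L : V → Finset (Fin 3))
    (S : Finset V) (h : ∀ T ⊆ S, T.Nonempty → ∃ w ∈ T, dg A T w < (L w).card) :
    ∃ g, Pr A S g ∧ ∀ w ∈ S, g w ∈ L w := by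
  induction S using Finset.strongInduction with
  | H S ih =>
    rcases S.eq_empty_or_nonempty with rfl | hne
    · exact ⟨fun _ => 0, fun u hu => absurd hu (notMem_empty _), fun u hu => absurd hu
        (notMem_empty _)⟩
    obtain ⟨w, hw, hlt⟩ := h S Subset.rfl hne
    obtain ⟨g, hg, hgL⟩ := ih (S.erase w) (erase_ssubset hw) fun T hT =>
      h T (hT.trans (erase_subset _ _))
    obtain ⟨κ, hκ, hκ'⟩ := exists_mem_notMem_of_card_lt_card
      ((card_image_le (f := g) (s := S.filter (A w))).trans_lt hlt)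
    refine ⟨Function.update g w κ, fun u hu v hv huv => ?_, fun u hu => ?_⟩
    · by_cases h1 : u = w <;> by_cases h2 : v = w
      · exact absurd (by rwa [h1, h2] at huv) (hi w)
      · subst h1
        rw [Function.update_self, Function.update_of_ne h2]
        exact fun e => hκ' (mem_image.2 ⟨v, mem_filter.2 ⟨hv, huv⟩, e.symm⟩)
      · subst h2
        rw [Function.update_self, Function.update_of_ne h1]
        exact fun e => hκ' (mem_image.2 ⟨u, mem_filter.2 ⟨hu, hs _ _ huv⟩, e⟩)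
      · rw [Function.update_of_ne h1, Function.update_of_ne h2]
        exact hg u (mem_erase.2 ⟨h1, hu⟩) v (mem_erase.2 ⟨h2, hv⟩) huv
    · by_cases h1 : u = w
      · subst h1; rwa [Function.update_self]
      · rw [Function.update_of_ne h1]; exact hgL u (mem_erase.2 ⟨h1, hu⟩)

lemma core (hs : ∀ u v, A u v → A v u) (hi : ∀ v, ¬ A v v) (T : Finset V) :
    ∀ t ∈ T, (∀ w ∈ T, w ≠ t → 2 ≤ dg A T w) → 1 ≤ dg A T t →
      ∃ T' ⊆ T, T'.Nonempty ∧ ∀ w ∈ T', 2 ≤ dg A T' w := by
  induction T using Finset.strongInduction with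
  | H T ih =>
    intro t ht h h1
    by_cases h2 : 2 ≤ dg A T t
    · refine ⟨T, Subset.rfl, ⟨t, ht⟩, fun w hw => ?_⟩
      by_cases e : w = t
      · exact e ▸ h2
      · exact h w hw e
    obtain ⟨t', ht'⟩ := card_eq_one.1 (show (T.filter (A t)).card = 1 by unfold dg at h1 h2; omega)
    have hm : t' ∈ T.filter (A t) := ht' ▸ mem_singleton_self t'
    have hne : t' ≠ t := fun e => hi t (e ▸ (mem_filter.1 hm).2)
    obtain ⟨T', h3, h4⟩ := ih (T.erase t) (erase_ssubset ht) t'
      (mem_erase.2 ⟨hne, (mem_filter.1 hm).1⟩) (fun w hw hw' => by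
        have e1 := dg_erase (A := A) T ht w
        have e2 := h w (mem_erase.1 hw).2 (mem_erase.1 hw).1
        have e3 : ¬ A w t := fun e => hw' (mem_singleton.1
          (ht' ▸ mem_filter.2 ⟨(mem_erase.1 hw).2, hs _ _ e⟩))
        rw [if_neg e3] at e1
        omega) (by
        have e1 := dg_erase (A := A) T ht t'
        have e2 := h t' (mem_filter.1 hm).1 hne
        split_ifs at e1 <;> omega)
    exact ⟨T', h3.trans (erase_subset _ _), h4⟩

/-- A minimal nonempty set of minimum degree two. -/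
structure Mini (A : V → V → Prop) (C : Finset V) : Prop where
  ne : C.Nonempty
  two : ∀ w ∈ C, 2 ≤ dg A C w
  min : ∀ T ⊆ C, T.Nonempty → (∀ w ∈ T, 2 ≤ dg A T w) → T = C

lemma Mini.conn (hs : ∀ u v, A u v → A v u) (hi : ∀ v, ¬ A v v) {C : Finset V} (hC : Mini A C)
    {u v : V} (hu : u ∈ C) (hv : v ∈ C.erase u) (T : Finset V) (hT : T ⊆ C.erase u)
    (hne : T.Nonempty) (hvT : v ∉ T) (hcl : ∀ w ∈ T, ∀ z ∈ C.erase u, A w z → z ∈ T) : False := by
  have hTC : T ⊆ C := hT.trans (erase_subset _ _)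
  have huT : u ∉ T := fun h => (mem_erase.1 (hT h)).1 rfl
  have hvu : v ∉ insert u T := by
    rw [mem_insert, not_or]; exact ⟨(mem_erase.1 hv).1, hvT⟩
  have hsub : insert u T ⊆ C := insert_subset hu hTC
  have h2 : ∀ w ∈ insert u T, w ≠ u → 2 ≤ dg A (insert u T) w := fun w hw hwu => by
    have hw' := (mem_insert.1 hw).resolve_left hwu
    refine (hC.two w (hTC hw')).trans (dg_of_closed fun z hz hwz => ?_)
    by_cases e : z = u
    · exact e ▸ mem_insert_self _ _
    · exact mem_insert_of_mem (hcl w hw' z (mem_erase.2 ⟨e, hz⟩) hwz)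
  by_cases h1 : 1 ≤ dg A (insert u T) u
  · obtain ⟨T', h3, h4, h5⟩ := core hs hi _ u (mem_insert_self _ _) h2 h1
    have := hC.min T' (h3.trans hsub) h4 h5
    exact hvu (h3 (this ▸ (mem_erase.1 hv).2))
  · have := hC.min T hTC hne fun w hw => by
      refine (hC.two w (hTC hw)).trans (dg_of_closed fun z hz hwz => ?_)
      by_cases e : z = u
      · exact absurd (card_pos.2 ⟨w, mem_filter.2 ⟨mem_insert_of_mem hw, hs _ _ (e ▸ hwz)⟩⟩) h1
      · exact hcl w hw z (mem_erase.2 ⟨e, hz⟩) hwz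
    exact huT (this ▸ hu)

lemma Mini.list (hs : ∀ u v, A u v → A v u) (hi : ∀ v, ¬ A v v) {C : Finset V} (hC : Mini A C)
    (L : V → Finset (Fin 3)) (hL : ∀ w ∈ C, dg A C w ≤ (L w).card) {p q : V} (hp : p ∈ C)
    (hq : q ∈ C) (hpq : L p ≠ L q) : ∃ g, Pr A C g ∧ ∀ w ∈ C, g w ∈ L w := by
  obtain ⟨u, hu, v, hv, huv, κ, hκ, hκ'⟩ :
      ∃ u ∈ C, ∃ v ∈ C, A u v ∧ ∃ κ ∈ L u, κ ∉ L v := by
    by_contra hc
    push Not at hc
    have := hC.min (C.filter fun w => L w = L p) (filter_subset _ _) ⟨p, mem_filter.2 ⟨hp, rfl⟩⟩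
      fun w hw => by
        refine (hC.two w (mem_filter.1 hw).1).trans (dg_of_closed fun z hz hwz => ?_)
        refine mem_filter.2 ⟨hz, ?_⟩
        rw [← (mem_filter.1 hw).2]
        exact Subset.antisymm (hc z hz w (mem_filter.1 hw).1 (hs _ _ hwz))
          (hc w (mem_filter.1 hw).1 z hz hwz)
    have h1 : q ∈ C.filter fun w => L w = L p := this.symm ▸ hq
    exact hpq (mem_filter.1 h1).2.symm
  have hvu : v ∈ C.erase u := mem_erase.2 ⟨fun e => hi u (e ▸ huv), hv⟩
  let L' : V → Finset (Fin 3) := fun w => if A w u then (L w).erase κ else L w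
  have hL' : ∀ w ∈ C.erase u, dg A (C.erase u) w ≤ (L' w).card := fun w hw => by
    have e1 := dg_erase (A := A) C hu w
    have e2 := hL w (mem_erase.1 hw).2
    have e3 := pred_card_le_card_erase (s := L w) (a := κ)
    simp only [L']
    split_ifs at e1 ⊢ <;> omega
  have hv' : dg A (C.erase u) v < (L' v).card := by
    have e1 := dg_erase (A := A) C hu v
    have e2 := hL v hv
    simp only [L', if_pos (hs _ _ huv), erase_eq_of_notMem hκ'] at e1 ⊢
    omega
  obtain ⟨g, hg, hgL⟩ := greedy hs hi L' (C.erase u) fun T hT hne => by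
    by_contra hc
    push Not at hc
    refine hC.conn hs hi hu hvu T hT hne (fun h => ?_) fun w hw z hz hwz =>
      closed_of_dg hT ((hL' w (hT hw)).trans (hc w hw)) hz hwz
    have := (hc v h).trans (dg_mono hT v)
    omega
  refine ⟨Function.update g u κ, fun a ha b hb hab => ?_, fun w hw => ?_⟩
  · have key : ∀ w ∈ C, w ≠ u → A w u → g w ≠ κ := fun w hw h1 h2 e => by
      have := hgL w (mem_erase.2 ⟨h1, hw⟩)
      simp only [L', if_pos h2, e] at this
      exact (mem_erase.1 this).1 rfl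
    by_cases h1 : a = u <;> by_cases h2 : b = u
    · exact absurd (by rwa [h1, h2] at hab) (hi u)
    · subst h1
      rw [Function.update_self, Function.update_of_ne h2]
      exact (key b hb h2 (hs _ _ hab)).symm
    · subst h2
      rw [Function.update_self, Function.update_of_ne h1]
      exact key a ha h1 hab
    · rw [Function.update_of_ne h1, Function.update_of_ne h2]
      exact hg a (mem_erase.2 ⟨h1, ha⟩) b (mem_erase.2 ⟨h2, hb⟩) hab
  · by_cases h1 : w = u
    · subst h1; rwa [Function.update_self]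
    · rw [Function.update_of_ne h1]
      have := hgL w (mem_erase.2 ⟨h1, hw⟩)
      simp only [L'] at this
      split_ifs at this
      exacts [mem_of_mem_erase this, this]

lemma exists_mini (W : Finset V) (hne : W.Nonempty) (h : ∀ w ∈ W, 2 ≤ dg A W w) :
    ∃ C ⊆ W, Mini A C := by
  obtain ⟨C, hC, hmin⟩ := exists_min_image
    (W.powerset.filter fun T => T.Nonempty ∧ ∀ w ∈ T, 2 ≤ dg A T w) card
    ⟨W, mem_filter.2 ⟨mem_powerset_self W, hne, h⟩⟩
  obtain ⟨h1, h2, h3⟩ := mem_filter.1 hC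
  refine ⟨C, mem_powerset.1 h1, h2, h3, fun T hT hT1 hT2 => eq_of_subset_of_card_le hT ?_⟩
  exact hmin T (mem_filter.2 ⟨mem_powerset.2 (hT.trans (mem_powerset.1 h1)), hT1, hT2⟩)

/-- The colours not used on the outside neighbours. -/
noncomputable def lst (A : V → V → Prop) (X : Finset V) (f : V → Fin 3) (w : V) :
    Finset (Fin 3) := ((X.filter (A w)).image f)ᶜ

lemma card_lst (X : Finset V) (f : V → Fin 3) (w : V) : 3 ≤ (lst A X f w).card + dg A X w := by
  have h1 := card_compl ((X.filter (A w)).image f)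
  have h2 := card_image_le (f := f) (s := X.filter (A w))
  have h3 := card_le_univ ((X.filter (A w)).image f)
  rw [Fintype.card_fin] at h1 h3
  unfold lst dg
  omega

lemma mem_lst {X : Finset V} {f : V → Fin 3} {w : V} {κ : Fin 3} :
    κ ∈ lst A X f w ↔ ∀ z ∈ X, A w z → κ ≠ f z := by
  simp only [lst, mem_compl, mem_image, mem_filter, not_exists, not_and, and_imp]
  exact ⟨fun h z hz hwz e => h z hz hwz e.symm, fun h z hz hwz e => h z hz hwz e.symm⟩

lemma nb_three {W : Finset V} {b x y z : V} (h : dg A W b ≤ 3) (hx : x ∈ W) (hy : y ∈ W)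
    (hz : z ∈ W) (ax : A b x) (ay : A b y) (az : A b z) (h1 : x ≠ y) (h2 : x ≠ z) (h3 : y ≠ z)
    {w : V} (hw : w ∈ W) (aw : A b w) : w = x ∨ w = y ∨ w = z := by
  have hsub : ({x, y, z} : Finset V) ⊆ W.filter (A b) := by
    intro t ht
    simp only [mem_insert, mem_singleton] at ht
    rcases ht with rfl | rfl | rfl <;> exact mem_filter.2 ⟨‹_›, ‹_›⟩
  have hc : ({x, y, z} : Finset V).card = 3 := card_eq_three.2 ⟨x, y, z, h1, h2, h3, rfl⟩
  have := eq_of_subset_of_card_le hsub (hc ▸ h)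
  have h4 : w ∈ ({x, y, z} : Finset V) := this ▸ mem_filter.2 ⟨hw, aw⟩
  simpa using h4

lemma diamond (hs : ∀ u v, A u v → A v u) (hi : ∀ v, ¬ A v v) {W : Finset V}
    (hdeg : ∀ w ∈ W, dg A W w ≤ 3) {a b c d : V} (ha : a ∈ W) (hb : b ∈ W) (hc : c ∈ W)
    (hd : d ∈ W) (ab : A a b) (ac : A a c) (bc : A b c) (bd : A b d) (cd : A c d) (ad : a ≠ d)
    (nad : ¬ A a d) (f : V → Fin 3) (hf : Pr A (W \ {a, b, c, d}) f) : ∃ k, Pr A W k := by
  have ne : ∀ {u v}, A u v → u ≠ v := fun {u v} h e => hi u (e ▸ h)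
  have hsub : ({a, b, c, d} : Finset V) ⊆ W := by
    intro t ht
    simp only [mem_insert, mem_singleton] at ht
    rcases ht with rfl | rfl | rfl | rfl <;> assumption
  have two : ∀ w, A w b → A w c → 2 ≤ dg A {a, b, c, d} w := fun w h1 h2 => by
    rw [← card_pair (ne bc)]
    refine card_le_card fun t ht => ?_
    simp only [mem_insert, mem_singleton] at ht
    rcases ht with rfl | rfl <;> exact mem_filter.2 ⟨by simp, ‹_›⟩
  have e1 := dg_split (A := A) W _ hsub a
  have e2 := dg_split (A := A) W _ hsub d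
  have e3 := two a ab ac
  have e4 := two d (hs _ _ bd) (hs _ _ cd)
  have e5 := hdeg a ha
  have e6 := hdeg d hd
  have e7 := card_lst (A := A) (W \ {a, b, c, d}) f a
  have e8 := card_lst (A := A) (W \ {a, b, c, d}) f d
  obtain ⟨κ, hκ⟩ : (lst A (W \ {a, b, c, d}) f a ∩ lst A (W \ {a, b, c, d}) f d).Nonempty := by
    rw [← card_pos]
    have h1 := card_union_add_card_inter (lst A (W \ {a, b, c, d}) f a)
      (lst A (W \ {a, b, c, d}) f d)
    have h2 := card_le_univ (lst A (W \ {a, b, c, d}) f a ∪ lst A (W \ {a, b, c, d}) f d)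
    rw [Fintype.card_fin] at h2
    omega
  obtain ⟨k1, k2, k3⟩ := (by decide : ∀ t : Fin 3, t + 1 ≠ t ∧ t + 2 ≠ t ∧ t + 1 ≠ t + 2) κ
  have n1 := ne ab
  have n2 := ne ac
  have n3 := ne bc
  have n4 := ne bd
  have n5 := ne cd
  refine glue hs W {a, b, c, d} f (fun v => if v = b then κ + 1 else if v = c then κ + 2 else κ)
    hf (fun u hu v hv huv => ?_) fun w hw z hz hwz => ?_
  · simp only [mem_insert, mem_singleton] at hu hv
    have nda : ¬ A d a := fun h => nad (hs _ _ h)
    rcases hu with rfl | rfl | rfl | rfl <;> rcases hv with rfl | rfl | rfl | rfl <;>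
      first
        | exact absurd huv (hi _)
        | exact absurd huv nad
        | exact absurd huv nda
        | simp [n1, n2, n3.symm, n4.symm, n5.symm, k1, k2, k3,
            k1.symm, k2.symm, k3.symm]
  · have hz' := mem_sdiff.1 hz
    simp only [mem_insert, mem_singleton, not_or] at hw hz'
    rcases hw with rfl | rfl | rfl | rfl
    · simp only [if_neg n1, if_neg n2]
      exact mem_lst.1 (mem_inter.1 hκ).1 z hz hwz
    · rcases nb_three (hdeg _ hb) ha hc hd (hs _ _ ab) bc bd n2 ad n5 hz'.1 hwz with h | h | h <;>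
        simp [h] at hz'
    · rcases nb_three (hdeg _ hc) ha hb hd (hs _ _ ac) (hs _ _ bc) cd n1 ad n4 hz'.1 hwz with
        h | h | h <;> simp [h] at hz'
    · simp only [if_neg n4.symm, if_neg n5.symm]
      exact mem_lst.1 (mem_inter.1 hκ).2 z hz hwz

lemma finish (hs : ∀ u v, A u v → A v u) (hi : ∀ v, ¬ A v v) {W C : Finset V} (hCW : C ⊆ W)
    (hC : Mini A C) (hdeg : ∀ w ∈ W, dg A W w ≤ 3) (f : V → Fin 3) (hf : Pr A (W \ C) f)
    {p q : V} (hp : p ∈ C) (hq : q ∈ C) (hpq : lst A (W \ C) f p ≠ lst A (W \ C) f q) :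
    ∃ k, Pr A W k := by
  obtain ⟨g, hg, hgL⟩ := hC.list hs hi (lst A (W \ C) f) (fun w hw => by
    have e1 := dg_split (A := A) W C hCW w
    have e2 := card_lst (A := A) (W \ C) f w
    have e3 := hdeg w (hCW hw)
    omega) hp hq hpq
  exact glue hs W C f g hf hg fun w hw => mem_lst.1 (hgL w hw)

theorem main (W : Finset V) : ∀ A : V → V → Prop, (∀ u v, A u v → A v u) → (∀ v, ¬ A v v) →
    (∀ w ∈ W, dg A W w ≤ 3) →
    (∀ a ∈ W, ∀ b ∈ W, ∀ c ∈ W, ∀ d ∈ W, A a b → A a c → A a d → A b c → A b d → A c d → False) →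
    ∃ f, Pr A W f := by
  induction W using Finset.strongInduction with
  | H W ih =>
  intro A hs hi hdeg hK
  have ne : ∀ {u v}, A u v → u ≠ v := fun {u v} h e => hi u (e ▸ h)
  have ih' : ∀ C ⊆ W, C.Nonempty → ∃ f, Pr A (W \ C) f := fun C hC hne =>
    ih _ (sdiff_ssubset hC hne) A hs hi
      (fun w hw => (dg_mono sdiff_subset w).trans (hdeg w (sdiff_subset hw)))
      fun a ha b hb c hc d hd => hK a (sdiff_subset ha) b (sdiff_subset hb) c (sdiff_subset hc) d
        (sdiff_subset hd)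
  rcases W.eq_empty_or_nonempty with rfl | hne
  · exact ⟨fun _ => 0, fun u hu => absurd hu (notMem_empty _)⟩
  by_cases h3 : ∃ v ∈ W, dg A W v ≤ 2
  · obtain ⟨v, hv, h2⟩ := h3
    obtain ⟨f, hf⟩ := ih' {v} (singleton_subset_iff.2 hv) (singleton_nonempty v)
    obtain ⟨κ, hκ⟩ : (lst A (W \ {v}) f v).Nonempty := by
      have e1 := card_lst (A := A) (W \ {v}) f v
      have e2 := dg_mono (A := A) (sdiff_subset (s := W) (t := {v})) v
      rw [← card_pos]; omega
    refine glue hs W {v} f (fun _ => κ) hf (fun a ha b hb hab => ?_) fun w hw => ?_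
    · rw [mem_singleton] at ha hb
      exact absurd (ha.trans hb.symm) (ne hab)
    · rw [mem_singleton.1 hw]; exact mem_lst.1 hκ
  push Not at h3
  by_cases hD : ∃ a ∈ W, ∃ b ∈ W, ∃ c ∈ W, ∃ d ∈ W, A a b ∧ A a c ∧ A b c ∧ A b d ∧ A c d ∧ a ≠ d
  · obtain ⟨a, ha, b, hb, c, hc, d, hd, ab, ac, bc, bd, cd, ad⟩ := hD
    obtain ⟨f, hf⟩ := ih' {a, b, c, d} (by
      intro t ht
      simp only [mem_insert, mem_singleton] at ht
      rcases ht with rfl | rfl | rfl | rfl <;> assumption) (insert_nonempty _ _)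
    exact diamond hs hi hdeg ha hb hc hd ab ac bc bd cd ad
      (fun h => hK a ha b hb c hc d hd ab ac h bc bd cd) f hf
  obtain ⟨C, hCW, hC⟩ := exists_mini (A := A) W hne fun w hw => by have := h3 w hw; omega
  by_cases hxy : ∃ p ∈ C, ∃ q ∈ C, ∃ x ∈ W \ C, ∃ y ∈ W \ C, A p x ∧ A q y ∧ x ≠ y
  · obtain ⟨p, hp, q, hq, x, hx, y, hy, px, qy, xy⟩ := hxy
    have hdg : ∀ s t r : V, r ∈ C → A r s → s ∈ W → ∀ B : V → V → Prop,
        (∀ z, B s z → A s z ∨ z = t) → dg B (W \ C) s ≤ 3 := by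
      intro s t r hr hrs hsW B hB
      have e1 := dg_split (A := A) W C hCW s
      have e2 : 1 ≤ dg A C s := card_pos.2 ⟨r, mem_filter.2 ⟨hr, hs _ _ hrs⟩⟩
      have e3 := hdeg s hsW
      have e4 : dg B (W \ C) s ≤ dg A (W \ C) s + 1 := by
        refine le_trans (card_le_card fun z hz => ?_) (card_insert_le t _)
        rcases hB z (mem_filter.1 hz).2 with h | h
        · exact mem_insert_of_mem (mem_filter.2 ⟨(mem_filter.1 hz).1, h⟩)
        · exact h ▸ mem_insert_self _ _
      omega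
    obtain ⟨f, hf⟩ := ih _ (sdiff_ssubset hCW hC.ne)
      (fun u v => A u v ∨ (u = x ∧ v = y) ∨ (u = y ∧ v = x))
      (fun u v h => by
        rcases h with h | h | h
        exacts [Or.inl (hs _ _ h), Or.inr (Or.inr h.symm), Or.inr (Or.inl h.symm)])
      (fun v h => by
        rcases h with h | h | h
        exacts [hi v h, xy (h.1.symm.trans h.2), xy (h.2.symm.trans h.1)])
      (fun w hw => by
        by_cases e1 : w = x
        · subst e1
          refine hdg w y p hp px (sdiff_subset hw) _ fun z h => ?_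
          rcases h with h | h | h
          exacts [Or.inl h, Or.inr h.2, absurd h.1 xy]
        by_cases e2 : w = y
        · subst e2
          refine hdg w x q hq qy (sdiff_subset hw) _ fun z h => ?_
          rcases h with h | h | h
          exacts [Or.inl h, absurd h.1 e1, Or.inr h.2]
        refine (dg_imp _ w fun z h => ?_).trans
          ((dg_mono sdiff_subset w).trans (hdeg w (sdiff_subset hw)))
        rcases h with h | h | h
        exacts [h, absurd h.1 e1, absurd h.1 e2])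
      (fun a ha b hb c hc d hd ab ac ad bc bd cd => by
        have ha' := sdiff_subset ha
        have hb' := sdiff_subset hb
        have hc' := sdiff_subset hc
        have hd' := sdiff_subset hd
        push Not at hD
        have d1 := hD a ha' c hc' d hd' b hb'
        have d2 := hD a ha' b hb' d hd' c hc'
        have d3 := hD a ha' b hb' c hc' d hd'
        have d4 := hD b hb' a ha' d hd' c hc'
        have d5 := hD b hb' a ha' c hc' d hd'
        have d6 := hD c hc' a ha' b hb' d hd'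
        clear hD ih ih' hdg hK hdeg h3 ha hb hc hd ha' hb' hc' hd'
        grind)
    refine finish hs hi hCW hC hdeg f (fun u hu v hv h => hf u hu v hv (Or.inl h)) hp hq
      fun e => ?_
    have fxy : f x ≠ f y := hf x hx y hy (Or.inr (Or.inl ⟨rfl, rfl⟩))
    have e1 := dg_split (A := A) W C hCW p
    have e2 := card_lst (A := A) (W \ C) f p
    have e3 := hdeg p (hCW hp)
    have e4 := hC.two p hp
    have e5 : lst A (W \ C) f p ⊆ ({f x, f y} : Finset (Fin 3))ᶜ := fun κ hκ => by
      simp only [mem_compl, mem_insert, mem_singleton, not_or]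
      exact ⟨mem_lst.1 hκ x hx px, mem_lst.1 (e ▸ hκ) y hy qy⟩
    have e6 := card_le_card e5
    rw [card_compl, card_pair fxy, Fintype.card_fin] at e6
    omega
  push Not at hxy
  by_cases hp : ∃ p ∈ C, ∃ x ∈ W \ C, A p x
  · obtain ⟨p, hp, x, hx, px⟩ := hp
    by_cases hq : ∃ q ∈ C, ∀ z ∈ W \ C, ¬ A q z
    · obtain ⟨q, hq, hq'⟩ := hq
      obtain ⟨f, hf⟩ := ih' C hCW hC.ne
      refine finish hs hi hCW hC hdeg f hf hp hq fun e => ?_
      have : f x ∈ lst A (W \ C) f q := mem_lst.2 fun z hz h => absurd h (hq' z hz)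
      exact mem_lst.1 (e ▸ this) x hx px rfl
    · push Not at hq
      have hall : ∀ q ∈ C, A x q := fun q hq' => by
        obtain ⟨z, hz, h⟩ := hq q hq'
        exact hs _ _ (hxy p hp q hq' x hx z hz px h ▸ h)
      obtain ⟨s, hs1, t, ht1, st⟩ := one_lt_card.1 (hC.two p hp)
      obtain ⟨hs2, hs3⟩ := mem_filter.1 hs1
      obtain ⟨ht2, ht3⟩ := mem_filter.1 ht1
      exact absurd ⟨s, hCW hs2, p, hCW hp, x, sdiff_subset hx, t, hCW ht2, hs _ _ hs3,
        hs _ _ (hall s hs2), px, ht3, hall t ht2, st⟩ hD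
  · push Not at hp
    exfalso
    have h33 : ∀ w ∈ C, 3 ≤ dg A C w := fun w hw =>
      (h3 w (hCW hw)).trans_le (dg_of_closed fun z hz hwz => by
        by_contra hc
        exact hp w hw z (mem_sdiff.2 ⟨hz, hc⟩) hwz)
    obtain ⟨u, hu⟩ := hC.ne
    obtain ⟨v, hv⟩ : (C.filter (A u)).Nonempty := card_pos.1 (by have := h33 u hu; unfold dg at this; omega)
    have := hC.min (C.erase u) (erase_subset _ _)
      ⟨v, mem_erase.2 ⟨(ne (mem_filter.1 hv).2).symm, (mem_filter.1 hv).1⟩⟩ fun w hw => by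
        have e1 := dg_erase (A := A) C hu w
        have e2 := h33 w (mem_of_mem_erase hw)
        split_ifs at e1 <;> omega
    exact (mem_erase.1 (this.symm ▸ hu : u ∈ C.erase u)).1 rfl

end Brooks

theorem brooks3 {V : Type} [Fintype V] [DecidableEq V] (A : V → V → Prop)
    (hs : ∀ u v, A u v → A v u) (hi : ∀ v, ¬ A v v)
    (hdeg : ∀ v, ∃ s : Finset V, s.card ≤ 3 ∧ ∀ w, A v w → w ∈ s)
    (hK : ∀ a b c d, A a b → A a c → A a d → A b c → A b d → A c d → False) :
    ∃ f : V → Fin 3, ∀ u v, A u v → f u ≠ f v := by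
  obtain ⟨f, hf⟩ := Brooks.main (univ : Finset V) A hs hi (fun w _ => by
    obtain ⟨s, h1, h2⟩ := hdeg w
    exact (card_le_card fun z hz => h2 z (mem_filter.1 hz).2).trans h1)
    fun a _ b _ c _ d _ => hK a b c d
  exact ⟨f, fun u v => hf u (mem_univ _) v (mem_univ _)⟩

end Pool.Agent.MP_82b037_lc.H62
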