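import Pool.Agent.MP_82b037_lc.H62.Basic

set_option autoImplicit false
set_option linter.unusedSectionVars false

namespace Pool.Agent.MP_82b037_lc.H62

def CycOK (π σ : Fin 5 → Fin 5) : Prop :=
  ∀ i, σ i ≠ π i ∧ σ i ≠ σ (i + 1) ∧ (3 ≤ (σ i).val → σ (i + 1) ≠ π i ∧ σ (i - 1) ≠ π i) ∧
    ¬ ((σ (i - 1) = σ (i + 1) ∨ π i = σ (i + 1)) ∧ (σ i = σ (i + 1 + 1) ∨ σ i = π (i + 1)))

instance (π σ : Fin 5 → Fin 5) : Decidable (CycOK π σ) := by unfold CycOK; infer_instance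

theorem cyc_ex0 : ∀ p0 : Fin 5, p0.val < 3 → ∀ p1 : Fin 5, p1.val < 3 → ∀ p2 : Fin 5, p2.val < 3 →
    ∀ p3 : Fin 5, p3.val < 3 → ∀ p4 : Fin 5, p4.val < 3 →
    ∃ σ ∈ ([![0, 1, 3, 4, 3], ![0, 2, 3, 4, 3], ![1, 3, 4, 3, 2], ![2, 3, 4, 3, 1], ![1, 0, 3, 4, 3],
      ![2, 0, 3, 4, 3], ![1, 3, 4, 3, 0], ![2, 3, 4, 3, 0], ![0, 3, 4, 3, 1], ![0, 3, 4, 3, 2],
      ![1, 2, 3, 4, 3], ![2, 1, 3, 4, 3], ![3, 0, 1, 3, 4], ![3, 0, 2, 3, 4], ![3, 1, 0, 3, 4],
      ![3, 1, 2, 3, 4], ![3, 2, 0, 3, 4], ![3, 2, 1, 3, 4]] : List (Fin 5 → Fin 5)),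
      CycOK ![p0, p1, p2, p3, p4] σ := by decide +kernel

theorem cyc_ex (π : Fin 5 → Fin 5) (h : ∀ i, (π i).val < 3) : ∃ σ, CycOK π σ := by
  obtain ⟨σ, _, hσ⟩ := cyc_ex0 _ (h 0) _ (h 1) _ (h 2) _ (h 3) _ (h 4)
  have : π = ![π 0, π 1, π 2, π 3, π 4] := by
    funext i; fin_cases i <;> rfl
  exact ⟨σ, this ▸ hσ⟩

variable {V : Type} [Fintype V] [DecidableEq V] {G : SimpleGraph V} [DecidableRel G.Adj]

theorem StarOn.mono {U U' : Set V} {f : V → Fin 5} (h : StarOn G U f) (hU : U' ⊆ U) : StarOn G U' f :=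
  ⟨fun u v hu hv => h.1 u v (hU hu) (hU hv),
    fun a b c d ha hb hc hd => h.2 a b c d (hU ha) (hU hb) (hU hc) (hU hd)⟩

theorem ext_cycle (z o : Fin 5 → V) (hz : Function.Injective z)
    (hnb : ∀ i w, G.Adj (z i) w → w = z (i + 1) ∨ w = z (i - 1) ∨ w = o i)
    (ho : ∀ i, o i ∉ Set.range z) {U : Set V} {f : V → Fin 5} (hf : StarOn G (U \ Set.range z) f)
    (hπ : ∀ i, (f (o i)).val < 3)
    (hx : ∀ i x, G.Adj (o i) x → x = z i ∨ (x ∉ Set.range z ∧ 3 ≤ (f x).val ∧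
      ∀ y ∈ U, o i ∈ U → G.Adj x y → y ≠ o i → y ∉ Set.range z ∧ f y ≠ f (o i))) :
    ∃ g, StarOn G U g ∧ ∀ v, v ∉ Set.range z → g v = f v := by
  classical
  obtain ⟨σ, hσ⟩ := cyc_ex (fun i => f (o i)) hπ
  let g : V → Fin 5 := fun v => if h : v ∈ Set.range z then σ h.choose else f v
  have gout : ∀ v, v ∉ Set.range z → g v = f v := fun v hv => dif_neg hv
  have gz : ∀ i, g (z i) = σ i := by
    intro i
    have h : z i ∈ Set.range z := ⟨i, rfl⟩
    show dite _ _ _ = _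
    rw [dif_pos h, hz h.choose_spec]
  have go : ∀ i, g (o i) = f (o i) := fun i => gout _ (ho i)
  have p1 : ∀ i v, G.Adj (z i) v → g (z i) ≠ g v := by
    intro i v h
    rcases hnb i v h with rfl | rfl | rfl
    · rw [gz, gz]; exact (hσ i).2.1
    · rw [gz, gz]
      have := (hσ (i - 1)).2.1
      rw [sub_add_cancel] at this; exact this.symm
    · rw [gz, go]; exact (hσ i).1
  have k1 : ∀ i a d, G.Adj (z i) a → G.Adj (z (i + 1)) d → a ≠ z (i + 1) → d ≠ z i →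
      g a = g (z (i + 1)) → g (z i) = g d → False := by
    intro i a d h1 h2 n1 n2 e1 e2
    refine (hσ i).2.2.2 ⟨?_, ?_⟩
    · rcases hnb i a h1 with rfl | rfl | rfl
      · exact absurd rfl n1
      · rw [gz, gz] at e1; exact Or.inl e1
      · rw [gz, go] at e1; exact Or.inr e1
    · rcases hnb _ d h2 with rfl | rfl | rfl
      · rw [gz, gz] at e2; exact Or.inl e2
      · rw [add_sub_cancel_right] at n2; exact absurd rfl n2
      · rw [gz, go] at e2; exact Or.inr e2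
  have k2 : ∀ i a c d, G.Adj (z i) a → G.Adj (z i) c → G.Adj c d → c ∉ Set.range z → a ≠ c →
      d ≠ z i → g a = g c → g (z i) = g d → False := by
    intro i a c d h1 h2 h3 hc n1 n2 e1 e2
    have : c = o i := by
      rcases hnb i c h2 with rfl | rfl | rfl
      · exact absurd ⟨_, rfl⟩ hc
      · exact absurd ⟨_, rfl⟩ hc
      · rfl
    subst this
    obtain ⟨x1, x2, -⟩ := (hx i d h3).resolve_left n2
    rw [gz, gout d x1] at e2
    have := (hσ i).2.2.1 (e2 ▸ x2)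
    rcases hnb i a h1 with rfl | rfl | rfl
    · rw [gz, go] at e1; exact this.1 e1
    · rw [gz, go] at e1; exact this.2 e1
    · exact n1 rfl
  have k3 : ∀ i b c d, b ∈ U → d ∈ U → G.Adj (z i) b → G.Adj b c → G.Adj c d → b ∉ Set.range z →
      c ∉ Set.range z → b ≠ d → g b = g d → False := by
    intro i b c d hb hd h1 h2 h3 hb' hc n e
    have : b = o i := by
      rcases hnb i b h1 with rfl | rfl | rfl
      · exact absurd ⟨_, rfl⟩ hb'
      · exact absurd ⟨_, rfl⟩ hb'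
      · rfl
    subst this
    obtain ⟨-, -, x3⟩ := (hx i c h2).resolve_left fun e => hc ⟨i, e.symm⟩
    obtain ⟨y1, y2⟩ := x3 d hd hb h3 n.symm
    rw [go, gout d y1] at e
    exact y2 e.symm
  refine ⟨g, ⟨?_, ?_⟩, gout⟩
  · intro u v hu hv h
    by_cases h1 : u ∈ Set.range z
    · obtain ⟨i, rfl⟩ := h1; exact p1 i v h
    · by_cases h2 : v ∈ Set.range z
      · obtain ⟨i, rfl⟩ := h2; exact (p1 i u h.symm).symm
      · rw [gout u h1, gout v h2]; exact hf.1 u v ⟨hu, h1⟩ ⟨hv, h2⟩ h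
  · intro a b c d ha hb hc hd hab hbc hcd hac hbd e1 e2
    by_cases h1 : b ∈ Set.range z
    · obtain ⟨i, rfl⟩ := h1
      by_cases h2 : c ∈ Set.range z
      · rcases hnb i c hbc with rfl | rfl | rfl
        · exact k1 i a d hab.symm hcd hac hbd.symm e1 e2
        · refine k1 (i - 1) d a hcd ?_ ?_ hac ?_ e1.symm <;> rw [sub_add_cancel]
          exacts [hab.symm, hbd.symm, e2.symm]
        · exact ho i h2
      · exact k2 i a c d hab.symm hbc hcd h2 hac hbd.symm e1 e2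
    · by_cases h2 : c ∈ Set.range z
      · obtain ⟨i, rfl⟩ := h2
        exact k2 i d b a hcd hbc.symm hab.symm h1 hbd.symm hac e2.symm e1.symm
      · by_cases h3 : a ∈ Set.range z
        · obtain ⟨i, rfl⟩ := h3
          exact k3 i b c d hb hd hab hbc hcd h1 h2 hbd e2
        · by_cases h4 : d ∈ Set.range z
          · obtain ⟨i, rfl⟩ := h4
            exact k3 i c b a hc ha hcd.symm hbc.symm hab.symm h2 h1 hac.symm e1.symm
          · rw [gout a h3, gout c h2] at e1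
            rw [gout b h1, gout d h4] at e2
            exact hf.2 a b c d ⟨ha, h3⟩ ⟨hb, h1⟩ ⟨hc, h2⟩ ⟨hd, h4⟩ hab hbc hcd hac hbd e1 e2

end Pool.Agent.MP_82b037_lc.H62
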