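import Pool.Agent.MP_82b037_lc.H62.Chain
import Pool.Agent.MP_82b037_lc.H62.Cyc
import Pool.Agent.MP_82b037_lc.H62.Brooks

set_option autoImplicit false
set_option linter.unusedSectionVars false

namespace Pool.Agent.MP_82b037_lc.H62

open Finset

variable {V : Type} [Fintype V] [DecidableEq V] {G : SimpleGraph V} [DecidableRel G.Adj]
variable {c : V → Bool}

theorem blue_iff (hG : G.IsRegularOfDegree 3) (v : V) : c v = false ↔ tc G c v < 4 := by
  have := dg_le hG c v
  unfold tc cn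
  cases c v
  · simp; omega
  · simp

theorem red_iff (hG : G.IsRegularOfDegree 3) (v : V) : c v = true ↔ 4 ≤ tc G c v := by
  rw [← not_lt, ← blue_iff hG]; simp

theorem tc_blue {v : V} (h : c v = false) : tc G c v = dg G c v := by
  unfold tc cn; rw [h]; simp

theorem tc_red {v : V} (h : c v = true) : tc G c v = 4 + dg G c v := by
  unfold tc cn; rw [h]; simp

theorem dg_one {v x : V} (h : G.Adj v x) (e : c x = c v) : 1 ≤ dg G c v :=
  card_pos.2 ⟨x, mem_filter.2 ⟨(G.mem_neighborFinset _ _).2 h, e⟩⟩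

theorem dg_two {v x y : V} (h : G.Adj v x) (e : c x = c v) (h' : G.Adj v y) (e' : c y = c v)
    (n : x ≠ y) : 2 ≤ dg G c v :=
  one_lt_card.2 ⟨x, mem_filter.2 ⟨(G.mem_neighborFinset _ _).2 h, e⟩, y,
    mem_filter.2 ⟨(G.mem_neighborFinset _ _).2 h', e'⟩, n⟩

theorem dg_lt (hG : G.IsRegularOfDegree 3) {v x : V} (h : G.Adj v x) (e : c x ≠ c v) :
    dg G c v < 3 := by
  have := hG v
  rw [← G.card_neighborFinset_eq_degree] at this
  rw [← this]
  exact card_lt_card (filter_ssubset.2 ⟨x, (G.mem_neighborFinset _ _).2 h, e⟩)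

theorem ne_of_tc {x y : V} {i j : ℕ} (hx : tc G c x = i) (hy : tc G c y = j) (n : i ≠ j) : x ≠ y :=
  fun e => n (by rw [← hx, ← hy, e])

theorem nb3 (hG : G.IsRegularOfDegree 3) {v x y z w : V} (h1 : G.Adj v x) (h2 : G.Adj v y)
    (h3 : G.Adj v z) (n1 : x ≠ y) (n2 : x ≠ z) (n3 : y ≠ z) (h : G.Adj v w) : w = x ∨ w = y ∨ w = z := by
  have := nbr_of_three hG (l := [x, y, z]) (by simp [n1, n2, n3]) rfl (by simp [h1, h2, h3]) h
  simpa using this

section pent

variable {a u v b p q k s w t x : V}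

theorem Pent.symm (P : Pent G c a u v b p q k s w t) : Pent G c b v u a q p k w s t :=
  ⟨⟨P.tb, P.ta, P.tq, P.tp, P.tk, P.tw, P.ts, P.tt, P.qv, P.pu, P.kq, P.kp, P.wq, P.sp, P.tk', P.pq.symm,
    P.sw.symm, P.wt, P.st⟩, P.tv, P.tu, P.bv, P.uv.symm, P.au, P.rb, P.rv, P.ru, P.ra⟩

theorem Pent.nb_u (hG : G.IsRegularOfDegree 3) (P : Pent G c a u v b p q k s w t) (h : G.Adj u x) :
    x = v ∨ x = p ∨ x = a :=
  nb3 hG P.uv P.pu.symm P.au.symm (ne_of_tc P.tv P.tp (by decide)) (ne_of_tc P.tv P.ta (by decide))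
    (ne_of_tc P.tp P.ta (by decide)) h

theorem Pent.nb_p (hG : G.IsRegularOfDegree 3) (P : Pent G c a u v b p q k s w t) (h : G.Adj p x) :
    x = u ∨ x = k ∨ x = s :=
  nb3 hG P.pu P.kp.symm P.sp.symm (ne_of_tc P.tu P.tk (by decide)) (ne_of_tc P.tu P.ts (by decide))
    (ne_of_tc P.tk P.ts (by decide)) h

theorem Pent.nb_k (hG : G.IsRegularOfDegree 3) (P : Pent G c a u v b p q k s w t) (h : G.Adj k x) :
    x = p ∨ x = q ∨ x = t :=
  nb3 hG P.kp P.kq P.tk'.symm P.pq (ne_of_tc P.tp P.tt (by decide)) (ne_of_tc P.tq P.tt (by decide)) h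

variable (G c) in
/-- `x` lies on the cycle of some pentagon -/
def ZA (x : V) : Prop :=
  ∃ a u v b p q k s w t, Pent G c a u v b p q k s w t ∧ (x = u ∨ x = p ∨ x = k)

theorem Pent.za_u (P : Pent G c a u v b p q k s w t) : ZA G c u := ⟨_, _, _, _, _, _, _, _, _, _, P, Or.inl rfl⟩
theorem Pent.za_p (P : Pent G c a u v b p q k s w t) : ZA G c p :=
  ⟨_, _, _, _, _, _, _, _, _, _, P, Or.inr (Or.inl rfl)⟩
theorem Pent.za_k (P : Pent G c a u v b p q k s w t) : ZA G c k :=
  ⟨_, _, _, _, _, _, _, _, _, _, P, Or.inr (Or.inr rfl)⟩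

theorem ZA.ty (h : ZA G c x) : 2 ≤ tc G c x := by
  obtain ⟨a, u, v, b, p, q, k, s, w, t, P, rfl | rfl | rfl⟩ := h
  · exact P.tu.ge
  · rw [P.tp]; decide
  · rw [P.tk]; decide

theorem ZA.nb (hG : G.IsRegularOfDegree 3) {y : V} (h : ZA G c y) (ha : G.Adj y x) (hx : c x = true) :
    ZA G c x := by
  have h4 := (red_iff hG x).1 hx
  obtain ⟨a, u, v, b, p, q, k, s, w, t, P, rfl | rfl | rfl⟩ := h
  · rcases P.nb_u hG ha with rfl | rfl | rfl
    · exact P.symm.za_u
    · exact P.za_p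
    · rw [P.ta] at h4; omega
  · rcases P.nb_p hG ha with rfl | rfl | rfl
    · exact P.za_u
    · exact P.za_k
    · rw [P.ts] at h4; omega
  · rcases P.nb_k hG ha with rfl | rfl | rfl
    · exact P.za_p
    · exact P.symm.za_p
    · rw [P.tt] at h4; omega

theorem ZA.out (hG : G.IsRegularOfDegree 3) {o : V} (h : ZA G c x) (ha : G.Adj o x) (hx : c x = true)
    (ho : tc G c o < 2) : ∃ a u v b p q k s w t, Pent G c a u v b p q k s w t ∧
      ((x = p ∧ o = s) ∨ (x = k ∧ o = t)) := by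
  have h4 := (red_iff hG x).1 hx
  obtain ⟨a, u, v, b, p, q, k, s, w, t, P, rfl | rfl | rfl⟩ := h
  · rw [P.tu] at h4; omega
  · rcases P.nb_p hG ha.symm with rfl | rfl | rfl
    · rw [P.tu] at ho; omega
    · rw [P.tk] at ho; omega
    · exact ⟨_, _, _, _, _, _, _, _, _, _, P, Or.inl ⟨rfl, rfl⟩⟩
  · rcases P.nb_k hG ha.symm with rfl | rfl | rfl
    · rw [P.tp] at ho; omega
    · rw [P.tq] at ho; omega
    · exact ⟨_, _, _, _, _, _, _, _, _, _, P, Or.inr ⟨rfl, rfl⟩⟩

theorem red_of_zero (hG : G.IsRegularOfDegree 3) {o : V} (ho : tc G c o = 0) (ha : G.Adj o x) :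
    c x = true := by
  have hb := (blue_iff hG o).2 (show tc G c o < 4 by omega)
  by_contra hc
  have := dg_one (c := c) ha (by rw [hb]; simpa using hc)
  rw [tc_blue hb] at ho; omega

theorem Pent.out_a (hG : G.IsRegularOfDegree 3) (P : Pent G c a u v b p q k s w t) (h : G.Adj a x)
    (n : x ≠ u) : c x = true ∧ ¬ ZA G c x := by
  have hb := (blue_iff hG a).2 (show tc G c a < 4 by rw [P.ta]; decide)
  have hu := (blue_iff hG u).2 (show tc G c u < 4 by rw [P.tu]; decide)
  have hx : c x = true := by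
    by_contra hc
    have := dg_two (c := c) h (by rw [hb]; simpa using hc) P.au (by rw [hb, hu]) n
    have e := P.ta
    rw [tc_blue hb] at e; omega
  refine ⟨hx, fun hz => ?_⟩
  obtain ⟨_, _, _, _, _, _, _, _, _, _, Q, ⟨_, rfl⟩ | ⟨_, rfl⟩⟩ :=
    hz.out hG h hx (by rw [P.ta]; decide)
  · exact ne_of_tc P.ta Q.ts (by decide) rfl
  · exact ne_of_tc P.ta Q.tt (by decide) rfl

theorem Pent.out_s (hG : G.IsRegularOfDegree 3) (hmin : ∀ c', Phi G c ≤ Phi G c')
    (P : Pent G c a u v b p q k s w t) (h : G.Adj s x) (n : x ≠ p) : c x = true ∧ ¬ ZA G c x := by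
  have hx := red_of_zero hG P.ts h
  refine ⟨hx, fun hz => ?_⟩
  obtain ⟨_, _, _, _, _, _, _, _, _, _, Q, ⟨rfl, _⟩ | ⟨rfl, _⟩⟩ :=
    hz.out hG h hx (by rw [P.ts]; decide)
  · exact s44 hG hmin P Q h n.symm
  · exact s46 hG hmin P Q h n.symm

theorem Pent.out_t (hG : G.IsRegularOfDegree 3) (hmin : ∀ c', Phi G c ≤ Phi G c')
    (P : Pent G c a u v b p q k s w t) (h : G.Adj t x) (n : x ≠ k) : c x = true ∧ ¬ ZA G c x := by
  have hx := red_of_zero hG P.tt h
  refine ⟨hx, fun hz => ?_⟩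
  obtain ⟨_, _, _, _, _, _, _, _, _, _, Q, ⟨rfl, rfl⟩ | ⟨rfl, _⟩⟩ :=
    hz.out hG h hx (by rw [P.tt]; decide)
  · exact s46 hG hmin Q P P.tk' n
  · exact s66 hG hmin P Q h n.symm

end pent

theorem forb (hG : G.IsRegularOfDegree 3) (hmin : ∀ c', Phi G c ≤ Phi G c') {u v : V} (h : G.Adj u v) :
    ¬ (6 ≤ tc G c u ∧ 6 ≤ tc G c v) ∧ ¬ (tc G c u < 3 ∧ tc G c v = 4) ∧
      ¬ (2 ≤ tc G c u ∧ tc G c u ≤ 3 ∧ tc G c v = 3) := by
  have : ∀ a < 8, ∀ b < 8, fb 13890227180989321232 a b = 0 →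
      ¬ (6 ≤ a ∧ 6 ≤ b) ∧ ¬ (a < 3 ∧ b = 4) ∧ ¬ (2 ≤ a ∧ a ≤ 3 ∧ b = 3) := by
    intro a ha b hb
    interval_cases a <;> interval_cases b <;> decide +kernel
  exact this _ (tc_lt hG c u) _ (tc_lt hG c v) (noF_fin hG hmin u v h)

theorem two_blue (hG : G.IsRegularOfDegree 3) (hmin : ∀ c', Phi G c ≤ Phi G c') {y v w w' : V}
    (hy : c y = true) (hv : c v = false) (hw : c w = false) (hw' : c w' = false) (a1 : G.Adj y v)
    (a2 : G.Adj y w) (a3 : G.Adj y w') (n1 : v ≠ w) (n2 : v ≠ w') : w = w' := by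
  by_contra n3
  have h0 : dg G c y = 0 := by
    unfold dg
    rw [card_eq_zero, filter_eq_empty_iff]
    intro x hx
    rcases nb3 hG a1 a2 a3 n1 n2 n3 ((G.mem_neighborFinset _ _).1 hx) with rfl | rfl | rfl <;> simp [*]
  refine (forb hG hmin a1.symm).2.1 ⟨?_, by rw [tc_red hy, h0]⟩
  rw [tc_blue hv]
  exact dg_lt hG a1.symm (by simp [hy, hv])

theorem f0_ex (hG : G.IsRegularOfDegree 3) (hmin : ∀ c', Phi G c ≤ Phi G c') (hW : ¬ HasWagner G) :
    ∃ f : V → Fin 5, (∀ v, c v = false → (f v).val < 3) ∧ (∀ v, c v = true → 3 ≤ (f v).val) ∧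
      (∀ u v, c u = true → c v = true → G.Adj u v → f u ≠ f v) ∧
      ∀ u v, c u = false → c v = false → ¬ InR G u → ¬ InR G v → u ≠ v → Conn G c u v → f u ≠ f v := by
  classical
  have b15 : ∀ v, c v = false → bit 15 (tc G c v) = 1 := by
    intro v hv
    have : ∀ a < 4, bit 15 a = 1 := by decide
    exact this _ ((blue_iff hG v).1 hv)
  obtain ⟨β, hβ⟩ := brooks3 (fun u v => c u = false ∧ c v = false ∧ ¬ InR G u ∧ ¬ InR G v ∧ u ≠ v ∧
    Conn G c u v) (by
      rintro u v ⟨h1, h2, h3, h4, h5, h6 | ⟨y, h6, h7, h8⟩⟩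
      · exact ⟨h2, h1, h4, h3, h5.symm, Or.inl h6.symm⟩
      · exact ⟨h2, h1, h4, h3, h5.symm, Or.inr ⟨y, h6, h8, h7⟩⟩) (fun v h => h.2.2.2.2.1 rfl) (by
      intro v
      refine ⟨(G.neighborFinset v).image fun y => if c y = false then y else
        if h : ∃ w, c w = false ∧ v ≠ w ∧ G.Adj y w then h.choose else v, ?_, ?_⟩
      · refine card_image_le.trans ?_
        rw [G.card_neighborFinset_eq_degree, hG]
      · rintro w ⟨h1, h2, -, -, h5, h6 | ⟨y, h6, h7, h8⟩⟩
        · exact mem_image.2 ⟨w, (G.mem_neighborFinset _ _).2 h6, if_pos h2⟩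
        · refine mem_image.2 ⟨y, (G.mem_neighborFinset _ _).2 h7, ?_⟩
          have h : ∃ w, c w = false ∧ v ≠ w ∧ G.Adj y w := ⟨w, h2, h5, h8.symm⟩
          rw [if_neg (by simp [h6]), dif_pos h]
          obtain ⟨e1, e2, e3⟩ := h.choose_spec
          exact two_blue hG hmin h6 h1 e1 h2 h7.symm e3 h8.symm e2 h5) (by
      intro a b d e h1 h2 h3 h4 h5 h6
      exact hW (k4 hG hmin (b15 a h1.1) (b15 b h1.2.1) (b15 d h6.1) (b15 e h6.2.1) h1.2.2.1 h1.2.2.2.1
        h6.2.2.1 h6.2.2.2.1 h1.2.2.2.2.1 h2.2.2.2.2.1 h3.2.2.2.2.1 h4.2.2.2.2.1 h5.2.2.2.2.1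
        h6.2.2.2.2.1 h1.2.2.2.2.2 h2.2.2.2.2.2 h3.2.2.2.2.2 h4.2.2.2.2.2 h5.2.2.2.2.2 h6.2.2.2.2.2))
  let r := Fintype.equivFin V
  let A : V → Prop := fun v => 2 ≤ dg G c v ∨ ∃ w, G.Adj v w ∧ c w = true ∧ dg G c w = 1 ∧ r v < r w
  have hA : ∀ u v, c u = true → c v = true → G.Adj u v → dg G c u = 1 →
      (A u ↔ dg G c v = 1 ∧ r u < r v) := by
    intro u v hu hv h h1
    constructor
    · rintro (h2 | ⟨w, w1, w2, w3, w4⟩)
      · omega
      · have : w = v := by
          by_contra n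
          have := dg_two w1 (w2.trans hu.symm) h (hv.trans hu.symm) n
          omega
        subst this; exact ⟨w3, w4⟩
    · exact fun h2 => Or.inr ⟨v, h, hv, h2⟩
  have hA2 : ∀ u v, c u = true → c v = true → G.Adj u v → dg G c u = 1 → ¬ (A u ↔ A v) := by
    intro u v hu hv h h1
    rw [hA u v hu hv h h1]
    have := dg_one h.symm (hu.trans hv.symm)
    by_cases h2 : dg G c v = 1
    · rw [hA v u hv hu h.symm h2]
      have n : r u ≠ r v := fun e => h.ne (r.injective e)
      rcases lt_or_gt_of_ne n with l | l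
      · simp [h1, h2, l, l.le]
      · simp [h1, h2, l, l.le]
    · have : A v := Or.inl (by omega)
      simp [h2, this]
  refine ⟨fun v => if c v = true then (if A v then 3 else 4) else Fin.castLE (by decide) (β v),
    fun v hv => ?_, fun v hv => ?_, fun u v hu hv h => ?_, fun u v hu hv h1 h2 h3 h4 => ?_⟩
  · simp only [hv]; exact (β v).2
  · simp only [hv, if_true]; split_ifs <;> decide
  · have : ¬ (A u ↔ A v) := by
      have d1 := dg_one h (hv.trans hu.symm)
      have d2 := dg_one h.symm (hu.trans hv.symm)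
      have := (forb hG hmin h).1
      rw [tc_red hu, tc_red hv] at this
      have e : dg G c u = 1 ∨ dg G c v = 1 := by clear hA hA2 hβ; omega
      rcases e with e | e
      · exact hA2 u v hu hv h e
      · exact fun e' => hA2 v u hv hu h.symm e e'.symm
    simp only [hu, hv, if_true]
    by_cases a1 : A u <;> by_cases a2 : A v <;> simp_all
  · simp only [hu, hv]
    exact fun e => hβ u v ⟨hu, hv, h1, h2, h3, h4⟩ (Fin.castLE_injective (show 3 ≤ 5 by decide) e)

theorem base (hG : G.IsRegularOfDegree 3) (hmin : ∀ c', Phi G c ≤ Phi G c') {f0 : V → Fin 5}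
    (fb : ∀ v, c v = false → (f0 v).val < 3) (fr : ∀ v, c v = true → 3 ≤ (f0 v).val)
    (f1 : ∀ u v, c u = true → c v = true → G.Adj u v → f0 u ≠ f0 v)
    (f2 : ∀ u v, c u = false → c v = false → ¬ InR G u → ¬ InR G v → u ≠ v → Conn G c u v →
      f0 u ≠ f0 v) (n : ℕ) : ∀ U : Set V, U.ncard = n → (∀ v ∈ U, ¬ InR G v) →
      ∃ f, StarOn G U f ∧ ∀ v, ¬ ZA G c v → f v = f0 v := by
  have same : ∀ u v, f0 u = f0 v → c u = c v := by
    intro u v e
    cases hu : c u <;> cases hv : c v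
    · rfl
    · have := fb u hu; have := fr v hv; omega
    · have := fr u hu; have := fb v hv; omega
    · rfl
  induction n using Nat.strong_induction_on with
  | _ n ih =>
  intro U hn hU
  by_cases hp : ∃ a u v b p q k s w t, Pent G c a u v b p q k s w t ∧ u ∈ U
  · obtain ⟨a, u, v, b, p, q, k, s, w, t, P, hu⟩ := hp
    let z : Fin 5 → V := ![u, v, q, k, p]
    let o : Fin 5 → V := ![a, b, w, t, s]
    have za : ∀ i, ZA G c (z i) := by
      intro i; fin_cases i
      exacts [P.za_u, P.symm.za_u, P.symm.za_p, P.za_k, P.za_p]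
    have nz : ∀ x, ¬ ZA G c x → x ∉ Set.range z := by
      rintro x hx ⟨i, rfl⟩; exact hx (za i)
    have to' : ∀ i, tc G c (o i) < 2 := by
      intro i; fin_cases i
      exacts [P.ta.trans_lt (by decide), P.tb.trans_lt (by decide), P.tw.trans_lt (by decide),
        P.tt.trans_lt (by decide), P.ts.trans_lt (by decide)]
    have oz : ∀ i, ¬ ZA G c (o i) := fun i h => by have := h.ty; have := to' i; omega
    have ob : ∀ i, c (o i) = false := fun i => (blue_iff hG _).2 (by have := to' i; omega)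
    have out : ∀ i x, G.Adj (o i) x → x ≠ z i → c x = true ∧ ¬ ZA G c x := by
      intro i x; fin_cases i
      exacts [P.out_a hG, P.symm.out_a hG, P.symm.out_s hG hmin, P.out_t hG hmin, P.out_s hG hmin]
    obtain ⟨f, hf, hf0⟩ := ih _ (hn ▸ Set.ncard_lt_ncard (Set.sdiff_ssubset_left_iff.2
      ⟨u, hu, (⟨0, rfl⟩ : u ∈ Set.range z)⟩)) (U \ Set.range z) rfl fun x hx => hU x hx.1
    obtain ⟨g, hg, hg0⟩ := ext_cycle z o (by
        have n1 := P.uv.ne
        have n2 := ne_of_tc P.tu P.tq (by decide)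
        have n3 := ne_of_tc P.tu P.tk (by decide)
        have n4 := ne_of_tc P.tu P.tp (by decide)
        have n5 := ne_of_tc P.tv P.tq (by decide)
        have n6 := ne_of_tc P.tv P.tk (by decide)
        have n7 := ne_of_tc P.tv P.tp (by decide)
        have n8 := ne_of_tc P.tq P.tk (by decide)
        have n9 := P.pq.symm
        have n10 := ne_of_tc P.tk P.tp (by decide)
        have : List.Nodup [u, v, q, k, p] := by simp [*]
        exact List.nodup_ofFn.1 this) (by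
        intro i x h; fin_cases i
        · exact P.nb_u hG h
        · rcases P.symm.nb_u hG h with e | e | e
          exacts [Or.inr (Or.inl e), Or.inl e, Or.inr (Or.inr e)]
        · rcases P.symm.nb_p hG h with e | e | e
          exacts [Or.inr (Or.inl e), Or.inl e, Or.inr (Or.inr e)]
        · exact P.nb_k hG h
        · exact P.nb_p hG h) (fun i => nz _ (oz i)) hf
      (fun i => by rw [hf0 _ (oz i)]; exact fb _ (ob i)) (by
        intro i x h
        by_cases e : x = z i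
        · exact Or.inl e
        · obtain ⟨x1, x2⟩ := out i x h e
          refine Or.inr ⟨nz x x2, by rw [hf0 x x2]; exact fr x x1, fun y hy ho hxy n => ?_⟩
          have y1 : ¬ ZA G c y := fun hz => x2 (hz.nb hG hxy.symm x1)
          refine ⟨nz y y1, ?_⟩
          rw [hf0 y y1, hf0 _ (oz i)]
          intro e'
          exact f2 y (o i) ((same _ _ e').trans (ob i)) (ob i) (hU y hy) (hU _ ho) n
            (Or.inr ⟨x, x1, hxy.symm, h⟩) e')
    exact ⟨g, hg, fun x hx => (hg0 x (nz x hx)).trans (hf0 x hx)⟩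
  · have pr : ∀ u v, u ∈ U → v ∈ U → G.Adj u v → f0 u ≠ f0 v := by
      intro u v hu hv h e
      cases hc : c u
      · exact f2 u v hc ((same _ _ e).symm.trans hc) (hU u hu) (hU v hv) h.ne (Or.inl h) e
      · exact f1 u v hc ((same _ _ e).symm.trans hc) h e
    refine ⟨f0, ⟨pr, ?_⟩, fun _ _ => rfl⟩
    intro a b d e ha hb hd he hab hbd hde n1 n2 e1 e2
    have s1 := same _ _ e1
    have s2 := same _ _ e2
    cases ca : c a <;> cases cb : c b
    · have cd := s1.symm.trans ca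
      have ce := s2.symm.trans cb
      have d1 := dg_two hab.symm (ca.trans cb.symm) hbd (cd.trans cb.symm) n1
      have d2 := dg_two hbd.symm (cb.trans cd.symm) hde (ce.trans cd.symm) n2
      have l1 := dg_le hG c b
      have l2 := dg_le hG c d
      have g1 := (forb hG hmin hbd).2.2
      have g2 := (forb hG hmin hbd.symm).2.2
      have t1 := tc_blue (G := G) cb
      have t2 := tc_blue (G := G) cd
      have b14 : ∀ x y, c x = false → c y = false → G.Adj x y → bit 14 (tc G c x) = 1 := by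
        intro x y hx hy h
        have : ∀ a < 4, 1 ≤ a → bit 14 a = 1 := by decide
        exact this _ ((blue_iff hG x).1 hx) (by rw [tc_blue hx]; exact dg_one h (hy.trans hx.symm))
      obtain ⟨p, q, k, s, w, t, P⟩ := p4 hG hmin (b14 a b ca cb hab) (show tc G c b = 2 by omega)
        (show tc G c d = 2 by omega) (b14 e d ce cd hde.symm) (hU a ha) (hU b hb) (hU d hd) (hU e he)
        hab hbd hde n1 (fun x => pr a b ha hb hab (x ▸ e2.symm)) n2
      exact hp ⟨_, _, _, _, _, _, _, _, _, _, P, hb⟩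
    · exact f2 a d ca (s1.symm.trans ca) (hU a ha) (hU d hd) n1 (Or.inr ⟨b, cb, hab, hbd.symm⟩) e1
    · exact f2 b e cb (s2.symm.trans cb) (hU b hb) (hU e he) n2
        (Or.inr ⟨d, s1.symm.trans ca, hbd, hde.symm⟩) e2
    · have cd := s1.symm.trans ca
      have ce := s2.symm.trans cb
      have d1 := dg_two hab.symm (ca.trans cb.symm) hbd (cd.trans cb.symm) n1
      have d2 := dg_two hbd.symm (cb.trans cd.symm) hde (ce.trans cd.symm) n2
      refine (forb hG hmin hbd).1 ?_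
      rw [tc_red cb, tc_red cd]; omega

theorem star_five (hG : G.IsRegularOfDegree 3) (hW : ¬ HasWagner G) : ∃ f, StarOn G Set.univ f := by
  obtain ⟨c, hmin⟩ := Finite.exists_min (Phi G)
  obtain ⟨f0, fb, fr, f1, f2⟩ := f0_ex hG hmin hW
  have : ∀ n, ∀ U : Set V, U.ncard = n → ∃ f, StarOn G U f := by
    intro n
    induction n using Nat.strong_induction_on with
    | _ n ih =>
    intro U hn
    by_cases h : ∃ v ∈ U, InR G v
    · obtain ⟨v, hv, D, hD, hr⟩ := h
      obtain ⟨f, hf⟩ := ih _ (hn ▸ Set.ncard_lt_ncard (Set.sdiff_ssubset_left_iff.2 ⟨v, hv, hD⟩))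
        (U \ D) rfl
      obtain ⟨g, hg⟩ := hr U f hf
      exact ⟨g, hg.mono Set.subset_union_left⟩
    · obtain ⟨f, hf, -⟩ := base hG hmin fb fr f1 f2 n U hn fun v hv hr => h ⟨v, hv, hr⟩
      exact ⟨f, hf⟩
  exact this _ _ rfl

end Pool.Agent.MP_82b037_lc.H62
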