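import Mathlib

set_option autoImplicit false
set_option linter.unusedSectionVars false

namespace Pool.Agent.MP_82b037_lc.H62

open Finset

/-- digit `i` of `x` in base `B` -/
def gd (B x i : ℕ) : ℕ := Nat.mod (Nat.div x (Nat.pow B i)) B

theorem gd_eq (B x i : ℕ) : gd B x i = x / B ^ i % B := rfl

theorem gd_lt {B : ℕ} (hB : 0 < B) (x i : ℕ) : gd B x i < B := Nat.mod_lt _ hB

theorem gd_add {B : ℕ} (hB : 0 < B) (x δ u i : ℕ) (h : gd B x u + δ < B) :
    gd B (x + δ * B ^ u) i = if i = u then gd B x u + δ else gd B x i := by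
  simp only [gd_eq] at *
  have hp : ∀ k, 0 < B ^ k := fun k => Nat.pow_pos hB
  rcases lt_trichotomy i u with hi | hi | hi
  · rw [if_neg hi.ne]
    obtain ⟨k, rfl⟩ := Nat.exists_eq_add_of_lt hi
    have : δ * B ^ (i + k + 1) = B ^ i * (B * (δ * B ^ k)) := by ring
    rw [this, Nat.add_mul_div_left _ _ (hp i), Nat.add_mul_mod_self_left]
  · subst hi
    rw [if_pos rfl, Nat.add_mul_div_right _ _ (hp i), ← Nat.mod_add_mod, Nat.mod_eq_of_lt h]
  · rw [if_neg hi.ne']
    obtain ⟨k, rfl⟩ := Nat.exists_eq_add_of_lt hi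
    have e : B ^ (u + k + 1) = B ^ u * B * B ^ k := by ring
    rw [e, ← Nat.div_div_eq_div_mul, ← Nat.div_div_eq_div_mul, ← Nat.div_div_eq_div_mul,
      ← Nat.div_div_eq_div_mul, Nat.add_mul_div_right _ _ (hp u)]
    congr 2
    have h1 := Nat.div_add_mod (x / B ^ u) B
    have h2 : x / B ^ u + δ = (x / B ^ u % B + δ) + B * (x / B ^ u / B) := by omega
    rw [h2, Nat.add_mul_div_left _ _ hB, Nat.div_eq_of_lt h, Nat.zero_add]

/-- the list of at most three numbers packed in `a` -/
def dec (a : ℕ) : List ℕ :=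
  if a = 0 then [] else if a < 64 then [a - 1] else if a < 4096 then [a % 64 - 1, a / 64 - 1]
  else [a % 64 - 1, a / 64 % 64 - 1, a / 4096 - 1]

theorem dec_push {a v : ℕ} (ha : a < 4096) (hv : v < 63) : dec (a + (a * 63 + v + 1)) = v :: dec a := by
  unfold dec
  by_cases h0 : a = 0
  · subst h0; simp; omega
  · by_cases h1 : a < 64
    · rw [if_neg (by omega), if_neg (by omega), if_pos (by omega), if_neg h0, if_pos h1]
      congr 2 <;> omega
    · rw [if_neg (by omega), if_neg (by omega), if_neg (by omega), if_neg h0, if_neg h1, if_pos ha]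
      congr 1
      · omega
      · congr 1
        · omega
        · congr 1; omega

theorem dec_len {a : ℕ} (h : (dec a).length < 3) : a < 4096 := by
  unfold dec at h
  split_ifs at h <;> first | omega | simp at h

theorem dec_len3 {a : ℕ} (h : 4096 ≤ a) : (dec a).length = 3 := by
  unfold dec
  rw [if_neg (by omega), if_neg (by omega), if_neg (by omega)]; rfl

def sum3 (a : ℕ) (f : ℕ → ℕ) : ℕ :=
  bif Nat.ble a 63 then (bif Nat.beq a 0 then 0 else f (Nat.pred a)) else
  bif Nat.ble a 4095 then Nat.add (f (Nat.pred (Nat.mod a 64))) (f (Nat.pred (Nat.div a 64))) else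
  Nat.add (f (Nat.pred (Nat.mod a 64)))
    (Nat.add (f (Nat.pred (Nat.mod (Nat.div a 64) 64))) (f (Nat.pred (Nat.div a 4096))))

def all3 (a : ℕ) (f : ℕ → Bool) : Bool :=
  bif Nat.ble a 63 then (bif Nat.beq a 0 then true else f (Nat.pred a)) else
  bif Nat.ble a 4095 then f (Nat.pred (Nat.mod a 64)) && f (Nat.pred (Nat.div a 64)) else
  f (Nat.pred (Nat.mod a 64)) &&
    (f (Nat.pred (Nat.mod (Nat.div a 64) 64)) && f (Nat.pred (Nat.div a 4096)))

theorem ble_true {a b : ℕ} (h : a ≤ b) : Nat.ble a b = true := Nat.ble_eq_true_of_le h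
theorem ble_false {a b : ℕ} (h : b < a) : Nat.ble a b = false := by
  cases e : Nat.ble a b
  · rfl
  · have := Nat.le_of_ble_eq_true e; omega
theorem beq_false {a b : ℕ} (h : a ≠ b) : Nat.beq a b = false := by
  cases e : Nat.beq a b
  · rfl
  · exact absurd (Nat.eq_of_beq_eq_true e) h
theorem beq_iff {a b : ℕ} : Nat.beq a b = true ↔ a = b :=
  ⟨Nat.eq_of_beq_eq_true, fun h => h ▸ Nat.beq_refl a⟩
theorem ble_iff {a b : ℕ} : Nat.ble a b = true ↔ a ≤ b := ⟨Nat.le_of_ble_eq_true, ble_true⟩

theorem sum3_eq (a : ℕ) (f : ℕ → ℕ) : sum3 a f = ((dec a).map f).sum := by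
  unfold sum3 dec
  by_cases h0 : a = 0
  · subst h0; rfl
  · by_cases h1 : a < 64
    · rw [ble_true (by omega), beq_false h0, if_neg h0, if_pos h1]; simp
    · by_cases h2 : a < 4096
      · rw [ble_false (by omega), ble_true (by omega), if_neg h0, if_neg h1, if_pos h2]
        simp only [cond_false, cond_true, List.map_cons, List.map_nil, List.sum_cons, List.sum_nil]
        rfl
      · rw [ble_false (by omega), ble_false (by omega), if_neg h0, if_neg h1, if_neg h2]
        simp only [cond_false, List.map_cons, List.map_nil, List.sum_cons, List.sum_nil]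
        rfl

theorem all3_iff (a : ℕ) (f : ℕ → Bool) : all3 a f = true ↔ ∀ j ∈ dec a, f j = true := by
  unfold all3 dec
  by_cases h0 : a = 0
  · subst h0; simp
  · by_cases h1 : a < 64
    · rw [ble_true (by omega), beq_false h0, if_neg h0, if_pos h1]; simp
    · by_cases h2 : a < 4096
      · rw [ble_false (by omega), ble_true (by omega), if_neg h0, if_neg h1, if_pos h2]
        simp only [cond_false, cond_true, Bool.and_eq_true, List.mem_cons, List.not_mem_nil,
          or_false, forall_eq_or_imp, forall_eq]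
        rfl
      · rw [ble_false (by omega), ble_false (by omega), if_neg h0, if_neg h1, if_neg h2]
        simp only [cond_false, Bool.and_eq_true, List.mem_cons, List.not_mem_nil,
          or_false, forall_eq_or_imp, forall_eq]
        rfl

def mem3 (a v : ℕ) : Bool := !(all3 a fun j => !(Nat.beq j v))

theorem mem3_iff (a v : ℕ) : mem3 a v = true ↔ v ∈ dec a := by
  unfold mem3
  rw [Bool.not_eq_true', ← Bool.not_eq_true, all3_iff]
  constructor
  · intro h
    by_contra hv
    refine h fun j hj => ?_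
    rw [beq_false (fun e : j = v => hv (e ▸ hj))]; rfl
  · intro h h'
    have := h' v h
    rw [Nat.beq_refl] at this; exact absurd this (by decide)

def sumTo (n : ℕ) (f : ℕ → ℕ) : ℕ := Nat.rec 0 (fun i acc => Nat.add acc (f i)) n

theorem sumTo_eq (n : ℕ) (f : ℕ → ℕ) : sumTo n f = ∑ i ∈ range n, f i := by
  induction n with
  | zero => rfl
  | succ n ih => rw [sum_range_succ, ← ih]; rfl

def allTo (n : ℕ) (f : ℕ → Bool) : Bool := Nat.rec true (fun i acc => f i && acc) n

theorem allTo_iff (n : ℕ) (f : ℕ → Bool) : allTo n f = true ↔ ∀ i < n, f i = true := by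
  induction n with
  | zero => simp [allTo]
  | succ n ih =>
    have : allTo (n + 1) f = (f n && allTo n f) := rfl
    rw [this, Bool.and_eq_true, ih]
    constructor
    · rintro ⟨h1, h2⟩ i hi
      rcases Nat.lt_succ_iff_lt_or_eq.1 hi with h | h
      · exact h2 i h
      · exact h ▸ h1
    · exact fun h => ⟨h n (by omega), fun i hi => h i (by omega)⟩

/-- evaluate a number before using it -/
def force {α : Type} (x : ℕ) (f : ℕ → α) : α := Nat.rec (f 0) (fun k _ => f (Nat.succ k)) x

theorem force_eq {α : Type} (x : ℕ) (f : ℕ → α) : force x f = f x := by cases x <;> rfl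

def bit (x i : ℕ) : ℕ := Nat.mod (Nat.shiftRight x i) 2

theorem bit_eq (x i : ℕ) : bit x i = gd 2 x i := by
  unfold bit; rw [gd_eq, ← Nat.shiftRight_eq_div_pow]; rfl

theorem bit_lt (x i : ℕ) : bit x i < 2 := Nat.mod_lt _ (by decide)

structure St where
  n : ℕ
  ty : ℕ
  ad : ℕ
  nr : ℕ

def St.t (s : St) (i : ℕ) : ℕ := gd 8 s.ty i
def St.a (s : St) (i : ℕ) : ℕ := gd 262144 s.ad i
def St.nb (s : St) (i : ℕ) : List ℕ := dec (s.a i)

def St.link (s : St) (u v : ℕ) : St :=
  ⟨s.n, s.ty, s.ad + (s.a u * 63 + v + 1) * 262144 ^ u + (s.a v * 63 + u + 1) * 262144 ^ v, s.nr⟩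

def St.addV (s : St) (t : ℕ) : St := ⟨s.n + 1, s.ty + t * 8 ^ s.n, s.ad, s.nr⟩

def St.mark (s : St) (u : ℕ) : St := ⟨s.n, s.ty, s.ad, s.nr + (1 - bit s.nr u) * 2 ^ u⟩

theorem St.link_a (s : St) {u v : ℕ} (huv : u ≠ v) (hu : s.a u < 4096) (hv : s.a v < 4096)
    (hu' : u < 63) (hv' : v < 63) (i : ℕ) :
    (s.link u v).a i = if i = u then s.a u + (s.a u * 63 + v + 1) else
      if i = v then s.a v + (s.a v * 63 + u + 1) else s.a i := by
  have h1 := fun j => gd_add (B := 262144) (by norm_num) s.ad (s.a u * 63 + v + 1) u j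
    (by show s.a u + _ < _; omega)
  have h2 := gd_add (B := 262144) (by norm_num) (s.ad + (s.a u * 63 + v + 1) * 262144 ^ u)
    (s.a v * 63 + u + 1) v i (by rw [h1, if_neg huv.symm]; show s.a v + _ < _; omega)
  show gd 262144 (s.ad + _ + _) i = _
  rw [h2, h1, h1, if_neg huv.symm]
  by_cases e1 : i = u
  · subst e1; rw [if_neg huv, if_pos rfl, if_pos rfl]; rfl
  · by_cases e2 : i = v
    · rw [if_pos e2, if_neg e1, if_pos e2]; rfl
    · rw [if_neg e2, if_neg e1, if_neg e1, if_neg e2]; rfl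

theorem St.link_nb (s : St) {u v : ℕ} (huv : u ≠ v) (hu : s.a u < 4096) (hv : s.a v < 4096)
    (hu' : u < 63) (hv' : v < 63) (i : ℕ) :
    (s.link u v).nb i = if i = u then v :: s.nb u else if i = v then u :: s.nb v else s.nb i := by
  unfold St.nb
  rw [s.link_a huv hu hv hu' hv']
  split_ifs
  · exact dec_push hu hv'
  · exact dec_push hv hu'
  · rfl

section graph

variable {V : Type} [Fintype V] [DecidableEq V] (G : SimpleGraph V) [DecidableRel G.Adj]

/-- `f` is a star colouring of the subgraph induced on `U` -/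
def StarOn (U : Set V) (f : V → Fin 5) : Prop :=
  (∀ u v, u ∈ U → v ∈ U → G.Adj u v → f u ≠ f v) ∧
  ∀ a b c d, a ∈ U → b ∈ U → c ∈ U → d ∈ U → G.Adj a b → G.Adj b c → G.Adj c d → a ≠ c → b ≠ d →
    f a = f c → f b = f d → False

def Reducible (D : Set V) : Prop :=
  ∀ (U : Set V) (f : V → Fin 5), StarOn G (U \ D) f → ∃ g, StarOn G (U ∪ D) g

def InR (v : V) : Prop := ∃ D, v ∈ D ∧ Reducible G D

def cn (c : V → Bool) (v : V) : ℕ := if c v then 1 else 0

def dg (c : V → Bool) (v : V) : ℕ := ((G.neighborFinset v).filter fun w => c w = c v).card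

/-- the type of a vertex: its colour and the number of neighbours of the same colour -/
def tc (c : V → Bool) (v : V) : ℕ := 4 * cn c v + dg G c v

structure Real (c : V → Bool) (ι : ℕ → V) (s : St) : Prop where
  inj : ∀ i < s.n, ∀ j < s.n, ι i = ι j → i = j
  ty : ∀ i < s.n, s.t i = tc G c (ι i)
  adj : ∀ i < s.n, ∀ j ∈ s.nb i, j < s.n ∧ G.Adj (ι i) (ι j) ∧ i ∈ s.nb j
  nd : ∀ i < s.n, (s.nb i).Nodup
  nr : ∀ i < s.n, bit s.nr i = 1 → ¬ InR G (ι i)
  fresh : ∀ i, s.n ≤ i → s.t i = 0 ∧ s.a i = 0 ∧ bit s.nr i = 0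

variable {G}

theorem dg_le (hG : G.IsRegularOfDegree 3) (c : V → Bool) (v : V) : dg G c v ≤ 3 := by
  have := hG v
  rw [← G.card_neighborFinset_eq_degree] at this
  exact this ▸ card_filter_le _ _

theorem cn_lt (c : V → Bool) (v : V) : cn c v < 2 := by unfold cn; split_ifs <;> omega

theorem cn_eq_iff (c : V → Bool) (v w : V) : cn c v = cn c w ↔ c v = c w := by
  unfold cn; cases c v <;> cases c w <;> simp

theorem tc_div (hG : G.IsRegularOfDegree 3) (c : V → Bool) (v : V) : tc G c v / 4 = cn c v := by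
  have := dg_le hG c v; unfold tc; omega

theorem tc_mod (hG : G.IsRegularOfDegree 3) (c : V → Bool) (v : V) : tc G c v % 4 = dg G c v := by
  have := dg_le hG c v; unfold tc; omega

theorem tc_lt (hG : G.IsRegularOfDegree 3) (c : V → Bool) (v : V) : tc G c v < 8 := by
  have := dg_le hG c v; have := cn_lt c v; unfold tc; omega

variable {c : V → Bool} {ι : ℕ → V} {s : St}

theorem Real.map_nodup (h : Real G c ι s) {i : ℕ} (hi : i < s.n) : ((s.nb i).map ι).Nodup :=
  (h.nd i hi).map_on fun x hx y hy e => h.inj x (h.adj i hi x hx).1 y (h.adj i hi y hy).1 e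

theorem Real.sub (h : Real G c ι s) {i : ℕ} (hi : i < s.n) :
    ((s.nb i).map ι).toFinset ⊆ G.neighborFinset (ι i) := by
  intro w hw
  simp only [List.mem_toFinset, List.mem_map] at hw
  obtain ⟨j, hj, rfl⟩ := hw
  exact (G.mem_neighborFinset _ _).2 (h.adj i hi j hj).2.1

theorem Real.room (hG : G.IsRegularOfDegree 3) (h : Real G c ι s) {i : ℕ} (hi : i < s.n) {w : V}
    (hw : G.Adj (ι i) w) (hn : ∀ j ∈ s.nb i, ι j ≠ w) : s.a i < 4096 := by
  apply dec_len
  have h1 : insert w ((s.nb i).map ι).toFinset ⊆ G.neighborFinset (ι i) :=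
    insert_subset ((G.mem_neighborFinset _ _).2 hw) (h.sub hi)
  have h2 := card_le_card h1
  rw [card_insert_of_notMem (by simpa using fun x hx => hn x hx),
    List.toFinset_card_of_nodup (h.map_nodup hi), G.card_neighborFinset_eq_degree, hG,
    List.length_map] at h2
  exact h2

theorem Real.link (hG : G.IsRegularOfDegree 3) (h : Real G c ι s) (hn : s.n < 63) {u v : ℕ}
    (hu : u < s.n) (hv : v < s.n) (ha : G.Adj (ι u) (ι v)) (hnb : v ∉ s.nb u) :
    Real G c ι (s.link u v) ∧ s.a u < 4096 ∧ s.a v < 4096 := by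
  have huv : u ≠ v := fun e => ha.ne (e ▸ rfl)
  have hnb' : u ∉ s.nb v := fun e => hnb (h.adj v hv u e).2.2
  have r1 : s.a u < 4096 := h.room hG hu ha fun j hj e =>
    hnb (h.inj j (h.adj u hu j hj).1 v hv e ▸ hj)
  have r2 : s.a v < 4096 := h.room hG hv ha.symm fun j hj e =>
    hnb' (h.inj j (h.adj v hv j hj).1 u hu e ▸ hj)
  have e := s.link_nb huv r1 r2 (by omega) (by omega)
  have mono : ∀ i j, j ∈ s.nb i → j ∈ (s.link u v).nb i := by
    intro i j hj
    rw [e]
    split_ifs with e1 e2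
    · exact List.mem_cons_of_mem _ (e1 ▸ hj)
    · exact List.mem_cons_of_mem _ (e2 ▸ hj)
    · exact hj
  refine ⟨⟨h.inj, h.ty, ?_, ?_, h.nr, ?_⟩, r1, r2⟩
  · intro i hi j hj
    have old : j ∈ s.nb i → j < (s.link u v).n ∧ G.Adj (ι i) (ι j) ∧ i ∈ (s.link u v).nb j :=
      fun hj => ⟨(h.adj i hi j hj).1, (h.adj i hi j hj).2.1, mono _ _ (h.adj i hi j hj).2.2⟩
    rw [e] at hj
    split_ifs at hj with e1 e2
    · subst e1
      rcases List.mem_cons.1 hj with rfl | hj
      · exact ⟨hv, ha, by rw [e, if_neg huv.symm, if_pos rfl]; exact List.mem_cons_self⟩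
      · exact old hj
    · subst e2
      rcases List.mem_cons.1 hj with rfl | hj
      · exact ⟨hu, ha.symm, by rw [e, if_pos rfl]; exact List.mem_cons_self⟩
      · exact old hj
    · exact old hj
  · intro i hi
    rw [e]
    split_ifs
    · exact List.nodup_cons.2 ⟨hnb, h.nd u hu⟩
    · exact List.nodup_cons.2 ⟨hnb', h.nd v hv⟩
    · exact h.nd i hi
  · intro i hi
    have hi' : s.n ≤ i := hi
    refine ⟨(h.fresh i hi).1, ?_, (h.fresh i hi).2.2⟩
    rw [s.link_a huv r1 r2 (by omega) (by omega), if_neg (by omega), if_neg (by omega)]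
    exact (h.fresh i hi).2.1

theorem Real.addV (hG : G.IsRegularOfDegree 3) (h : Real G c ι s) {w : V}
    (hw : ∀ i < s.n, ι i ≠ w) : Real G c (Function.update ι s.n w) (s.addV (tc G c w)) := by
  have et : ∀ i, (s.addV (tc G c w)).t i = if i = s.n then tc G c w else s.t i := by
    intro i
    have h0 : gd 8 s.ty s.n = 0 := (h.fresh s.n le_rfl).1
    have := gd_add (B := 8) (by norm_num) s.ty (tc G c w) s.n i
      (by rw [h0]; have := tc_lt hG c w; omega)
    rw [h0, Nat.zero_add] at this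
    exact this
  have en : ∀ i, (s.addV (tc G c w)).nb i = s.nb i := fun _ => rfl
  have e0 : s.nb s.n = [] := by unfold St.nb; rw [(h.fresh s.n le_rfl).2.1]; rfl
  have cs : ∀ i < (s.addV (tc G c w)).n, i < s.n ∨ i = s.n := fun i hi =>
    Nat.lt_succ_iff_lt_or_eq.1 hi
  have up : ∀ i < s.n, Function.update ι s.n w i = ι i := fun i hi =>
    Function.update_of_ne hi.ne _ _
  refine ⟨?_, ?_, ?_, ?_, ?_, ?_⟩
  · intro i hi j hj e
    rcases cs i hi with hi | rfl <;> rcases cs j hj with hj | rfl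
    · rw [up i hi, up j hj] at e; exact h.inj i hi j hj e
    · rw [up i hi, Function.update_self] at e; exact absurd e (hw i hi)
    · rw [up j hj, Function.update_self] at e; exact absurd e.symm (hw j hj)
    · rfl
  · intro i hi
    rw [et]
    rcases cs i hi with hi | rfl
    · rw [if_neg hi.ne, up i hi]; exact h.ty i hi
    · rw [if_pos rfl, Function.update_self]
  · intro i hi j hj
    rw [en] at hj
    rcases cs i hi with hi | rfl
    · obtain ⟨a1, a2, a3⟩ := h.adj i hi j hj
      rw [up i hi, up j a1]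
      exact ⟨Nat.lt_succ_of_lt a1, a2, a3⟩
    · rw [e0] at hj; exact absurd hj List.not_mem_nil
  · intro i hi
    rw [en]
    rcases cs i hi with hi | rfl
    · exact h.nd i hi
    · rw [e0]; exact List.nodup_nil
  · intro i hi hb
    rcases cs i hi with hi | rfl
    · rw [up i hi]; exact h.nr i hi hb
    · have := (h.fresh s.n le_rfl).2.2
      have hb' : bit s.nr s.n = 1 := hb
      omega
  · intro i hi
    have hi' : s.n + 1 ≤ i := hi
    rw [et, if_neg (by omega)]
    exact h.fresh i (by omega)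

theorem Real.mark (h : Real G c ι s) {u : ℕ} (hu : u < s.n) (hr : ¬ InR G (ι u)) :
    Real G c ι (s.mark u) := by
  have e : ∀ i, bit (s.mark u).nr i = if i = u then bit s.nr u + (1 - bit s.nr u) else bit s.nr i := by
    intro i
    simp only [bit_eq]
    have := bit_lt s.nr u
    rw [bit_eq] at this
    have h2 := gd_add (B := 2) (by norm_num) s.nr (1 - gd 2 s.nr u) u i (by omega)
    rw [← h2]; unfold St.mark; simp only [bit_eq]
  refine ⟨h.inj, h.ty, h.adj, h.nd, ?_, ?_⟩
  · intro i hi hb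
    rw [e] at hb
    split_ifs at hb with e1
    · exact e1 ▸ hr
    · exact h.nr i hi hb
  · intro i hi
    have hi' : s.n ≤ i := hi
    refine ⟨(h.fresh i hi).1, (h.fresh i hi).2.1, ?_⟩
    rw [e, if_neg (by omega)]; exact (h.fresh i hi).2.2

end graph

end Pool.Agent.MP_82b037_lc.H62
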