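import Pool.Agent.MP_82b037_lc.H62.BigB

set_option autoImplicit false
set_option maxRecDepth 100000

namespace Pool.Agent.MP_82b037_lc.H62

theorem bigC0 : covR 10 18971441033912937752905465864673722984372677527866400201958355385767461122640453828 11 0 10 [10] [12, 13, 14, 15] bigB = true := by decide +kernel

end Pool.Agent.MP_82b037_lc.H62
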