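import Pool.Agent.MP_82b037_lc.H62.Big0
import Pool.Agent.MP_82b037_lc.H62.Big1
import Pool.Agent.MP_82b037_lc.H62.Big2

set_option autoImplicit false
set_option maxRecDepth 100000

namespace Pool.Agent.MP_82b037_lc.H62

theorem pat35 : PWF 10 16 18971441033912937752905465864673722984372677527866400201958355385767461122640453828 ∧ RedOK 10 16 18971441033912937752905465864673722984372677527866400201958355385767461122640453828 :=
  cover_split (E := [⟨0,5,10,15,20,50⟩, ⟨0,10,5,15,25,55⟩, ⟨0,15,5,10,30,60⟩, ⟨5,20,0,50,35,40⟩, ⟨5,50,0,20,80,80⟩, ⟨10,25,0,55,35,45⟩,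
    ⟨10,55,0,25,80,80⟩, ⟨15,30,0,60,40,45⟩, ⟨15,60,0,30,80,80⟩, ⟨20,35,5,40,25,65⟩, ⟨20,40,5,35,30,70⟩, ⟨25,35,10,45,20,65⟩,
    ⟨25,45,10,35,30,75⟩, ⟨30,40,15,45,20,70⟩, ⟨30,45,15,40,25,75⟩, ⟨35,65,20,25,80,80⟩, ⟨40,70,20,30,80,80⟩, ⟨45,75,25,30,80,80⟩])
    (by decide +kernel) bigC0 bigC1 bigC2

end Pool.Agent.MP_82b037_lc.H62
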