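import Pool.Agent.MP_82b037_lc.H62.PatD
import Pool.Agent.MP_82b037_lc.H62.Cov1
import Pool.Agent.MP_82b037_lc.H62.Cov2
import Pool.Agent.MP_82b037_lc.H62.Cov3

set_option autoImplicit false
set_option maxRecDepth 100000

namespace Pool.Agent.MP_82b037_lc.H62

theorem pats_ok : ∀ x ∈ pats, PWF x.1 x.2.1 x.2.2 ∧ RedOK x.1 x.2.1 x.2.2 := by
  unfold pats
  simp only [List.forall_mem_cons]
  exact ⟨pat0, pat1, pat2, pat3, pat4, pat5, pat6, pat7, pat8, pat9,
    pat10, pat11, pat12, pat13, pat14, pat15, pat16, pat17, pat18, pat19,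
    pat20, pat21, pat22, pat23, pat24, pat25, pat26, pat27, pat28, pat29,
    pat30, pat31, pat32, pat33, pat34, pat35, pat36, pat37, pat38, pat39,
    pat40, pat41, pat42, pat43, pat44, pat45, pat46, pat47, pat48, pat49,
    pat50, pat51, pat52, pat53, pat54, pat55, pat56, pat57, pat58, pat59,
    pat60, pat61, pat62, pat63, pat64, pat65, pat66, pat67, by simp⟩

end Pool.Agent.MP_82b037_lc.H62
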