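import Pool.Agent.MP_82b037_lc.H62.CertE1
import Pool.Agent.MP_82b037_lc.H62.CertE2
import Pool.Agent.MP_82b037_lc.H62.CertP
import Pool.Agent.MP_82b037_lc.H62.CertK
import Pool.Agent.MP_82b037_lc.H62.CertS
import Pool.Agent.MP_82b037_lc.H62.Pats

set_option autoImplicit false
set_option linter.unusedSectionVars false

namespace Pool.Agent.MP_82b037_lc.H62

variable {V : Type} [Fintype V] [DecidableEq V] {G : SimpleGraph V} [DecidableRel G.Adj]
variable {c : V → Bool}

theorem noF_step (hG : G.IsRegularOfDegree 3) (hmin : ∀ c', Phi G c ≤ Phi G c') {F F' H m1 m2 : ℕ}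
    {ts : List ℕ} (hF : NoF G F c)
    (h : run F H [] (fun _ _ => false) 0 [.intro 0 m1 0, .intro 1 m2 0, .edge 0 1] ts = true)
    (hF' : ∀ a < 8, ∀ b < 8, fb F a b = 0 → fb F' a b = 0 ∨ (bit m1 a = 1 ∧ bit m2 b = 1) ∨
      (bit m1 b = 1 ∧ bit m2 a = 1)) : NoF G F' c := by
  have key : ∀ u v, G.Adj u v → bit m1 (tc G c u) = 1 → bit m2 (tc G c v) = 1 → False := by
    intro u v huv h1 h2
    refine run_sound hG hF hmin (by simp) (ω := fun i => [u, v].getD i u) (Goal := False)
      (fun _ _ _ h => absurd h (by decide)) h (fun i hi => absurd hi (Nat.not_lt_zero i)) ?_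
    exact ⟨h1, fun h => absurd h (by decide), h2, fun h => absurd h (by decide), by decide, by decide,
      huv, trivial⟩
  intro u v huv
  rcases hF' _ (tc_lt hG c u) _ (tc_lt hG c v) (hF u v huv) with h | h | h
  · exact h
  · exact (key u v huv h.1 h.2).elim
  · exact (key v u huv.symm h.1 h.2).elim

theorem noF_fin (hG : G.IsRegularOfDegree 3) (hmin : ∀ c', Phi G c ≤ Phi G c') :
    NoF G 13890227180989321232 c := by
  have h0 : NoF G 0 c := fun u v _ => by simp [fb, bit_eq, gd_eq]
  have h1 : NoF G 67633152 c := noF_step hG hmin h0 certE23 (by decide +kernel)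
  have h2 : NoF G 17248550912 c := noF_step hG hmin h1 certE24 (by decide +kernel)
  have h3 : NoF G 17382768640 c := noF_step hG hmin h2 certE33 (by decide +kernel)
  have h4 : NoF G 18014415892250624 c := noF_step hG hmin h3 certE66 (by decide +kernel)
  have h5 : NoF G 19140315803287552 c := noF_step hG hmin h4 certE26 (by decide +kernel)
  have h6 : NoF G 4666855131249639424 c := noF_step hG hmin h5 certE67 (by decide +kernel)
  have h7 : NoF G 13890227168104415232 c := noF_step hG hmin h6 certE77 (by decide +kernel)
  have h8 : NoF G 13890227172399382544 c := noF_step hG hmin h7 certE04 (by decide +kernel)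
  have h9 : NoF G 13890227180989321232 c := noF_step hG hmin h8 certE14 (by decide +kernel)
  exact h9

theorem p4 (hG : G.IsRegularOfDegree 3) (hmin : ∀ c', Phi G c ≤ Phi G c') {a u v b : V}
    (ta : bit 14 (tc G c a) = 1) (tu : tc G c u = 2) (tv : tc G c v = 2) (tb : bit 14 (tc G c b) = 1)
    (ra : ¬ InR G a) (ru : ¬ InR G u) (rv : ¬ InR G v) (rb : ¬ InR G b) (au : G.Adj a u)
    (uv : G.Adj u v) (vb : G.Adj v b) (av : a ≠ v) (ab : a ≠ b) (ub : u ≠ b) :
    ∃ p q k s w t, Pent G c a u v b p q k s w t := by
  have := run_sound hG (noF_fin hG hmin) hmin pats_ok (ω := fun i => [a, u, v, b].getD i a)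
    pentX_sound certP4 (by decide)
    ⟨ta, fun _ => ra, (congrArg (bit 4) tu).trans rfl, fun _ => ru, by decide, by decide, au.ne,
      by decide, by decide, au, (congrArg (bit 4) tv).trans rfl, fun _ => rv, by decide, by decide, av,
      by decide, by decide, uv.ne, by decide, by decide, uv, tb, fun _ => rb, by decide, by decide, ab,
      by decide, by decide, ub, by decide, by decide, vb.ne, by decide, by decide, vb, trivial⟩
  obtain ⟨p, q, k, s, w, t, h⟩ := this
  exact ⟨p, q, k, s, w, t, h, tu, tv, au, uv, vb.symm, ra, ru, rv, rb⟩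

variable (G c) in
def Conn (u v : V) : Prop := G.Adj u v ∨ ∃ y, c y = true ∧ G.Adj u y ∧ G.Adj v y

theorem k4 (hG : G.IsRegularOfDegree 3) (hmin : ∀ c', Phi G c ≤ Phi G c') {a b d e : V}
    (ta : bit 15 (tc G c a) = 1) (tb : bit 15 (tc G c b) = 1) (td : bit 15 (tc G c d) = 1)
    (te : bit 15 (tc G c e) = 1) (ra : ¬ InR G a) (rb : ¬ InR G b) (rd : ¬ InR G d) (re : ¬ InR G e)
    (ab : a ≠ b) (ad : a ≠ d) (ae : a ≠ e) (bd : b ≠ d) (be : b ≠ e) (de : d ≠ e)
    (c1 : Conn G c a b) (c2 : Conn G c a d) (c3 : Conn G c a e) (c4 : Conn G c b d)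
    (c5 : Conn G c b e) (c6 : Conn G c d e) : HasWagner G :=
  run_sound hG (noF_fin hG hmin) hmin pats_ok (ω := fun i => [a, b, d, e].getD i a)
    wagX_sound certK4 (by decide)
    ⟨ta, fun _ => ra, tb, fun _ => rb, by decide, by decide, ab, td, fun _ => rd, by decide, by decide,
      ad, by decide, by decide, bd, te, fun _ => re, by decide, by decide, ae, by decide, by decide, be,
      by decide, by decide, de, by decide, by decide, c1, by decide, by decide, c2, by decide, by decide,
      c3, by decide, by decide, c4, by decide, by decide, c5, by decide, by decide, c6, trivial⟩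

variable {a u v b p q k s w t a' u' v' b' p' q' k' s' w' t' : V}

theorem s44 (hG : G.IsRegularOfDegree 3) (hmin : ∀ c', Phi G c ≤ Phi G c')
    (P : Pent G c a u v b p q k s w t) (Q : Pent G c a' u' v' b' p' q' k' s' w' t')
    (h : G.Adj s p') (hn : p ≠ p') : False :=
  run_sound hG (noF_fin hG hmin) hmin pats_ok
    (ω := fun i => [a, u, v, b, p, q, k, s, w, t, a', u', v', b', p', q', k', s', w', t'].getD i a)
    (Goal := False) (fun _ _ _ h => absurd h (by decide)) certS44
    (fun i hi => absurd hi (Nat.not_lt_zero i))
    ⟨(congrArg (bit 4) P.tu).trans rfl, fun _ => P.ru,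
      (congrArg (bit 4) P.tv).trans rfl, fun _ => P.rv,
      by decide, by decide, P.uv, (congrArg (bit 2) P.ta).trans rfl,
      fun _ => P.ra, by decide, by decide, P.au,
      (congrArg (bit 2) P.tb).trans rfl, fun _ => P.rb,
      by decide, by decide, P.bv, (congrArg (bit 32) P.tp).trans rfl,
      fun h => absurd h (by decide), by decide, by decide, P.pu,
      (congrArg (bit 32) P.tq).trans rfl, fun h => absurd h (by decide),
      by decide, by decide, P.pq, by decide, by decide, P.qv,
      (congrArg (bit 64) P.tk).trans rfl, fun h => absurd h (by decide),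
      by decide, by decide, P.kp, by decide, by decide, P.kq,
      (congrArg (bit 1) P.ts).trans rfl, fun h => absurd h (by decide),
      by decide, by decide, P.sp, (congrArg (bit 1) P.tw).trans rfl,
      fun h => absurd h (by decide), by decide, by decide, P.sw,
      by decide, by decide, P.wq, (congrArg (bit 1) P.tt).trans rfl,
      fun h => absurd h (by decide), by decide, by decide, P.st,
      by decide, by decide, P.wt, by decide, by decide, P.tk',
      (congrArg (bit 4) Q.tu).trans rfl, fun _ => Q.ru,
      (congrArg (bit 4) Q.tv).trans rfl, fun _ => Q.rv,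
      by decide, by decide, Q.uv, (congrArg (bit 2) Q.ta).trans rfl,
      fun _ => Q.ra, by decide, by decide, Q.au,
      (congrArg (bit 2) Q.tb).trans rfl, fun _ => Q.rb,
      by decide, by decide, Q.bv, (congrArg (bit 32) Q.tp).trans rfl,
      fun h => absurd h (by decide), by decide, by decide, Q.pu,
      (congrArg (bit 32) Q.tq).trans rfl, fun h => absurd h (by decide),
      by decide, by decide, Q.pq, by decide, by decide, Q.qv,
      (congrArg (bit 64) Q.tk).trans rfl, fun h => absurd h (by decide),
      by decide, by decide, Q.kp, by decide, by decide, Q.kq,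
      (congrArg (bit 1) Q.ts).trans rfl, fun h => absurd h (by decide),
      by decide, by decide, Q.sp, (congrArg (bit 1) Q.tw).trans rfl,
      fun h => absurd h (by decide), by decide, by decide, Q.sw,
      by decide, by decide, Q.wq, (congrArg (bit 1) Q.tt).trans rfl,
      fun h => absurd h (by decide), by decide, by decide, Q.st,
      by decide, by decide, Q.wt, by decide, by decide, Q.tk',
      by decide, by decide, h, by decide, by decide, hn, trivial⟩

theorem s46 (hG : G.IsRegularOfDegree 3) (hmin : ∀ c', Phi G c ≤ Phi G c')
    (P : Pent G c a u v b p q k s w t) (Q : Pent G c a' u' v' b' p' q' k' s' w' t')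
    (h : G.Adj s k') (hn : p ≠ k') : False :=
  run_sound hG (noF_fin hG hmin) hmin pats_ok
    (ω := fun i => [a, u, v, b, p, q, k, s, w, t, a', u', v', b', p', q', k', s', w', t'].getD i a)
    (Goal := False) (fun _ _ _ h => absurd h (by decide)) certS46
    (fun i hi => absurd hi (Nat.not_lt_zero i))
    ⟨(congrArg (bit 4) P.tu).trans rfl, fun _ => P.ru,
      (congrArg (bit 4) P.tv).trans rfl, fun _ => P.rv,
      by decide, by decide, P.uv, (congrArg (bit 2) P.ta).trans rfl,
      fun _ => P.ra, by decide, by decide, P.au,
      (congrArg (bit 2) P.tb).trans rfl, fun _ => P.rb,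
      by decide, by decide, P.bv, (congrArg (bit 32) P.tp).trans rfl,
      fun h => absurd h (by decide), by decide, by decide, P.pu,
      (congrArg (bit 32) P.tq).trans rfl, fun h => absurd h (by decide),
      by decide, by decide, P.pq, by decide, by decide, P.qv,
      (congrArg (bit 64) P.tk).trans rfl, fun h => absurd h (by decide),
      by decide, by decide, P.kp, by decide, by decide, P.kq,
      (congrArg (bit 1) P.ts).trans rfl, fun h => absurd h (by decide),
      by decide, by decide, P.sp, (congrArg (bit 1) P.tw).trans rfl,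
      fun h => absurd h (by decide), by decide, by decide, P.sw,
      by decide, by decide, P.wq, (congrArg (bit 1) P.tt).trans rfl,
      fun h => absurd h (by decide), by decide, by decide, P.st,
      by decide, by decide, P.wt, by decide, by decide, P.tk',
      (congrArg (bit 4) Q.tu).trans rfl, fun _ => Q.ru,
      (congrArg (bit 4) Q.tv).trans rfl, fun _ => Q.rv,
      by decide, by decide, Q.uv, (congrArg (bit 2) Q.ta).trans rfl,
      fun _ => Q.ra, by decide, by decide, Q.au,
      (congrArg (bit 2) Q.tb).trans rfl, fun _ => Q.rb,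
      by decide, by decide, Q.bv, (congrArg (bit 32) Q.tp).trans rfl,
      fun h => absurd h (by decide), by decide, by decide, Q.pu,
      (congrArg (bit 32) Q.tq).trans rfl, fun h => absurd h (by decide),
      by decide, by decide, Q.pq, by decide, by decide, Q.qv,
      (congrArg (bit 64) Q.tk).trans rfl, fun h => absurd h (by decide),
      by decide, by decide, Q.kp, by decide, by decide, Q.kq,
      (congrArg (bit 1) Q.ts).trans rfl, fun h => absurd h (by decide),
      by decide, by decide, Q.sp, (congrArg (bit 1) Q.tw).trans rfl,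
      fun h => absurd h (by decide), by decide, by decide, Q.sw,
      by decide, by decide, Q.wq, (congrArg (bit 1) Q.tt).trans rfl,
      fun h => absurd h (by decide), by decide, by decide, Q.st,
      by decide, by decide, Q.wt, by decide, by decide, Q.tk',
      by decide, by decide, h, by decide, by decide, hn, trivial⟩

theorem s66 (hG : G.IsRegularOfDegree 3) (hmin : ∀ c', Phi G c ≤ Phi G c')
    (P : Pent G c a u v b p q k s w t) (Q : Pent G c a' u' v' b' p' q' k' s' w' t')
    (h : G.Adj t k') (hn : k ≠ k') : False :=
  run_sound hG (noF_fin hG hmin) hmin pats_ok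
    (ω := fun i => [a, u, v, b, p, q, k, s, w, t, a', u', v', b', p', q', k', s', w', t'].getD i a)
    (Goal := False) (fun _ _ _ h => absurd h (by decide)) certS66
    (fun i hi => absurd hi (Nat.not_lt_zero i))
    ⟨(congrArg (bit 4) P.tu).trans rfl, fun _ => P.ru,
      (congrArg (bit 4) P.tv).trans rfl, fun _ => P.rv,
      by decide, by decide, P.uv, (congrArg (bit 2) P.ta).trans rfl,
      fun _ => P.ra, by decide, by decide, P.au,
      (congrArg (bit 2) P.tb).trans rfl, fun _ => P.rb,
      by decide, by decide, P.bv, (congrArg (bit 32) P.tp).trans rfl,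
      fun h => absurd h (by decide), by decide, by decide, P.pu,
      (congrArg (bit 32) P.tq).trans rfl, fun h => absurd h (by decide),
      by decide, by decide, P.pq, by decide, by decide, P.qv,
      (congrArg (bit 64) P.tk).trans rfl, fun h => absurd h (by decide),
      by decide, by decide, P.kp, by decide, by decide, P.kq,
      (congrArg (bit 1) P.ts).trans rfl, fun h => absurd h (by decide),
      by decide, by decide, P.sp, (congrArg (bit 1) P.tw).trans rfl,
      fun h => absurd h (by decide), by decide, by decide, P.sw,
      by decide, by decide, P.wq, (congrArg (bit 1) P.tt).trans rfl,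
      fun h => absurd h (by decide), by decide, by decide, P.st,
      by decide, by decide, P.wt, by decide, by decide, P.tk',
      (congrArg (bit 4) Q.tu).trans rfl, fun _ => Q.ru,
      (congrArg (bit 4) Q.tv).trans rfl, fun _ => Q.rv,
      by decide, by decide, Q.uv, (congrArg (bit 2) Q.ta).trans rfl,
      fun _ => Q.ra, by decide, by decide, Q.au,
      (congrArg (bit 2) Q.tb).trans rfl, fun _ => Q.rb,
      by decide, by decide, Q.bv, (congrArg (bit 32) Q.tp).trans rfl,
      fun h => absurd h (by decide), by decide, by decide, Q.pu,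
      (congrArg (bit 32) Q.tq).trans rfl, fun h => absurd h (by decide),
      by decide, by decide, Q.pq, by decide, by decide, Q.qv,
      (congrArg (bit 64) Q.tk).trans rfl, fun h => absurd h (by decide),
      by decide, by decide, Q.kp, by decide, by decide, Q.kq,
      (congrArg (bit 1) Q.ts).trans rfl, fun h => absurd h (by decide),
      by decide, by decide, Q.sp, (congrArg (bit 1) Q.tw).trans rfl,
      fun h => absurd h (by decide), by decide, by decide, Q.sw,
      by decide, by decide, Q.wq, (congrArg (bit 1) Q.tt).trans rfl,
      fun h => absurd h (by decide), by decide, by decide, Q.st,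
      by decide, by decide, Q.wt, by decide, by decide, Q.tk',
      by decide, by decide, h, by decide, by decide, hn, trivial⟩

end Pool.Agent.MP_82b037_lc.H62
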