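import Pool.Agent.MP_82b037_lc.H62.Cover

set_option autoImplicit false
set_option linter.unusedSectionVars false

namespace Pool.Agent.MP_82b037_lc.H62

open Finset

def St.frc {α : Type} (s : St) (k : St → α) : α :=
  force s.n fun a => force s.ty fun b => force s.ad fun c => force s.nr fun d => k ⟨a, b, c, d⟩

theorem St.frc_eq {α : Type} (s : St) (k : St → α) : s.frc k = k s := by
  unfold St.frc; simp only [force_eq]

def tot (s : St) (v b : ℕ) : ℕ :=
  bif Nat.beq b (Nat.div (s.t v) 4) then Nat.mod (s.t v) 4 else Nat.sub 3 (Nat.mod (s.t v) 4)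

def okV (s : St) (v : ℕ) : Bool := Nat.ble (cnt s v 0) (tot s v 0) && Nat.ble (cnt s v 1) (tot s v 1)

def okE (F : ℕ) (s : St) (u v : ℕ) : Bool := Nat.beq (fb F (s.t u) (s.t v)) 0 && (okV s u && okV s v)

def tryLink (F : ℕ) (s : St) (u v : ℕ) : List St :=
  (s.link u v).frc fun s' => bif okE F s' u v then [s'] else []

def tryApp (F : ℕ) (s : St) (v o : ℕ) : List St :=
  bif Nat.ble 64 o then (s.addV (Nat.sub o 64)).frc fun s' => tryLink F s' v s.n else tryLink F s v o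

def cands (s : St) (v b : ℕ) : List ℕ :=
  ((List.range s.n).filter fun u => Nat.beq (Nat.div (s.t u) 4) b && (!(Nat.beq u v) &&
    (Nat.ble (s.a u) 4095 && !(mem3 (s.a v) u)))) ++ [64 + 4 * b, 65 + 4 * b, 66 + 4 * b, 67 + 4 * b]

def kids (F : ℕ) (s : St) (a : ℕ) : List St :=
  force (a / 4) fun v => force (a / 2 % 2) fun b =>
  bif Nat.beq (a % 2) 0 then (cands s v b).flatMap (tryApp F s v) else
    (cands s v b).flatMap fun o => (tryApp F s v o).flatMap fun s' =>
      ((cands s v b).filter fun p => Nat.ble (Nat.succ o) p || (Nat.beq o p && Nat.ble 64 o)).flatMap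
        (tryApp F s' v)

def pre (s : St) (a : ℕ) : Bool :=
  Nat.ble (a / 4 + 1) s.n && Nat.ble s.n 60 &&
    Nat.ble (cnt s (a / 4) (a / 2 % 2) + 1 + a % 2) (tot s (a / 4) (a / 2 % 2))

def embOK (s : St) (x : ℕ × ℕ × ℕ) (m : ℕ) : Bool :=
  allTo x.2.1 (fun i => Nat.ble (Nat.succ (gd 64 m i)) s.n &&
    allTo i fun j => !(Nat.beq (gd 64 m j) (gd 64 m i))) &&
  (allTo x.1 (fun i => all3 (pa x.2.2 i) fun j => mem3 (s.a (gd 64 m i)) (gd 64 m j)) &&
  !(allTo x.1 fun i => Nat.beq (bit s.nr (gd 64 m i)) 0))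

def leaf (H : ℕ) (pats : List (ℕ × ℕ × ℕ)) (X : St → ℕ → Bool) (s : St) (k : ℕ) : Bool :=
  force (Nat.div k 4) fun p =>
  bif Nat.beq (Nat.mod k 4) 0 then flipOK H s p else
  bif Nat.beq (Nat.mod k 4) 1 then
    force (Nat.div p 4096) fun m => embOK s (pats.getD (Nat.mod p 4096) (0, 0, 0)) m else X s p

inductive Ct
  | done
  | lf (k : ℕ) (rest : Ct)
  | nd (a : ℕ) (ch rest : Ct)

noncomputable def chk (F H : ℕ) (pats : List (ℕ × ℕ × ℕ)) (X : St → ℕ → Bool) (T : Ct) :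
    List St → Bool :=
  Ct.rec (motive := fun _ => List St → Bool) (fun os => os.isEmpty)
    (fun k _ ih os => List.casesOn os false fun s os => leaf H pats X s k && ih os)
    (fun a _ _ ih1 ih2 os => List.casesOn os false fun s os =>
      force a fun a => pre s a && (ih1 (kids F s a) && ih2 os)) T

def dcd : List ℕ → List Ct → Ct
  | [], st => st.headD Ct.done
  | t :: ts, st => force (Nat.div t 3) fun k =>
    bif Nat.beq (Nat.mod t 3) 0 then dcd ts (Ct.done :: st) else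
    bif Nat.beq (Nat.mod t 3) 1 then
      List.casesOn st Ct.done fun x st => dcd ts (Ct.lf k x :: st) else
      List.casesOn st Ct.done fun x st => List.casesOn st Ct.done fun y st => dcd ts (Ct.nd k x y :: st)

def ens (F : ℕ) (s : St) (u v : ℕ) : List St :=
  bif Nat.beq u v then [] else bif mem3 (s.a u) v then [s] else
  bif Nat.ble 4096 (s.a u) || Nat.ble 4096 (s.a v) then [] else tryLink F s u v

def mk (s : St) (u r : ℕ) : St := bif Nat.beq r 1 then s.mark u else s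

inductive Cmd
  | intro (a m r : ℕ)
  | edge (a b : ℕ)
  | neq (a b : ℕ)
  | conn (a b : ℕ)

def upd (l : ℕ → ℕ) (a u : ℕ) : ℕ → ℕ := fun x => bif Nat.beq x a then u else l x

def step (F : ℕ) (s : St) (l : ℕ → ℕ) : Cmd → List (St × (ℕ → ℕ))
  | .intro a m r =>
    (((List.range s.n).filter fun u => Nat.beq (bit m (s.t u)) 1).map fun u => (mk s u r, upd l a u)) ++
    ((List.range 8).filter fun t => Nat.beq (bit m t) 1).map fun t => (mk (s.addV t) s.n r, upd l a s.n)
  | .edge a b => (ens F s (l a) (l b)).map fun s' => (s', l)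
  | .neq a b => bif Nat.beq (l a) (l b) then [] else [(s, l)]
  | .conn a b => (ens F s (l a) (l b) ++
      ((((List.range s.n).filter fun u => Nat.ble 4 (s.t u)).flatMap fun u =>
        (ens F s (l a) u).flatMap fun s' => ens F s' (l b) u) ++
      [4, 5, 6, 7].flatMap fun t => (ens F (s.addV t) (l a) s.n).flatMap fun s' =>
        ens F s' (l b) s.n)).map fun s' => (s', l)

def build (F : ℕ) : List Cmd → St × (ℕ → ℕ) → List (St × (ℕ → ℕ))
  | [], x => [x]
  | c :: cs, x => x.1.frc fun s => (step F s x.2 c).flatMap (build F cs)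

noncomputable def run (F H : ℕ) (pats : List (ℕ × ℕ × ℕ)) (X : St → ℕ → Bool) (r : ℕ)
    (sc : List Cmd) (ts : List ℕ) : Bool :=
  HOK F H && Nat.ble sc.length 60 &&
  ((build F sc (⟨0, 0, 0, 0⟩, fun _ => 0)).all fun x => Nat.ble r x.1.n && allTo r fun i => Nat.beq (x.2 i) i) &&
  chk F H pats X (dcd ts [Ct.done]) ((build F sc (⟨0, 0, 0, 0⟩, fun _ => 0)).map Prod.fst)

section graph

variable {V : Type} [Fintype V] [DecidableEq V] {G : SimpleGraph V} [DecidableRel G.Adj]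
variable {c : V → Bool} {ι : ℕ → V} {s : St} {F : ℕ}

theorem Real.tot_eq (hG : G.IsRegularOfDegree 3) (h : Real G c ι s) {v : ℕ} (hv : v < s.n) {b : ℕ}
    (hb : b < 2) : tot s v b = ((G.neighborFinset (ι v)).filter fun w => cn c w = b).card := by
  have h3 : Nat.mod (s.t v) 4 = dg G c (ι v) := by rw [h.ty v hv]; exact tc_mod hG c _
  have h4 : Nat.div (s.t v) 4 = cn c (ι v) := by rw [h.ty v hv]; exact tc_div hG c _
  have e : dg G c (ι v) = ((G.neighborFinset (ι v)).filter fun w => cn c w = cn c (ι v)).card := by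
    unfold dg; simp only [cn_eq_iff]
  unfold tot
  rw [h3, h4]
  by_cases hc : b = cn c (ι v)
  · rw [beq_iff.2 hc, cond_true, e, hc]
  · rw [beq_false hc, cond_false]
    have h1 := card_filter_add_card_filter_not (s := G.neighborFinset (ι v))
      (fun w => cn c w = cn c (ι v))
    rw [G.card_neighborFinset_eq_degree, hG, ← e] at h1
    have : ((G.neighborFinset (ι v)).filter fun w => ¬ cn c w = cn c (ι v)) =
        ((G.neighborFinset (ι v)).filter fun w => cn c w = b) := by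
      refine filter_congr fun w _ => ?_
      have := cn_lt c w; have := cn_lt c (ι v); omega
    rw [this] at h1
    show 3 - _ = _
    omega

theorem Real.okV (hG : G.IsRegularOfDegree 3) (h : Real G c ι s) {v : ℕ} (hv : v < s.n) :
    okV s v = true := by
  unfold H62.okV
  rw [Bool.and_eq_true, ble_iff, ble_iff, h.cnt_eq hG hv, h.cnt_eq hG hv,
    h.tot_eq hG hv (by decide), h.tot_eq hG hv (by decide)]
  exact ⟨card_le_card (filter_subset_filter _ (h.sub hv)),
    card_le_card (filter_subset_filter _ (h.sub hv))⟩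

theorem Real.tryLink (hG : G.IsRegularOfDegree 3) (hF : NoF G F c) (h : Real G c ι s) (hn : s.n < 63)
    {u v : ℕ} (hu : u < s.n) (hv : v < s.n) (ha : G.Adj (ι u) (ι v)) (hnb : v ∉ s.nb u) :
    tryLink F s u v = [s.link u v] := by
  have h' := (h.link hG hn hu hv ha hnb).1
  unfold H62.tryLink
  rw [St.frc_eq, okE, h'.okV hG hu, h'.okV hG hv, h'.ty u hu, h'.ty v hv, hF _ _ ha]
  rfl

def Code (G : SimpleGraph V) [DecidableRel G.Adj] (c : V → Bool) (ι : ℕ → V) (s : St) (w : V) (o : ℕ) :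
    Prop := (o < s.n ∧ ι o = w) ∨ (o = 64 + tc G c w ∧ ∀ i < s.n, ι i ≠ w)

theorem code_ex (w : V) : ∃ o, Code G c ι s w o := by
  by_cases h : ∃ i < s.n, ι i = w
  · obtain ⟨i, h⟩ := h; exact ⟨i, Or.inl h⟩
  · exact ⟨_, Or.inr ⟨rfl, fun i hi e => h ⟨i, hi, e⟩⟩⟩

theorem Real.tryApp (hG : G.IsRegularOfDegree 3) (hF : NoF G F c) (h : Real G c ι s) (hn : s.n < 62)
    {v o : ℕ} (hv : v < s.n) {w : V} (ha : G.Adj (ι v) w) (hnb : ∀ j ∈ s.nb v, ι j ≠ w)
    (hc : Code G c ι s w o) :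
    ∃ ι' s', tryApp F s v o = [s'] ∧ Real G c ι' s' ∧ (∀ i < s.n, ι' i = ι i) ∧ s.n ≤ s'.n ∧
      s'.n ≤ s.n + 1 ∧ (∀ i < s'.n, i < s.n ∨ ι' i = w) ∧ ∀ j ∈ s'.nb v, j ∈ s.nb v ∨ ι' j = w := by
  rcases hc with ⟨h1, rfl⟩ | ⟨rfl, h2⟩
  · have hnb' : o ∉ s.nb v := fun e => hnb o e rfl
    obtain ⟨r0, r1, r2⟩ := h.link hG (by omega) hv h1 ha hnb'
    refine ⟨ι, s.link v o, ?_, r0, fun _ _ => rfl, le_rfl, Nat.le_succ _, fun i hi => Or.inl hi, ?_⟩
    · unfold H62.tryApp
      rw [ble_false (by omega), cond_false, h.tryLink hG hF (by omega) hv h1 ha hnb']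
    · intro j hj
      rw [s.link_nb (fun e : v = o => ha.ne (e ▸ rfl)) r1 r2 (by omega) (by omega), if_pos rfl] at hj
      rcases List.mem_cons.1 hj with rfl | hj
      · exact Or.inr rfl
      · exact Or.inl hj
  · have h1 := h.addV hG h2
    have up : ∀ i < s.n, Function.update ι s.n w i = ι i := fun i hi =>
      Function.update_of_ne hi.ne _ _
    have hv' : v < (s.addV (tc G c w)).n := Nat.lt_succ_of_lt hv
    have hn' : s.n < (s.addV (tc G c w)).n := Nat.lt_succ_self _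
    have hn2 : (s.addV (tc G c w)).n < 63 := by show s.n + 1 < 63; omega
    have ha' : G.Adj (Function.update ι s.n w v) (Function.update ι s.n w s.n) := by
      rw [up v hv, Function.update_self]; exact ha
    have hnb' : s.n ∉ (s.addV (tc G c w)).nb v := fun e => absurd (h.adj v hv _ e).1 (lt_irrefl _)
    obtain ⟨r0, r1, r2⟩ := h1.link hG hn2 hv' hn' ha' hnb'
    refine ⟨_, _, ?_, r0, up, Nat.le_succ _, le_rfl, ?_, ?_⟩
    · unfold H62.tryApp
      rw [ble_true (by omega), cond_true, St.frc_eq,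
        show Nat.sub (64 + tc G c w) 64 = tc G c w from Nat.add_sub_cancel_left ..,
        h1.tryLink hG hF hn2 hv' hn' ha' hnb']
    · intro i hi
      rcases Nat.lt_succ_iff_lt_or_eq.1 hi with hi | rfl
      · exact Or.inl hi
      · exact Or.inr (Function.update_self ..)
    · intro j hj
      rw [St.link_nb _ hv.ne r1 r2 (by omega) (by omega), if_pos rfl] at hj
      rcases List.mem_cons.1 hj with rfl | hj
      · exact Or.inr (Function.update_self ..)
      · exact Or.inl hj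

theorem Real.mem_cands (hG : G.IsRegularOfDegree 3) (h : Real G c ι s) {v o : ℕ} (hv : v < s.n)
    {w : V} (ha : G.Adj (ι v) w) (hnb : ∀ j ∈ s.nb v, ι j ≠ w) (hc : Code G c ι s w o) :
    o ∈ cands s v (cn c w) := by
  unfold cands
  rcases hc with ⟨h1, rfl⟩ | ⟨rfl, _⟩
  · refine List.mem_append_left _ (List.mem_filter.2 ⟨List.mem_range.2 h1, ?_⟩)
    have e1 : Nat.div (s.t o) 4 = cn c (ι o) := by rw [h.ty o h1]; exact tc_div hG c _
    have e2 : o ≠ v := fun e => ha.ne (e ▸ rfl)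
    have hnb' : o ∉ s.nb v := fun e => hnb o e rfl
    have e3 : s.a o < 4096 := h.room hG h1 ha.symm fun j hj e =>
      hnb' (h.adj o h1 v (h.inj j (h.adj o h1 j hj).1 v hv e ▸ hj)).2.2
    have e4 : mem3 (s.a v) o = false := by
      rw [← Bool.not_eq_true, mem3_iff]; exact hnb'
    rw [e1, Nat.beq_refl, beq_false e2, ble_true (by omega), e4]; rfl
  · refine List.mem_append_right _ ?_
    have := dg_le hG c w
    unfold tc
    simp only [List.mem_cons, List.not_mem_nil, or_false]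
    omega

variable (G c) in
def RS (r : ℕ) (ρ : ℕ → V) (s : St) : Prop := ∃ ι, Real G c ι s ∧ r ≤ s.n ∧ ∀ i < r, ι i = ρ i

theorem kids_sound (hG : G.IsRegularOfDegree 3) (hF : NoF G F c) {r : ℕ} {ρ : ℕ → V} {a : ℕ}
    (hs : RS G c r ρ s) (hp : pre s a = true) : ∃ s' ∈ kids F s a, RS G c r ρ s' := by
  obtain ⟨ι, h, hr, hρ⟩ := hs
  unfold pre at hp
  rw [Bool.and_eq_true, Bool.and_eq_true, ble_iff, ble_iff, ble_iff] at hp
  obtain ⟨⟨hv, hn⟩, hp⟩ := hp
  unfold kids
  rw [force_eq, force_eq]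
  have hb : a / 2 % 2 < 2 := Nat.mod_lt _ (by decide)
  generalize a / 4 = v at *
  generalize a / 2 % 2 = b at *
  have hv : v < s.n := hv
  rw [h.cnt_eq hG hv, h.tot_eq hG hv hb] at hp
  have hsub : ((img ι s v).filter fun w => cn c w = b) ⊆
      ((G.neighborFinset (ι v)).filter fun w => cn c w = b) := filter_subset_filter _ (h.sub hv)
  have hcard := card_sdiff_add_card_eq_card hsub
  have hmem : ∀ w ∈ ((G.neighborFinset (ι v)).filter fun w => cn c w = b) \
      ((img ι s v).filter fun w => cn c w = b),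
      G.Adj (ι v) w ∧ cn c w = b ∧ ∀ j ∈ s.nb v, ι j ≠ w := by
    intro w hw
    simp only [mem_sdiff, mem_filter, SimpleGraph.mem_neighborFinset, mem_img] at hw
    exact ⟨hw.1.1, hw.1.2, fun j hj e => hw.2 ⟨⟨j, hj, e⟩, hw.1.2⟩⟩
  by_cases e : a % 2 = 0
  · rw [beq_iff.2 e, cond_true]
    obtain ⟨w, hw⟩ := card_pos.1 (show 0 < (((G.neighborFinset (ι v)).filter fun w => cn c w = b) \
      ((img ι s v).filter fun w => cn c w = b)).card by omega)
    obtain ⟨a1, a2, a3⟩ := hmem w hw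
    obtain ⟨o, ho⟩ := code_ex (G := G) (c := c) (ι := ι) (s := s) w
    obtain ⟨ι', s', e1, e2, e3, e4, _⟩ := h.tryApp hG hF (by omega) hv a1 a3 ho
    refine ⟨s', List.mem_flatMap.2 ⟨o, a2 ▸ h.mem_cands hG hv a1 a3 ho, ?_⟩, ι', e2, by omega,
      fun i hi => by rw [e3 i (by omega), hρ i hi]⟩
    rw [e1]; exact List.mem_singleton_self _
  · rw [beq_false e, cond_false]
    have two : ∃ w1 w2 o1 o2, w1 ≠ w2 ∧ o1 ≤ o2 ∧ Code G c ι s w1 o1 ∧ Code G c ι s w2 o2 ∧
        (G.Adj (ι v) w1 ∧ cn c w1 = b ∧ ∀ j ∈ s.nb v, ι j ≠ w1) ∧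
        (G.Adj (ι v) w2 ∧ cn c w2 = b ∧ ∀ j ∈ s.nb v, ι j ≠ w2) := by
      obtain ⟨w1, h1, w2, h2, hne⟩ := one_lt_card.1
        (show 1 < (((G.neighborFinset (ι v)).filter fun w => cn c w = b) \
          ((img ι s v).filter fun w => cn c w = b)).card by omega)
      obtain ⟨o1, c1⟩ := code_ex (G := G) (c := c) (ι := ι) (s := s) w1
      obtain ⟨o2, c2⟩ := code_ex (G := G) (c := c) (ι := ι) (s := s) w2
      rcases le_total o1 o2 with hl | hl
      · exact ⟨w1, w2, o1, o2, hne, hl, c1, c2, hmem _ h1, hmem _ h2⟩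
      · exact ⟨w2, w1, o2, o1, hne.symm, hl, c2, c1, hmem _ h2, hmem _ h1⟩
    obtain ⟨w1, w2, o1, o2, hne, hl, c1, c2, ⟨a1, a2, a3⟩, ⟨b1, b2, b3⟩⟩ := two
    obtain ⟨ι', s', e1, e2, e3, e4, e5, e6, e7⟩ := h.tryApp hG hF (by omega) hv a1 a3 c1
    have c2' : Code G c ι' s' w2 o2 := by
      rcases c2 with ⟨d1, d2⟩ | ⟨d1, d2⟩
      · exact Or.inl ⟨by omega, by rw [e3 _ d1, d2]⟩
      · refine Or.inr ⟨d1, fun i hi e => ?_⟩
        rcases e6 i hi with hi | hi
        · exact d2 i hi (e3 i hi ▸ e)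
        · exact hne (hi ▸ e)
    obtain ⟨ι'', s'', f1, f2, f3, f4, _⟩ := e2.tryApp hG hF (by omega) (show v < s'.n by omega)
      (w := w2) (by rw [e3 v hv]; exact b1) (fun j hj e => by
        rcases e7 j hj with hj | hj
        · exact b3 j hj (e3 j (h.adj v hv j hj).1 ▸ e)
        · exact hne (hj ▸ e)) c2'
    refine ⟨s'', List.mem_flatMap.2 ⟨o1, a2 ▸ h.mem_cands hG hv a1 a3 c1, ?_⟩, ι'', f2, by omega,
      fun i hi => by rw [f3 i (by omega), e3 i (by omega), hρ i hi]⟩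
    rw [e1]
    refine List.mem_flatMap.2 ⟨s', List.mem_singleton_self _, List.mem_flatMap.2 ⟨o2,
      List.mem_filter.2 ⟨b2 ▸ h.mem_cands hG hv b1 b3 c2, ?_⟩, by rw [f1]; exact List.mem_singleton_self _⟩⟩
    rcases Nat.lt_or_eq_of_le hl with hl | rfl
    · rw [ble_true hl]; rfl
    · have : 64 ≤ o1 := by
        rcases c1 with ⟨d1, d2⟩ | ⟨d1, _⟩
        · rcases c2 with ⟨_, d4⟩ | ⟨d3, _⟩
          · exact absurd (d2.symm.trans d4) hne
          · omega
        · omega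
      rw [Nat.beq_refl, ble_true this]; simp

theorem emb_sound (hG : G.IsRegularOfDegree 3) (h : Real G c ι s) {x : ℕ × ℕ × ℕ} {m : ℕ}
    (hx : PWF x.1 x.2.1 x.2.2 ∧ RedOK x.1 x.2.1 x.2.2) (he : embOK s x m = true) : False := by
  unfold embOK at he
  rw [Bool.and_eq_true, Bool.and_eq_true, allTo_iff, allTo_iff, Bool.not_eq_true',
    ← Bool.not_eq_true, allTo_iff] at he
  obtain ⟨h1, h2, h3⟩ := he
  simp only [Bool.and_eq_true, ble_iff, allTo_iff, Bool.not_eq_true', all3_iff, mem3_iff] at h1 h2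
  have lt := hx.1.lt
  have inj : ∀ i < x.2.1, ∀ j < x.2.1, ι (gd 64 m i) = ι (gd 64 m j) → i = j := by
    intro i hi j hj e
    have e' := h.inj _ (h1 i hi).1 _ (h1 j hj).1 e
    rcases lt_trichotomy i j with hc | hc | hc
    · have := (h1 j hj).2 i hc; rw [e', Nat.beq_refl] at this; exact absurd this (by decide)
    · exact hc
    · have := (h1 i hi).2 j hc; rw [e', Nat.beq_refl] at this; exact absurd this (by decide)
  have hr := red_of_emb hG hx.1 hx.2 (fun i => ι (gd 64 m i)) inj fun i hi j hj =>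
    (h.adj _ (h1 i (by omega)).1 _ (h2 i hi j hj)).2.1
  refine h3 fun i hi => beq_iff.2 ?_
  by_contra hb
  have := bit_lt s.nr (gd 64 m i)
  exact h.nr _ (h1 i (by omega)).1 (by omega) ⟨_, by exact ⟨i, hi, rfl⟩, hr⟩

theorem chk_sound (hG : G.IsRegularOfDegree 3) (hF : NoF G F c) {H : ℕ} (hH : HOK F H = true)
    (hmin : ∀ c', Phi G c ≤ Phi G c') {pats : List (ℕ × ℕ × ℕ)}
    (hp : ∀ x ∈ pats, PWF x.1 x.2.1 x.2.2 ∧ RedOK x.1 x.2.1 x.2.2) {X : St → ℕ → Bool} {r : ℕ}
    {ρ : ℕ → V} {Goal : Prop} (hX : ∀ s p, RS G c r ρ s → X s p = true → Goal) (T : Ct) :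
    ∀ os, chk F H pats X T os = true → (∃ s ∈ os, RS G c r ρ s) → Goal := by
  induction T with
  | done =>
    rintro os h ⟨s, hs, _⟩
    have h' : os.isEmpty = true := h
    rw [List.isEmpty_iff] at h'; subst h'; simp at hs
  | lf k rest ih =>
    rintro (_ | ⟨s0, os⟩) h ⟨s, hs, hr⟩
    · simp at hs
    · have h' : (leaf H pats X s0 k && chk F H pats X rest os) = true := h
      rw [Bool.and_eq_true] at h'
      rcases List.mem_cons.1 hs with rfl | hs
      · have h1 := h'.1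
        rw [leaf, force_eq] at h1
        obtain ⟨ι, hι, hr'⟩ := hr
        cases e0 : Nat.beq (Nat.mod k 4) 0
        · rw [e0, cond_false] at h1
          cases e1 : Nat.beq (Nat.mod k 4) 1
          · rw [e1, cond_false] at h1
            exact hX _ _ ⟨ι, hι, hr'⟩ h1
          · rw [e1, cond_true, force_eq] at h1
            by_cases hl : Nat.mod (Nat.div k 4) 4096 < pats.length
            · rw [List.getD_eq_getElem _ _ hl] at h1
              exact (emb_sound hG hι (hp _ (List.getElem_mem hl)) h1).elim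
            · rw [List.getD_eq_default _ _ (by omega)] at h1
              exact absurd h1 (by simp [embOK, allTo])
        · rw [e0, cond_true] at h1
          obtain ⟨c', hc⟩ := flip_sound hG hι hF hH h1
          exact absurd (hmin c') (by omega)
      · exact ih os h'.2 ⟨s, hs, hr⟩
  | nd a ch rest ih1 ih2 =>
    rintro (_ | ⟨s0, os⟩) h ⟨s, hs, hr⟩
    · simp at hs
    · have h' : force a (fun a => pre s0 a && (chk F H pats X ch (kids F s0 a) &&
          chk F H pats X rest os)) = true := h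
      rw [force_eq, Bool.and_eq_true, Bool.and_eq_true] at h'
      rcases List.mem_cons.1 hs with rfl | hs
      · exact ih1 _ h'.2.1 (kids_sound hG hF hr h'.1)
      · exact ih2 os h'.2.2 ⟨s, hs, hr⟩

theorem Real.ens (hG : G.IsRegularOfDegree 3) (hF : NoF G F c) (h : Real G c ι s) (hn : s.n < 63)
    {u v : ℕ} (hu : u < s.n) (hv : v < s.n) (ha : G.Adj (ι u) (ι v)) :
    ∃ s' ∈ ens F s u v, Real G c ι s' ∧ s'.n = s.n := by
  unfold H62.ens
  rw [beq_false (fun e : u = v => ha.ne (e ▸ rfl)), cond_false]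
  cases e : mem3 (s.a u) v
  · have hnb : v ∉ s.nb u := by rw [← Bool.not_eq_true, mem3_iff] at e; exact e
    obtain ⟨r0, r1, r2⟩ := h.link hG hn hu hv ha hnb
    rw [cond_false, ble_false r1, ble_false r2, Bool.or_self, cond_false,
      h.tryLink hG hF hn hu hv ha hnb]
    exact ⟨_, List.mem_singleton_self _, r0, rfl⟩
  · exact ⟨s, List.mem_singleton_self _, h, rfl⟩

variable (G c) in
def Sem (ω : ℕ → V) : List ℕ → List Cmd → Prop
  | _, [] => True
  | dn, .intro a m r :: cs => bit m (tc G c (ω a)) = 1 ∧ (r = 1 → ¬ InR G (ω a)) ∧ Sem ω (a :: dn) cs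
  | dn, .edge a b :: cs => a ∈ dn ∧ b ∈ dn ∧ G.Adj (ω a) (ω b) ∧ Sem ω dn cs
  | dn, .neq a b :: cs => a ∈ dn ∧ b ∈ dn ∧ ω a ≠ ω b ∧ Sem ω dn cs
  | dn, .conn a b :: cs => a ∈ dn ∧ b ∈ dn ∧
      (G.Adj (ω a) (ω b) ∨ ∃ y, c y = true ∧ G.Adj (ω a) y ∧ G.Adj (ω b) y) ∧ Sem ω dn cs

def names : List ℕ → List Cmd → List ℕ
  | dn, [] => dn
  | dn, .intro a _ _ :: cs => names (a :: dn) cs
  | dn, _ :: cs => names dn cs

theorem Real.mk' (h : Real G c ι s) {u r : ℕ} (hu : u < s.n) (hr : r = 1 → ¬ InR G (ι u)) :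
    Real G c ι (H62.mk s u r) ∧ (H62.mk s u r).n = s.n := by
  unfold H62.mk
  cases e : Nat.beq r 1
  · exact ⟨h, rfl⟩
  · exact ⟨h.mark hu (hr (beq_iff.1 e)), rfl⟩

theorem upd_lab {ω : ℕ → V} {l : ℕ → ℕ} {dn : List ℕ} {a u n : ℕ} (hu : u < n) (e : ι u = ω a)
    (hl : ∀ x ∈ dn, l x < n ∧ ι (l x) = ω x) :
    ∀ x ∈ a :: dn, upd l a u x < n ∧ ι (upd l a u x) = ω x := by
  intro x hx
  unfold upd
  by_cases ex : x = a
  · rw [beq_iff.2 ex, cond_true, ex]; exact ⟨hu, e⟩
  · rw [beq_false ex, cond_false]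
    exact hl x ((List.mem_cons.1 hx).resolve_left ex)

theorem build_sound (hG : G.IsRegularOfDegree 3) (hF : NoF G F c) (ω : ℕ → V) (sc : List Cmd) :
    ∀ (dn : List ℕ) (s : St) (l : ℕ → ℕ) (ι : ℕ → V), Real G c ι s → s.n + sc.length ≤ 60 →
      (∀ x ∈ dn, l x < s.n ∧ ι (l x) = ω x) → Sem G c ω dn sc →
      ∃ y ∈ build F sc (s, l), ∃ ι', Real G c ι' y.1 ∧
        ∀ x ∈ names dn sc, y.2 x < y.1.n ∧ ι' (y.2 x) = ω x := by
  induction sc with
  | nil => intro dn s l ι h _ hl _; exact ⟨(s, l), List.mem_singleton_self _, ι, h, hl⟩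
  | cons cm cs ih =>
    intro dn s l ι h hn hl hs
    rw [List.length_cons] at hn
    have fin : ∀ dn' s' l' ι', (s', l') ∈ step F s l cm → Real G c ι' s' → s'.n ≤ s.n + 1 →
        (∀ x ∈ dn', l' x < s'.n ∧ ι' (l' x) = ω x) → Sem G c ω dn' cs →
        ∃ y ∈ build F (cm :: cs) (s, l), ∃ ι', Real G c ι' y.1 ∧
          ∀ x ∈ names dn' cs, y.2 x < y.1.n ∧ ι' (y.2 x) = ω x := by
      intro dn' s' l' ι' h1 h2 h3 h4 h5
      obtain ⟨y, hy, r⟩ := ih dn' s' l' ι' h2 (by omega) h4 h5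
      refine ⟨y, ?_, r⟩
      rw [build, St.frc_eq]
      exact List.mem_flatMap.2 ⟨_, h1, hy⟩
    have up : ∀ w, ∀ i < s.n, Function.update ι s.n w i = ι i := fun w i hi =>
      Function.update_of_ne hi.ne _ _
    have hl' : ∀ w, ∀ x ∈ dn, l x < s.n + 1 ∧ Function.update ι s.n w (l x) = ω x := fun w x hx =>
      ⟨Nat.lt_succ_of_lt (hl x hx).1, by rw [up w _ (hl x hx).1, (hl x hx).2]⟩
    cases cm with
    | intro a m r =>
      obtain ⟨s1, s2, s3⟩ := hs
      obtain ⟨o, ⟨o1, o2⟩ | ⟨_, o2⟩⟩ := code_ex (G := G) (c := c) (ι := ι) (s := s) (ω a)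
      · obtain ⟨m1, m2⟩ := h.mk' (r := r) o1 (o2 ▸ s2)
        refine fin (a :: dn) _ (upd l a o) ι ?_ m1 (by omega) (by rw [m2]; exact upd_lab o1 o2 hl) s3
        refine List.mem_append_left _ (List.mem_map.2 ⟨o, List.mem_filter.2 ⟨List.mem_range.2 o1, ?_⟩, rfl⟩)
        rw [h.ty o o1, o2, s1]; rfl
      · obtain ⟨m1, m2⟩ := (h.addV hG o2).mk' (r := r) (u := s.n) (Nat.lt_succ_self _)
          (by rw [Function.update_self]; exact s2)
        refine fin (a :: dn) _ (upd l a s.n) _ ?_ m1 (by rw [m2]; exact le_rfl)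
          (by rw [m2]; exact upd_lab (Nat.lt_succ_self _) (Function.update_self ..) (hl' _)) s3
        refine List.mem_append_right _ (List.mem_map.2 ⟨_, List.mem_filter.2
          ⟨List.mem_range.2 (tc_lt hG c _), ?_⟩, rfl⟩)
        rw [s1]; rfl
    | edge a b =>
      obtain ⟨s1, s2, s3, s4⟩ := hs
      obtain ⟨s', m1, m2, m3⟩ := h.ens hG hF (by omega) (hl a s1).1 (hl b s2).1
        (by rw [(hl a s1).2, (hl b s2).2]; exact s3)
      exact fin dn s' l ι (List.mem_map.2 ⟨s', m1, rfl⟩) m2 (by omega) (by rw [m3]; exact hl) s4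
    | neq a b =>
      obtain ⟨s1, s2, s3, s4⟩ := hs
      refine fin dn s l ι ?_ h (by omega) hl s4
      have : l a ≠ l b := fun e => s3 (by rw [← (hl a s1).2, ← (hl b s2).2, e])
      rw [step, beq_false this]; exact List.mem_singleton_self _
    | conn a b =>
      obtain ⟨s1, s2, s3 | ⟨y, y1, y2, y3⟩, s4⟩ := hs
      · obtain ⟨s', m1, m2, m3⟩ := h.ens hG hF (by omega) (hl a s1).1 (hl b s2).1
          (by rw [(hl a s1).2, (hl b s2).2]; exact s3)
        exact fin dn s' l ι (List.mem_map.2 ⟨s', List.mem_append_left _ m1, rfl⟩) m2 (by omega)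
          (by rw [m3]; exact hl) s4
      · have t4 : 4 ≤ tc G c y := by unfold tc cn; rw [if_pos y1]; omega
        obtain ⟨o, ⟨o1, o2⟩ | ⟨_, o2⟩⟩ := code_ex (G := G) (c := c) (ι := ι) (s := s) y
        · obtain ⟨s', m1, m2, m3⟩ := h.ens hG hF (by omega) (hl a s1).1 o1
            (by rw [(hl a s1).2, o2]; exact y2)
          obtain ⟨s'', n1, n2, n3⟩ := m2.ens hG hF (by omega) (m3 ▸ (hl b s2).1) (m3 ▸ o1)
            (by rw [(hl b s2).2, o2]; exact y3)
          refine fin dn s'' l ι (List.mem_map.2 ⟨s'', List.mem_append_right _ (List.mem_append_left _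
            (List.mem_flatMap.2 ⟨o, List.mem_filter.2 ⟨List.mem_range.2 o1, ?_⟩,
              List.mem_flatMap.2 ⟨s', m1, n1⟩⟩)), rfl⟩) n2 (by omega) (by rw [n3, m3]; exact hl) s4
          rw [h.ty o o1, o2]; exact ble_true t4
        · have h1 := h.addV hG o2
          have en : (s.addV (tc G c y)).n = s.n + 1 := rfl
          obtain ⟨s', m1, m2, m3⟩ := h1.ens hG hF (by omega) (hl' y a s1).1 (Nat.lt_succ_self s.n)
            (by rw [(hl' y a s1).2, Function.update_self]; exact y2)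
          obtain ⟨s'', n1, n2, n3⟩ := m2.ens hG hF (u := l b) (v := s.n) (by omega)
            (by have := (hl b s2).1; omega) (by omega)
            (by rw [(hl' y b s2).2, Function.update_self]; exact y3)
          refine fin dn s'' l _ (List.mem_map.2 ⟨s'', List.mem_append_right _ (List.mem_append_right _
            (List.mem_flatMap.2 ⟨tc G c y, ?_, List.mem_flatMap.2 ⟨s', m1, n1⟩⟩)), rfl⟩) n2 (by omega)
            (by rw [n3, m3]; exact hl' y) s4
          have := tc_lt hG c y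
          simp only [List.mem_cons, List.not_mem_nil, or_false]; omega

theorem run_sound (hG : G.IsRegularOfDegree 3) (hF : NoF G F c) {H : ℕ}
    (hmin : ∀ c', Phi G c ≤ Phi G c') {pats : List (ℕ × ℕ × ℕ)}
    (hp : ∀ x ∈ pats, PWF x.1 x.2.1 x.2.2 ∧ RedOK x.1 x.2.1 x.2.2) {X : St → ℕ → Bool} {r : ℕ}
    {ω : ℕ → V} {Goal : Prop} (hX : ∀ s p, RS G c r ω s → X s p = true → Goal) {sc : List Cmd}
    {ts : List ℕ} (h : run F H pats X r sc ts = true) (hn : ∀ i < r, i ∈ names [] sc)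
    (hs : Sem G c ω [] sc) : Goal := by
  unfold run at h
  rw [Bool.and_eq_true, Bool.and_eq_true, Bool.and_eq_true, ble_iff, List.all_eq_true] at h
  obtain ⟨⟨⟨h1, h2⟩, h3⟩, h4⟩ := h
  have r0 : Real G c ω ⟨0, 0, 0, 0⟩ := by
    refine ⟨?_, ?_, ?_, ?_, ?_, fun i _ => ?_⟩
    iterate 5 exact fun i hi => absurd hi (Nat.not_lt_zero i)
    simp [St.t, St.a, gd_eq, bit_eq]
  obtain ⟨y, hy, ι', y1, y2⟩ := build_sound hG hF ω sc [] _ (fun _ => 0) ω r0
    (by show 0 + _ ≤ 60; omega) (by simp) hs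
  have h5 := h3 y hy
  rw [Bool.and_eq_true, ble_iff, allTo_iff] at h5
  refine chk_sound hG hF h1 hmin hp hX _ _ h4 ⟨y.1, List.mem_map_of_mem hy, ι', y1, h5.1, ?_⟩
  intro i hi
  have := (y2 i (hn i hi)).2
  rwa [beq_iff.1 (h5.2 i hi)] at this

end graph

end Pool.Agent.MP_82b037_lc.H62
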