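import Pool.Agent.MP_82b037_lc.H62.Pat

set_option autoImplicit false

namespace Pool.Agent.MP_82b037_lc.H62

theorem bit_iff (x i : ℕ) : bit x i = 1 ↔ x.testBit i = true := by
  rw [bit_eq, gd_eq, Nat.testBit_eq_decide_div_mod_eq, decide_eq_true_eq]

def optT (k : ℕ) : ℕ :=
  bif Nat.beq k 1 then 692447295395708131684335821360405385156011706884434263738490677014581296 else
  bif Nat.beq k 2 then 664659444883077271830826179722973923226548220016 else 535727630832

def optN (k : ℕ) : ℕ := bif Nat.beq k 1 then 30 else bif Nat.beq k 2 then 20 else 5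

theorem opt_ex : ∀ k < 4, 1 ≤ k → ∀ p q1 q2 : Fin 5, ∃ o < optN k, gd 256 (optT k) o % 8 = p.val ∧
    (k ≤ 2 → (gd 256 (optT k) o / 8).testBit q1.val = false) ∧
    (k ≤ 1 → (gd 256 (optT k) o / 8).testBit q2.val = false) := by
  intro k hk h1
  interval_cases k <;> decide +kernel

theorem opt_zero : ∀ k < 4, 1 ≤ k → ∀ q1 q2 : Fin 5, (q1 = 0 ∨ q1 = 4) → (q2 = 0 ∨ q2 = 3 ∨ q2 = 4) →
    gd 256 (optT k) 0 % 8 = (0 : Fin 5).val ∧
    (k ≤ 2 → (gd 256 (optT k) 0 / 8).testBit q1.val = false) ∧
    (k ≤ 1 → (gd 256 (optT k) 0 / 8).testBit q2.val = false) := by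
  intro k hk h1
  interval_cases k <;> decide +kernel

theorem pick_ex : ∀ M < 32, M ≠ 0 → ∃ a : Fin 5, M.testBit a.val = true := by decide +kernel

def plen (ad j : ℕ) : ℕ := sum3 (pa ad j) fun _ => 1

theorem plen_eq (ad j : ℕ) : plen ad j = (pnb ad j).length := by
  unfold plen pnb; rw [sum3_eq]; simp

def dm (nd ad j : ℕ) : ℕ := bif Nat.beq j nd then 1 else optN (plen ad j)

theorem dm_pos (nd ad j : ℕ) : 0 < dm nd ad j := by
  unfold dm optN
  cases Nat.beq j nd <;> cases Nat.beq (plen ad j) 1 <;> cases Nat.beq (plen ad j) 2 <;> decide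

def tabA (k : ℕ) : ℕ :=
  bif Nat.beq k 1 then 44942328340166043345808676974223845876956056822279097752885159309550672759205452115247511932807876705514977928209037056743424070606391817950643174305792554163888043741479709881830797230158975473875773461011770255717979487238682970092658252806967958447514750245707375701667641384212566201531533490544734896128 else
  bif Nat.beq k 2 then 43888950704763087714652528720593946630421048590932531466177226529313840911724261551075701252437104525155358846883790902578198070234377018723379709306409170759199634789268643571614704834144019129501172681423305708231800765670719980236682180888264790128091325971992193160228845105859966011174179946731929600 else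
  1297529954306980004368784654554106404184401898013678486144749247660731625243996648249962617976633981775451106274532421033433855460647595143406045143702136813296472324210069448604071298240747058849115943457605370693902985711639305630728020829983494844750223719590160824286905313197944900532484194697216

def tabB (k : ℕ) : ℕ :=
  bif Nat.beq k 1 then 206720889026023996132956916847759140275842157753875202039123114962842058831700939195794023516973569499203813347539096758704575660185512095177013247503514356908141298929541425496892736868836420854953260963670896200183274517692687589572607 else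
  bif Nat.beq k 2 then 71848056234450473562685241596611678586089911693389296814974444952640008635082330593571537410438874759025127677752513983023742362887964348804239477772124633467406450618465870629307411481649043503970124565051256390198209583885892471183982519932894950394559241805835011096575 else
  9745314015938014549704937926348362011561211396727029375671966269388753934796695072950861839690678006740713570824518253755022978806750506892845855997824291888105064635235872697472836886561729849249269472567169249719101948413115895893633016374471021821641997238040576778353791038785627095071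

/-- entry `M` of a table with 32-bit entries -/
def te (T M : ℕ) : ℕ := Nat.land (Nat.shiftRight T (Nat.mul 32 M)) 4294967295

theorem tab_ok : ∀ k < 4, 1 ≤ k → ∀ M < 32, ∀ o < 32,
    ((te (tabA k) M).testBit o = true → M.testBit (gd 256 (optT k) o % 8) = true) ∧
    ((te (tabB k) M).testBit o = true → M &&& (gd 256 (optT k) o / 8) = M) := by
  intro k hk h1
  interval_cases k <;> decide +kernel

theorem optN_le (k : ℕ) : optN k ≤ 30 := by
  unfold optN; cases Nat.beq k 1 <;> cases Nat.beq k 2 <;> decide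

/-- the colour set of vertex `i` (`s = 5 i`) -/
def mk5 (X s : ℕ) : ℕ := Nat.land (Nat.shiftRight X s) 31

theorem mk5_lt (X s : ℕ) : mk5 X s < 32 := Nat.and_lt_two_pow _ (n := 5) (by decide)

theorem mk5_bit (X s a : ℕ) (h : (mk5 X s).testBit a = true) :
    (X >>> s).testBit a = true ∧ (31 : ℕ).testBit a = true := by
  have h' : ((X >>> s) &&& 31).testBit a = true := h
  rwa [Nat.testBit_and, Bool.and_eq_true] at h'

def un (X : ℕ) (l : List ℕ) : ℕ := List.rec 0 (fun y _ ih => Nat.lor (mk5 X (Nat.mul 5 y)) ih) l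

theorem un_lt (X : ℕ) (l : List ℕ) : un X l < 32 := by
  induction l with
  | nil => exact Nat.zero_lt_succ _
  | cons y l ih => exact Nat.or_lt_two_pow (n := 5) (mk5_lt _ _) ih

theorem un_bit {X : ℕ} {l : List ℕ} {y a : ℕ} (hy : y ∈ l) (h : (mk5 X (5 * y)).testBit a = true) :
    (un X l).testBit a = true := by
  induction l with
  | nil => simp at hy
  | cons z l ih =>
    show (mk5 X (5 * z) ||| un X l).testBit a = true
    rw [Nat.testBit_or, Bool.or_eq_true]
    rcases List.mem_cons.1 hy with rfl | hy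
    · exact Or.inl h
    · exact Or.inr (ih hy)

def smask (ad X j : ℕ) : ℕ :=
  Nat.land (te (tabA (plen ad j)) (mk5 X (Nat.mul 5 j))) (te (tabB (plen ad j)) (un X (pnb ad j)))

theorem smask_bit {ad X j o : ℕ} (l1 : 1 ≤ plen ad j) (l2 : plen ad j < 4) (ho : o < 32)
    (h : (smask ad X j).testBit o = true) :
    (mk5 X (5 * j)).testBit (gd 256 (optT (plen ad j)) o % 8) = true ∧
      ∀ y ∈ pnb ad j, ∀ a, (mk5 X (5 * y)).testBit a = true →
        (gd 256 (optT (plen ad j)) o / 8).testBit a = true := by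
  have h' : (te (tabA (plen ad j)) (mk5 X (5 * j)) &&& te (tabB (plen ad j)) (un X (pnb ad j))).testBit o
    = true := h
  rw [Nat.testBit_and, Bool.and_eq_true] at h'
  refine ⟨(tab_ok _ l2 l1 _ (mk5_lt _ _) o ho).1 h'.1, fun y hy a ha => ?_⟩
  have e := (tab_ok _ l2 l1 _ (un_lt _ _) o ho).2 h'.2
  have := un_bit hy ha
  rw [← e, Nat.testBit_and, Bool.and_eq_true] at this
  exact this.2

def szl (d : ℕ → ℕ) (l : List ℕ) : ℕ := List.rec 1 (fun j _ ih => Nat.mul (d j) ih) l

def spr (z d m : ℕ) : ℕ :=
  Nat.rec 0 (fun o ih => Nat.add (Nat.shiftLeft (bit m o) (Nat.mul o z)) ih) d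

theorem spr_succ (z d m x : ℕ) : spr z (d + 1) m * x = 2 ^ (d * z) * (bit m d * x) + spr z d m * x := by
  show (bit m d <<< (d * z) + spr z d m) * x = _
  rw [Nat.shiftLeft_eq]; ring

theorem spr_lt {z m x : ℕ} (hx : x < 2 ^ z) (d : ℕ) : spr z d m * x < 2 ^ (d * z) := by
  induction d with
  | zero => show 0 * x < _; simp
  | succ d ih =>
    rw [spr_succ, Nat.add_mul, Nat.one_mul, Nat.pow_add]
    have h1 : bit m d * x + 1 ≤ 2 ^ z := by
      have := bit_lt m d
      have : bit m d = 0 ∨ bit m d = 1 := by omega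
      rcases this with e | e <;> rw [e] <;> omega
    have h2 := Nat.mul_le_mul_left (2 ^ (d * z)) h1
    rw [Nat.mul_add, Nat.mul_one] at h2
    omega

theorem spr_bit {z m x : ℕ} (hx : x < 2 ^ z) (d y : ℕ) (h : (spr z d m * x).testBit y = true) :
    ∃ i < d, m.testBit i = true ∧ i * z ≤ y ∧ x.testBit (y - i * z) = true := by
  induction d with
  | zero => have h' : (0 * x).testBit y = true := h; simp at h'
  | succ d ih =>
    rw [spr_succ, Nat.testBit_two_pow_mul_add _ (spr_lt hx d)] at h
    split_ifs at h with e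
    · obtain ⟨i, hi, h⟩ := ih h; exact ⟨i, by omega, h⟩
    · have := bit_lt m d
      have : bit m d = 0 ∨ bit m d = 1 := by omega
      rcases this with e' | e'
      · rw [e'] at h; simp at h
      · rw [e', Nat.one_mul] at h
        exact ⟨d, by omega, (bit_iff _ _).1 e', by omega, h⟩

def ten (d S : ℕ → ℕ) (l : List ℕ) : ℕ :=
  List.rec 1 (fun j r ih => Nat.mul (force (S j) (spr (szl d r) (d j))) ih) l

theorem ten_lt2 (d S : ℕ → ℕ) (js : List ℕ) : ten d S js < 2 ^ szl d js := by
  induction js with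
  | nil => exact (by decide : 1 < 2 ^ 1)
  | cons j r ih =>
    show force (S j) (spr (szl d r) (d j)) * ten d S r < 2 ^ (d j * szl d r)
    rw [force_eq]; exact spr_lt ih _

def idx (d o : ℕ → ℕ) : List ℕ → ℕ
  | [] => 0
  | j :: r => o j * szl d r + idx d o r

theorem idx_lt (d o : ℕ → ℕ) (js : List ℕ) (h : ∀ j, o j < d j) : idx d o js < szl d js := by
  induction js with
  | nil => exact Nat.one_pos
  | cons j r ih =>
    have h2 := h j
    show o j * szl d r + idx d o r < d j * szl d r
    nlinarith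

theorem ten_idx (d S o : ℕ → ℕ) (js : List ℕ) (h : ∀ j, o j < d j)
    (hb : (ten d S js).testBit (idx d o js) = true) : ∀ j ∈ js, (S j).testBit (o j) = true := by
  induction js with
  | nil => simp
  | cons j r ih =>
    have hb' : (force (S j) (spr (szl d r) (d j)) * ten d S r).testBit (idx d o (j :: r)) = true := hb
    rw [force_eq] at hb'
    obtain ⟨i, hi, h0, h1, h2⟩ := spr_bit (ten_lt2 d S r) _ _ hb'
    have h3 : idx d o (j :: r) - i * szl d r < szl d r := by
      by_contra hc
      rw [Nat.testBit_lt_two_pow (lt_of_lt_of_le (ten_lt2 d S r)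
        (Nat.pow_le_pow_right (by decide) (by omega)))] at h2
      exact absurd h2 (by decide)
    have h4 := idx_lt d o r h
    have e : idx d o (j :: r) = o j * szl d r + idx d o r := rfl
    rw [e] at h1 h2 h3
    have : i = o j := by
      rcases lt_trichotomy i (o j) with hc | hc | hc
      · have h5 : (i + 1) * szl d r ≤ o j * szl d r := Nat.mul_le_mul_right _ hc
        rw [Nat.add_mul] at h5; omega
      · exact hc
      · have h5 : (o j + 1) * szl d r ≤ i * szl d r := Nat.mul_le_mul_right _ hc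
        rw [Nat.add_mul] at h5; omega
    subst this
    rw [Nat.add_sub_cancel_left] at h2
    intro k hk
    rcases List.mem_cons.1 hk with rfl | hk
    · exact h0
    · exact ih h2 k hk

def sel (p : ℕ → Bool) (bs : List ℕ) : List ℕ :=
  List.rec [] (fun b _ ih => Bool.rec (motive := fun _ => List ℕ) (b :: ih) ih (p b)) bs

theorem mem_sel {p : ℕ → Bool} {bs : List ℕ} {x : ℕ} (h : x ∈ sel p bs) : x ∈ bs ∧ p x = false := by
  induction bs with
  | nil => simp [sel] at h
  | cons b bs ih =>
    have h' : x ∈ (Bool.rec (motive := fun _ => List ℕ) (b :: sel p bs) (sel p bs) (p b)) := h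
    cases e : p b
    · rw [e] at h'
      rcases List.mem_cons.1 h' with rfl | h'
      · exact ⟨List.mem_cons_self, e⟩
      · exact ⟨List.mem_cons_of_mem _ (ih h').1, (ih h').2⟩
    · rw [e] at h'
      exact ⟨List.mem_cons_of_mem _ (ih h').1, (ih h').2⟩

def orT (T : ℕ → ℕ) (bs : List ℕ) : ℕ := List.rec 0 (fun b _ ih => Nat.lor (T b) ih) bs

theorem orT_bit {T : ℕ → ℕ} {bs : List ℕ} {x : ℕ} (h : (orT T bs).testBit x = true) :
    ∃ b ∈ bs, (T b).testBit x = true := by
  induction bs with
  | nil => simp [orT] at h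
  | cons b bs ih =>
    have h' : (T b ||| orT T bs).testBit x = true := h
    rw [Nat.testBit_or, Bool.or_eq_true] at h'
    rcases h' with h' | h'
    · exact ⟨b, List.mem_cons_self, h'⟩
    · obtain ⟨y, hy, h⟩ := ih h'
      exact ⟨y, List.mem_cons_of_mem _ hy, h⟩

def selO (S : ℕ → ℕ → ℕ) (j o : ℕ) (bs : List ℕ) : List ℕ :=
  sel (fun X => Nat.beq (Nat.land (S X j) (Nat.pow 2 o)) 0) bs

theorem mem_selO {S : ℕ → ℕ → ℕ} {j o : ℕ} {bs : List ℕ} {x : ℕ} (h : x ∈ selO S j o bs) :
    x ∈ bs ∧ (S x j).testBit o = true := by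
  obtain ⟨h1, h2⟩ := mem_sel h
  refine ⟨h1, ?_⟩
  by_contra hc
  have : S x j &&& 2 ^ o = 0 := by
    rw [Nat.and_two_pow, Bool.not_eq_true] at *; rw [hc]; simp
  have h3 : Nat.beq (S x j &&& 2 ^ o) 0 = false := h2
  rw [this] at h3; exact absurd h3 (by decide)

def cov (d : ℕ → ℕ) (S : ℕ → ℕ → ℕ) (T : ℕ → ℕ) (Z : ℕ) (js : List ℕ) : List ℕ → Bool :=
  List.rec (fun bs => Nat.beq (orT T bs) (Nat.pred (Nat.shiftLeft 1 Z)))
    (fun j _ ih bs => allTo (d j) fun o => ih (selO S j o bs)) js

theorem cov_sound {d o : ℕ → ℕ} {S : ℕ → ℕ → ℕ} {T : ℕ → ℕ} {Z z : ℕ} (hz : z < Z) (js : List ℕ)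
    (h : ∀ j, o j < d j) : ∀ bs, cov d S T Z js bs = true →
      ∃ b ∈ bs, (∀ j ∈ js, (S b j).testBit (o j) = true) ∧ (T b).testBit z = true := by
  induction js with
  | nil =>
    intro bs hc
    have hc' : orT T bs = Nat.pred (Nat.shiftLeft 1 Z) := beq_iff.1 hc
    have e : Nat.pred (Nat.shiftLeft 1 Z) = 2 ^ Z - 1 := by
      show (1 <<< Z) - 1 = _
      rw [Nat.one_shiftLeft]
    have : (orT T bs).testBit z = true := by
      rw [hc', e, Nat.testBit_two_pow_sub_one]; exact decide_eq_true hz
    obtain ⟨b, hb, h⟩ := orT_bit this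
    exact ⟨b, hb, by simp, h⟩
  | cons j js ih =>
    intro bs hc
    have hc' : allTo (d j) (fun o => cov d S T Z js (selO S j o bs)) = true := hc
    rw [allTo_iff] at hc'
    obtain ⟨x, hx, hm, ht⟩ := ih _ (hc' (o j) (h j))
    obtain ⟨h1, h2⟩ := mem_selO hx
    refine ⟨x, h1, fun k hk => ?_, ht⟩
    rcases List.mem_cons.1 hk with rfl | hk
    · exact h2
    · exact hm k hk

structure E6 where
  b : ℕ
  c : ℕ
  a1 : ℕ
  a2 : ℕ
  d1 : ℕ
  d2 : ℕ

def dis (X c a1 a2 : ℕ) : Bool :=
  Nat.beq (Nat.land (Nat.land (Nat.shiftRight X c) (Nat.lor (Nat.shiftRight X a1) (Nat.shiftRight X a2))) 31) 0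

theorem dis_sound {X c a1 a2 a k : ℕ} (h : dis X c a1 a2 = true) (ha : a1 = a ∨ a2 = a)
    (h1 : (mk5 X c).testBit k = true) (h2 : (mk5 X a).testBit k = true) : False := by
  have h' : ((X >>> c) &&& ((X >>> a1) ||| (X >>> a2))) &&& 31 = 0 := beq_iff.1 h
  have := congrArg (fun x => Nat.testBit x k) h'
  simp only [Nat.testBit_and, Nat.testBit_or, (mk5_bit _ _ _ h1).1, (mk5_bit _ _ _ h1).2,
    Nat.zero_testBit] at this
  rcases ha with rfl | rfl <;> simp [(mk5_bit _ _ _ h2).1] at this

noncomputable def vE (X : ℕ) (E : List E6) : Bool :=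
  List.rec true (fun e _ ih => E6.rec (motive := fun _ => Bool) (fun b c a1 a2 d1 d2 =>
    Bool.rec (motive := fun _ => Bool) false (Bool.rec (motive := fun _ => Bool)
      (Bool.rec (motive := fun _ => Bool) false ih (dis X b d1 d2)) ih (dis X c a1 a2)) (dis X b c c)) e) E

theorem vE_sound {X : ℕ} {E : List E6} (h : vE X E = true) : ∀ e ∈ E,
    dis X e.b e.c e.c = true ∧ (dis X e.c e.a1 e.a2 = true ∨ dis X e.b e.d1 e.d2 = true) := by
  induction E with
  | nil => simp
  | cons e E ih =>
    obtain ⟨b, c, a1, a2, d1, d2⟩ := e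
    have h' : Bool.rec (motive := fun _ => Bool) false (Bool.rec (motive := fun _ => Bool)
      (Bool.rec (motive := fun _ => Bool) false (vE X E) (dis X b d1 d2)) (vE X E) (dis X c a1 a2))
      (dis X b c c) = true := h
    have : vE X E = true ∧ dis X b c c = true ∧ (dis X c a1 a2 = true ∨ dis X b d1 d2 = true) := by
      revert h'
      cases dis X b c c <;> cases dis X c a1 a2 <;> cases dis X b d1 d2 <;> simp
    intro e he
    rcases List.mem_cons.1 he with rfl | he
    · exact this.2
    · exact ih this.1 e he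

def elOK (n ad : ℕ) (E : List E6) : Bool :=
  allTo n fun b => all3 (pa ad b) fun c => Nat.ble (Nat.succ c) b || E.any fun e =>
    Nat.beq e.b (5 * b) && Nat.beq e.c (5 * c) &&
    all3 (pa ad b) (fun a => Nat.beq a c || Nat.beq e.a1 (5 * a) || Nat.beq e.a2 (5 * a)) &&
    all3 (pa ad c) (fun a => Nat.beq a b || Nat.beq e.d1 (5 * a) || Nat.beq e.d2 (5 * a))

def neI (nd X : ℕ) : Bool :=
  Nat.rec true (fun i ih => Bool.rec (motive := fun _ => Bool) ih false (Nat.beq (mk5 X (Nat.mul 5 i)) 0)) nd

theorem neI_sound {nd X : ℕ} (h : neI nd X = true) : ∀ i < nd, mk5 X (5 * i) ≠ 0 := by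
  induction nd with
  | zero => simp
  | succ nd ih =>
    have h' : Bool.rec (motive := fun _ => Bool) (neI nd X) false (Nat.beq (mk5 X (5 * nd)) 0) = true := h
    cases e : Nat.beq (mk5 X (5 * nd)) 0
    · rw [e] at h'
      intro i hi
      rcases Nat.lt_succ_iff_lt_or_eq.1 hi with hi | rfl
      · exact ih h' i hi
      · intro e'; rw [e'] at e; exact absurd e (by decide)
    · rw [e] at h'; exact absurd (show false = true from h') (by decide)

noncomputable def allB (nd : ℕ) (E : List E6) (bs : List ℕ) : Bool :=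
  List.rec true (fun X _ ih => Bool.rec (motive := fun _ => Bool) false
    (Bool.rec (motive := fun _ => Bool) false ih (neI nd X)) (vE X E)) bs

theorem allB_sound {nd : ℕ} {E : List E6} {bs : List ℕ} (h : allB nd E bs = true) :
    ∀ X ∈ bs, vE X E = true ∧ neI nd X = true := by
  induction bs with
  | nil => simp
  | cons b bs ih =>
    have h' : Bool.rec (motive := fun _ => Bool) false
      (Bool.rec (motive := fun _ => Bool) false (allB nd E bs) (neI nd b)) (vE b E) = true := h
    have : allB nd E bs = true ∧ vE b E = true ∧ neI nd b = true := by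
      revert h'
      cases vE b E <;> cases neI nd b <;> simp
    intro X hX
    rcases List.mem_cons.1 hX with rfl | hX
    · exact this.2
    · exact ih this.1 X hX

theorem good_of_vE {nd n ad X : ℕ} {E : List E6} (hw : PWF nd n ad) (hE : elOK n ad E = true)
    (hv : vE X E = true) (σ : ℕ → Fin 5)
    (hσ : ∀ i < n, (mk5 X (5 * i)).testBit (σ i).val = true) : Good n ad σ := by
  have key : ∀ b < n, ∀ c ∈ pnb ad b, b ≤ c → σ b ≠ σ c ∧ ∀ a ∈ pnb ad b, ∀ d ∈ pnb ad c, a ≠ c →
      d ≠ b → σ a = σ c → σ d = σ b → False := by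
    intro b hb c hc hbc
    have h := (allTo_iff _ _).1 hE b hb
    rw [all3_iff] at h
    have h := h c hc
    rw [ble_false (Nat.lt_succ_of_le hbc), Bool.false_or, List.any_eq_true] at h
    obtain ⟨e, he, h⟩ := h
    simp only [Bool.and_eq_true, beq_iff, all3_iff, Bool.or_eq_true] at h
    obtain ⟨⟨⟨e1, e2⟩, e3⟩, e4⟩ := h
    obtain ⟨v1, v2⟩ := vE_sound hv e he
    rw [e1, e2] at v1 v2
    have hcn := (hw.sym b hb c hc).1
    refine ⟨fun q => dis_sound v1 (Or.inl rfl) (hσ b hb) (q ▸ hσ c hcn),
      fun a ha d hd' n1 n2 q1 q2 => ?_⟩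
    rcases v2 with h | h
    · refine dis_sound h (a := 5 * a) ?_ (hσ c hcn) (q1 ▸ hσ a (hw.sym b hb a ha).1)
      rcases e3 a ha with (h | h) | h
      · exact absurd h n1
      · exact Or.inl h
      · exact Or.inr h
    · refine dis_sound h (a := 5 * d) ?_ (hσ b hb) (q2 ▸ hσ d (hw.sym c hcn d hd').1)
      rcases e4 d hd' with (h | h) | h
      · exact absurd h n2
      · exact Or.inl h
      · exact Or.inr h
  intro b hb c hc
  rcases le_total b c with h | h
  · exact key b hb c hc h
  · obtain ⟨hcn, hbc⟩ := hw.sym b hb c hc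
    obtain ⟨k1, k2⟩ := key c hcn b hbc h
    exact ⟨k1.symm, fun a ha d hd' n1 n2 e1 e2 => k2 d hd' a ha n2 n1 e2 e1⟩

def covP (nd ad : ℕ) (hs ts bs : List ℕ) : Bool :=
  cov (dm nd ad) (smask ad) (fun X => ten (dm nd ad) (smask ad X) ts) (szl (dm nd ad) ts) hs bs

/-- every choice of boundary options is matched by a box of `bs` -/
def Covers (nd n ad : ℕ) (bs : List ℕ) : Prop :=
  ∀ o : ℕ → ℕ, (∀ j, o j < dm nd ad j) →
    ∃ X ∈ bs, ∀ j, nd ≤ j → j < n → (smask ad X j).testBit (o j) = true

def dimsOK (nd n : ℕ) (l : List ℕ) : Bool := allTo n fun j => Nat.ble (Nat.succ j) nd || l.any (Nat.beq j)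

theorem dims_sound {nd n : ℕ} {l : List ℕ} (h : dimsOK nd n l = true) {j : ℕ} (h1 : nd ≤ j)
    (h2 : j < n) : j ∈ l := by
  have := (allTo_iff _ _).1 h j h2
  rw [ble_false (Nat.lt_succ_of_le h1), Bool.false_or, List.any_eq_true] at this
  obtain ⟨x, hx, e⟩ := this
  exact beq_iff.1 e ▸ hx

theorem covP_sound {nd ad : ℕ} {hs ts bs : List ℕ} (h : covP nd ad hs ts bs = true) (o : ℕ → ℕ)
    (ho : ∀ j, o j < dm nd ad j) :
    ∃ X ∈ bs, ∀ j ∈ hs ++ ts, (smask ad X j).testBit (o j) = true := by
  obtain ⟨X, hX, r1, r2⟩ := cov_sound (idx_lt _ o ts ho) hs ho bs h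
  refine ⟨X, hX, fun j hj => ?_⟩
  rcases List.mem_append.1 hj with hj | hj
  · exact r1 j hj
  · exact ten_idx _ _ _ _ ho r2 j hj

theorem red_of_covers {nd n ad : ℕ} {E : List E6} {bs : List ℕ} (hw : PWF nd n ad)
    (hE : elOK n ad E = true) (hv : ∀ X ∈ bs, vE X E = true ∧ neI nd X = true)
    (hc : Covers nd n ad bs) : RedOK nd n ad := by
  refine redOK_of_norm fun π q1 q2 h0 h1 h2 => ?_
  have hl : ∀ j, nd ≤ j → j < n → 1 ≤ plen ad j ∧ plen ad j < 4 := fun j a b =>
    ⟨plen_eq ad j ▸ (hw.out j a b).2, by rw [plen_eq, pnb, dec]; split_ifs <;> simp⟩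
  have ho : ∀ j, ∃ o, o < dm nd ad j ∧ (nd ≤ j → j < n →
      gd 256 (optT (plen ad j)) o % 8 = (π j).val ∧
      (plen ad j ≤ 2 → (gd 256 (optT (plen ad j)) o / 8).testBit (q1 j).val = false) ∧
      (plen ad j ≤ 1 → (gd 256 (optT (plen ad j)) o / 8).testBit (q2 j).val = false)) := by
    intro j
    by_cases hj : nd ≤ j ∧ j < n
    · obtain ⟨l1, l2⟩ := hl j hj.1 hj.2
      by_cases e : j = nd
      · subst e
        exact ⟨0, dm_pos _ _ _, fun _ _ => h0 ▸ opt_zero _ l2 l1 _ _ h1 h2⟩
      · obtain ⟨o, a1, a2⟩ := opt_ex _ l2 l1 (π j) (q1 j) (q2 j)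
        refine ⟨o, ?_, fun _ _ => a2⟩
        rw [dm, beq_false e]; exact a1
    · exact ⟨0, dm_pos _ _ _, fun a b => absurd ⟨a, b⟩ hj⟩
  choose o ho using ho
  obtain ⟨X, hX, r0⟩ := hc o fun j => (ho j).1
  have r := fun j (a : nd ≤ j) (b : j < n) => smask_bit (hl j a b).1 (hl j a b).2 (o := o j) (by
    have := (ho j).1
    have h30 := optN_le (plen ad j)
    unfold dm at this
    cases e : Nat.beq j nd <;> rw [e] at this <;> simp only [cond_true, cond_false] at this <;> omega)
    (r0 j a b)
  have hp : ∀ i, ∃ a : Fin 5, i < nd → (mk5 X (5 * i)).testBit a.val = true := by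
    intro i
    by_cases hi : i < nd
    · obtain ⟨a, ha⟩ := pick_ex _ (mk5_lt X (5 * i)) (neI_sound (hv X hX).2 i hi)
      exact ⟨a, fun _ => ha⟩
    · exact ⟨0, fun h => absurd h hi⟩
  choose p hp using hp
  refine ⟨fun i => if i < nd then p i else π i, fun j a _ => if_neg (by omega), ?_, ?_⟩
  · refine good_of_vE hw hE (hv X hX).1 _ fun i hi => ?_
    by_cases e : i < nd
    · simp only [if_pos e]; exact hp i e
    · simp only [if_neg e]
      rw [← ((ho i).2 (by omega) hi).1]; exact (r i (by omega) hi).1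
  · intro j a b i hi
    have hid := (hw.out j a b).1 i hi
    have e2 := (r j a b).2 i hi _ (hp i hid)
    simp only [if_pos hid]
    rw [← plen_eq]
    refine ⟨fun hl e3 => ?_, fun hl e3 => ?_⟩
    · have := ((ho j).2 a b).2.1 hl
      rw [← e3, e2] at this; exact absurd this (by decide)
    · have := ((ho j).2 a b).2.2 hl
      rw [← e3, e2] at this; exact absurd this (by decide)

noncomputable def coverOK (nd n ad : ℕ) (E : List E6) (hs ts bs : List ℕ) : Bool :=
  patWF nd n ad && elOK n ad E && dimsOK nd n (hs ++ ts) && allB nd E bs && covP nd ad hs ts bs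

theorem cover_sound {nd n ad : ℕ} {E : List E6} {hs ts bs : List ℕ}
    (h : coverOK nd n ad E hs ts bs = true) : PWF nd n ad ∧ RedOK nd n ad := by
  unfold coverOK at h
  simp only [Bool.and_eq_true] at h
  obtain ⟨⟨⟨⟨h1, h2⟩, h3⟩, h4⟩, h5⟩ := h
  refine ⟨patWF_sound h1, red_of_covers (patWF_sound h1) h2 (allB_sound h4) fun o ho => ?_⟩
  obtain ⟨X, hX, r⟩ := covP_sound h5 o ho
  exact ⟨X, hX, fun j a b => r j (dims_sound h3 a b)⟩

noncomputable def validOK (nd n ad : ℕ) (E : List E6) (l bs : List ℕ) : Bool :=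
  patWF nd n ad && elOK n ad E && dimsOK nd n l && allB nd E bs

def covR (nd ad j lo k : ℕ) (hs ts bs : List ℕ) : Bool :=
  allTo k fun i => covP nd ad hs ts (selO (smask ad) j (Nat.add lo i) bs)

theorem cover_split {nd n ad j : ℕ} {E : List E6} {hs ts bs : List ℕ}
    (h : validOK nd n ad E (j :: (hs ++ ts)) bs = true) (c0 : covR nd ad j 0 10 hs ts bs = true)
    (c1 : covR nd ad j 10 10 hs ts bs = true) (c2 : covR nd ad j 20 10 hs ts bs = true) :
    PWF nd n ad ∧ RedOK nd n ad := by
  unfold validOK at h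
  simp only [Bool.and_eq_true] at h
  obtain ⟨⟨⟨h1, h2⟩, h3⟩, h4⟩ := h
  refine ⟨patWF_sound h1, red_of_covers (patWF_sound h1) h2 (allB_sound h4) fun o ho => ?_⟩
  have h30 : o j < 30 := by
    have := ho j
    have h30 := optN_le (plen ad j)
    unfold dm at this
    cases e : Nat.beq j nd <;> rw [e] at this <;> simp only [cond_true, cond_false] at this <;> omega
  have h5 : covP nd ad hs ts (selO (smask ad) j (o j) bs) = true := by
    unfold covR at c0 c1 c2
    rw [allTo_iff] at c0 c1 c2
    by_cases a : o j < 10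
    · have := c0 (o j) a
      rwa [show Nat.add 0 (o j) = o j from Nat.zero_add _] at this
    · by_cases b : o j < 20
      · have := c1 (o j - 10) (by omega)
        rwa [show Nat.add 10 (o j - 10) = o j from by show 10 + _ = _; omega] at this
      · have := c2 (o j - 20) (by omega)
        rwa [show Nat.add 20 (o j - 20) = o j from by show 20 + _ = _; omega] at this
  obtain ⟨X, hX, r⟩ := covP_sound h5 o ho
  obtain ⟨hX, r'⟩ := mem_selO hX
  refine ⟨X, hX, fun k a b => ?_⟩
  rcases List.mem_cons.1 (dims_sound h3 a b) with rfl | e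
  · exact r'
  · exact r k e

end Pool.Agent.MP_82b037_lc.H62
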