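import Pool.Agent.MP_82b037_lc.H62.Basic

set_option autoImplicit false
set_option linter.unusedSectionVars false

namespace Pool.Agent.MP_82b037_lc.H62

open Finset

def Wt (t : ℕ) : ℕ := gd 4096 36311437589642735970933268480 t

def tab (X t u : ℕ) : ℕ := gd 4096 X (Nat.add (Nat.mul 8 t) u)

def Pt (t u : ℕ) : ℕ := tab 867362377712779195818431462715821415861188532113385349738082819000560558287022266013154914428459223474871909064557658986332300845122082459330887730056449181684010524495618330043190211523604412890759903161965500929714473630185816064 t u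

def fb (F t u : ℕ) : ℕ := bit F (Nat.add (Nat.mul 8 t) u)

theorem Pt_zero : ∀ b < 8, ∀ f < 8, b / 4 ≠ f / 4 → Pt b f = 0 := by decide +kernel

def HOK (F H : ℕ) : Bool :=
  allTo 8 fun a => Nat.beq (tab H a a) 0 && allTo 8 fun e => Nat.beq (fb F a e) 1 ||
    !(Nat.beq (a / 4) (e / 4)) || allTo 8 fun b => !(Nat.beq (a / 4) (b / 4)) || allTo 8 fun f =>
      !(Nat.beq (a / 4) (f / 4)) || Nat.ble (Pt b f) (Pt a e + tab H a b + tab H e f)

theorem HOK_zero {F H : ℕ} (h : HOK F H = true) {a : ℕ} (ha : a < 8) : tab H a a = 0 := by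
  have := (allTo_iff _ _).1 h a ha
  rw [Bool.and_eq_true] at this
  exact beq_iff.1 this.1

theorem HOK_le {F H : ℕ} (h : HOK F H = true) {a e b f : ℕ} (ha : a < 8) (he : e < 8) (hb : b < 8)
    (hf : f < 8) (h0 : fb F a e = 0) (h1 : a / 4 = e / 4) (h2 : a / 4 = b / 4) (h3 : a / 4 = f / 4) :
    Pt b f ≤ Pt a e + tab H a b + tab H e f := by
  have := (allTo_iff _ _).1 h a ha
  rw [Bool.and_eq_true] at this
  have := (allTo_iff _ _).1 this.2 e he
  rw [h0, beq_iff.2 h1] at this
  simp only [show Nat.beq 0 1 = false from rfl, Bool.not_true, Bool.false_or] at this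
  have := (allTo_iff _ _).1 this b hb
  rw [beq_iff.2 h2] at this
  simp only [Bool.not_true, Bool.false_or] at this
  have := (allTo_iff _ _).1 this f hf
  rw [beq_iff.2 h3] at this
  simp only [Bool.not_true, Bool.false_or] at this
  exact ble_iff.1 this

def ind (a b : ℕ) : ℕ := bif Nat.beq a b then 1 else 0

theorem ind_eq (a b : ℕ) : ind a b = if a = b then 1 else 0 := by
  unfold ind
  by_cases h : a = b
  · rw [beq_iff.2 h, if_pos h]; rfl
  · rw [beq_false h, if_neg h]; rfl

def cnt (s : St) (v b : ℕ) : ℕ := sum3 (s.a v) fun j => ind (Nat.div (s.t j) 4) b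

def ncol (s : St) (S i : ℕ) : ℕ := Nat.mod (Nat.add (Nat.div (s.t i) 4) (bit S i)) 2

def hidc (s : St) (i : ℕ) : ℕ := Nat.sub (Nat.mod (s.t i) 4) (cnt s i (Nat.div (s.t i) 4))

def newT (s : St) (S i : ℕ) : ℕ :=
  Nat.add (Nat.mul 4 (ncol s S i))
    (Nat.add (hidc s i) (sum3 (s.a i) fun j => ind (ncol s S j) (ncol s S i)))

def cost (s : St) (y i : ℕ) : ℕ :=
  Nat.add (Nat.mul 2 (Wt (gd 8 y i))) (sum3 (s.a i) fun j => Pt (gd 8 y i) (gd 8 y j))

def flipOK (H : ℕ) (s : St) (S : ℕ) : Bool :=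
  allTo s.n (fun i => Nat.beq (bit S i) 0 || Nat.ble 4096 (s.a i)) &&
  force (sumTo s.n fun i => Nat.mul (newT s S i) (Nat.pow 8 i)) fun y =>
    Nat.ble (Nat.succ (sumTo s.n fun i => Nat.add (cost s y i)
      (Nat.mul 2 (Nat.mul (hidc s i) (tab H (s.t i) (gd 8 y i)))))) (sumTo s.n fun i => cost s s.ty i)

theorem gd_pack (f : ℕ → ℕ) (n : ℕ) (hf : ∀ i < n, f i < 8) (i : ℕ) :
    gd 8 (∑ j ∈ range n, f j * 8 ^ j) i = if i < n then f i else 0 := by
  induction n generalizing i with
  | zero => simp [gd_eq]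
  | succ n ih =>
    have ih' := ih fun i hi => hf i (by omega)
    rw [sum_range_succ, gd_add (by norm_num) _ _ _ _
      (by rw [ih' n, if_neg (lt_irrefl n)]; have := hf n (by omega); omega), ih' n, ih' i,
      if_neg (lt_irrefl n)]
    by_cases e : i = n
    · subst e; simp
    · rw [if_neg e]
      by_cases e2 : i < n
      · rw [if_pos e2, if_pos (by omega)]
      · rw [if_neg e2, if_neg (by omega)]

section graph

variable {V : Type} [Fintype V] [DecidableEq V] (G : SimpleGraph V) [DecidableRel G.Adj]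

def Phi (c : V → Bool) : ℕ :=
  ∑ v, (2 * Wt (tc G c v) + ∑ w ∈ G.neighborFinset v, Pt (tc G c v) (tc G c w))

def NoF (F : ℕ) (c : V → Bool) : Prop := ∀ u v, G.Adj u v → fb F (tc G c u) (tc G c v) = 0

variable {G} {c : V → Bool} {ι : ℕ → V} {s : St}

def img (ι : ℕ → V) (s : St) (i : ℕ) : Finset V := ((s.nb i).map ι).toFinset

theorem mem_img {i : ℕ} {w : V} : w ∈ img ι s i ↔ ∃ j ∈ s.nb i, ι j = w := by
  simp [img]

theorem Real.sum_img (h : Real G c ι s) {i : ℕ} (hi : i < s.n) (g : V → ℕ) (f : ℕ → ℕ)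
    (hf : ∀ j < s.n, f j = g (ι j)) : sum3 (s.a i) f = ∑ w ∈ img ι s i, g w := by
  rw [sum3_eq, img, List.sum_toFinset _ (h.map_nodup hi), List.map_map]
  congr 1
  exact List.map_congr_left fun j hj => hf j (h.adj i hi j hj).1

theorem Real.cnt_eq (hG : G.IsRegularOfDegree 3) (h : Real G c ι s) {i : ℕ} (hi : i < s.n) (b : ℕ) :
    cnt s i b = ((img ι s i).filter fun w => cn c w = b).card := by
  unfold cnt
  rw [h.sum_img hi (fun w => if cn c w = b then 1 else 0), card_filter]
  intro j hj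
  rw [ind_eq, h.ty j hj, ← tc_div hG c]; rfl

theorem Real.full (hG : G.IsRegularOfDegree 3) (h : Real G c ι s) {i : ℕ} (hi : i < s.n)
    (hf : 4096 ≤ s.a i) : img ι s i = G.neighborFinset (ι i) := by
  refine eq_of_subset_of_card_le (h.sub hi) ?_
  rw [G.card_neighborFinset_eq_degree, hG, img, List.toFinset_card_of_nodup (h.map_nodup hi),
    List.length_map]
  exact (dec_len3 hf).ge

theorem dg_split (c : V → Bool) (v : V) {A : Finset V} (hA : A ⊆ G.neighborFinset v) :
    dg G c v = (A.filter fun w => cn c w = cn c v).card +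
      ((G.neighborFinset v \ A).filter fun w => c w = c v).card := by
  unfold dg
  rw [← card_union_of_disjoint (disjoint_filter_filter disjoint_sdiff)]
  congr 1
  ext w
  simp only [mem_filter, mem_union, mem_sdiff, cn_eq_iff]
  constructor
  · rintro ⟨h1, h2⟩
    by_cases hw : w ∈ A
    · exact Or.inl ⟨hw, h2⟩
    · exact Or.inr ⟨⟨h1, hw⟩, h2⟩
  · rintro (⟨h1, h2⟩ | ⟨⟨h1, _⟩, h2⟩)
    · exact ⟨hA h1, h2⟩
    · exact ⟨h1, h2⟩

theorem Real.hidc_eq (hG : G.IsRegularOfDegree 3) (h : Real G c ι s) {i : ℕ} (hi : i < s.n) :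
    hidc s i = ((G.neighborFinset (ι i) \ img ι s i).filter fun w => c w = c (ι i)).card := by
  have h1 := dg_split c (ι i) (h.sub hi)
  have h2 := h.cnt_eq hG hi (s.t i / 4)
  have h3 : s.t i % 4 = dg G c (ι i) := by rw [h.ty i hi, tc_mod hG]
  have h4 : s.t i / 4 = cn c (ι i) := by rw [h.ty i hi, tc_div hG]
  have : hidc s i = s.t i % 4 - cnt s i (s.t i / 4) := rfl
  rw [this, h2, h3, h4, h1]
  exact Nat.add_sub_cancel_left ..

theorem sum_split_img (h : Real G c ι s) (g : V → ℕ) :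
    ∑ v, g v = ∑ i ∈ range s.n, g (ι i) + ∑ v ∈ ((range s.n).image ι)ᶜ, g v := by
  rw [← sum_add_sum_compl ((range s.n).image ι), sum_image]
  intro i hi j hj e
  exact h.inj i (by simpa using hi) j (by simpa using hj) e

theorem flip_sound (hG : G.IsRegularOfDegree 3) (h : Real G c ι s) {F H S : ℕ}
    (hF : NoF G F c) (hH : HOK F H = true) (hS : flipOK H s S = true) :
    ∃ c', Phi G c' < Phi G c := by
  classical
  unfold flipOK at hS
  rw [Bool.and_eq_true, force_eq, allTo_iff, ble_iff, sumTo_eq, sumTo_eq, sumTo_eq] at hS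
  obtain ⟨hfull, hlt⟩ := hS
  have full : ∀ i < s.n, bit S i ≠ 0 → img ι s i = G.neighborFinset (ι i) := by
    intro i hi hb
    have := hfull i hi
    rw [beq_false hb, Bool.false_or, ble_iff] at this
    exact h.full hG hi this
  let fl : V → Prop := fun v => ∃ i < s.n, bit S i ≠ 0 ∧ ι i = v
  let c' : V → Bool := fun v => if fl v then !c v else c v
  let rev : V → Finset V := fun v =>
    (G.neighborFinset v).filter fun w => ∃ i < s.n, ∃ j ∈ s.nb i, ι i = v ∧ ι j = w
  have rev_sub : ∀ v, rev v ⊆ G.neighborFinset v := fun v => filter_subset _ _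
  have rev_img : ∀ i < s.n, rev (ι i) = img ι s i := by
    intro i hi
    ext w
    simp only [rev, mem_filter, mem_img]
    constructor
    · rintro ⟨_, k, hk, j, hj, e1, e2⟩
      exact ⟨j, h.inj k hk i hi e1 ▸ hj, e2⟩
    · rintro ⟨j, hj, e⟩
      exact ⟨h.sub hi (mem_img.2 ⟨j, hj, e⟩), i, hi, j, hj, rfl, e⟩
  have rev_out : ∀ v, v ∈ ((range s.n).image ι)ᶜ → rev v = ∅ := by
    intro v hv
    refine filter_eq_empty_iff.2 ?_
    rintro w _ ⟨i, hi, j, _, e, _⟩
    exact (mem_compl.1 hv) (mem_image.2 ⟨i, mem_range.2 hi, e⟩)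
  have hid_symm : ∀ v w, w ∈ G.neighborFinset v \ rev v → v ∈ G.neighborFinset w \ rev w := by
    intro v w hw
    simp only [rev, mem_sdiff, mem_filter, SimpleGraph.mem_neighborFinset, not_and] at hw ⊢
    refine ⟨hw.1.symm, fun _ => ?_⟩
    rintro ⟨i, hi, j, hj, e1, e2⟩
    obtain ⟨a1, _, a3⟩ := h.adj i hi j hj
    exact hw.2 hw.1 ⟨j, a1, i, a3, e2, e1⟩
  have hid_nf : ∀ v w, w ∈ G.neighborFinset v \ rev v → ¬ fl v := by
    rintro v w hw ⟨i, hi, hb, rfl⟩
    rw [rev_img i hi, full i hi hb] at hw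
    simp at hw
  have hid_c : ∀ v w, w ∈ G.neighborFinset v \ rev v → c' v = c v ∧ c' w = c w := by
    intro v w hw
    exact ⟨if_neg (hid_nf v w hw), if_neg (hid_nf w v (hid_symm v w hw))⟩
  have cn' : ∀ i < s.n, cn c' (ι i) = ncol s S i := by
    intro i hi
    have e : ncol s S i = (s.t i / 4 + bit S i) % 2 := rfl
    rw [e, h.ty i hi, tc_div hG]
    have := bit_lt S i
    by_cases hb : bit S i = 0
    · have : ¬ fl (ι i) := by
        rintro ⟨k, hk, hb', e⟩
        exact hb' (h.inj k hk i hi e ▸ hb)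
      have e2 : c' (ι i) = c (ι i) := if_neg this
      unfold cn; rw [e2, hb]; split_ifs <;> rfl
    · have e2 : c' (ι i) = !c (ι i) := if_pos ⟨i, hi, hb, rfl⟩
      have : bit S i = 1 := by omega
      unfold cn; rw [e2, this]; cases c (ι i) <;> rfl
  have hidf : ∀ v, ((G.neighborFinset v \ rev v).filter fun w => c' w = c' v) =
      ((G.neighborFinset v \ rev v).filter fun w => c w = c v) := by
    intro v
    refine filter_congr fun w hw => ?_
    rw [(hid_c v w hw).1, (hid_c v w hw).2]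
  have tc' : ∀ i < s.n, newT s S i = tc G c' (ι i) := by
    intro i hi
    have e : newT s S i = 4 * ncol s S i +
      (hidc s i + sum3 (s.a i) fun j => ind (ncol s S j) (ncol s S i)) := rfl
    rw [e, h.sum_img hi (fun w => if cn c' w = cn c' (ι i) then 1 else 0) _
      (fun j hj => by rw [ind_eq, cn' j hj, cn' i hi]), ← card_filter, h.hidc_eq hG hi, tc,
      dg_split c' (ι i) (rev_sub _), hidf, rev_img i hi, cn' i hi]
    omega
  have tc_out : ∀ v, v ∈ ((range s.n).image ι)ᶜ → tc G c' v = tc G c v := by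
    intro v hv
    have e : c' v = c v := if_neg (by
      rintro ⟨i, hi, _, e⟩
      exact (mem_compl.1 hv) (mem_image.2 ⟨i, mem_range.2 hi, e⟩))
    unfold tc cn
    rw [dg_split c' v (rev_sub v), dg_split c v (rev_sub v), hidf, rev_out v hv, e]
    simp
  have hy : ∀ i < s.n, gd 8 (∑ j ∈ range s.n, Nat.mul (newT s S j) (Nat.pow 8 j)) i = tc G c' (ι i) := by
    intro i hi
    have := gd_pack (newT s S) s.n (fun j hj => by rw [tc' j hj]; exact tc_lt hG _ _) i
    rw [if_pos hi, tc' i hi] at this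
    exact this
  let B : (V → Bool) → V → ℕ := fun d v => 2 * Wt (tc G d v) + ∑ w ∈ rev v, Pt (tc G d v) (tc G d w)
  let A : (V → Bool) → ℕ := fun d => ∑ v, ∑ w ∈ G.neighborFinset v \ rev v, Pt (tc G d v) (tc G d w)
  have split : ∀ d, Phi G d = ∑ v, B d v + A d := by
    intro d
    unfold Phi
    rw [← sum_add_distrib]
    refine sum_congr rfl fun v _ => ?_
    rw [← sum_sdiff (rev_sub v)]
    simp only [B]; omega
  have costB : ∀ d y, (∀ i < s.n, gd 8 y i = tc G d (ι i)) → ∀ i < s.n, cost s y i = B d (ι i) := by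
    intro d y hy i hi
    have e : cost s y i = 2 * Wt (gd 8 y i) + sum3 (s.a i) fun j => Pt (gd 8 y i) (gd 8 y j) := rfl
    rw [e, h.sum_img hi (fun w => Pt (tc G d (ι i)) (tc G d w)) _
      (fun j hj => by rw [hy i hi, hy j hj]), hy i hi, ← rev_img i hi]
  let hh : V → ℕ := fun v => tab H (tc G c v) (tc G c' v)
  let m : V → ℕ := fun v => ((G.neighborFinset v \ rev v).filter fun w => c w = c v).card
  have hA : A c' ≤ A c + 2 * ∑ v, m v * hh v := by
    have e1 : ∑ v, ∑ w ∈ G.neighborFinset v \ rev v, (if c w = c v then hh v else 0) =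
        ∑ v, m v * hh v := by
      refine sum_congr rfl fun v _ => ?_
      rw [← sum_filter, sum_const, smul_eq_mul]
    have e2 : ∑ v, ∑ w ∈ G.neighborFinset v \ rev v, (if c w = c v then hh w else 0) =
        ∑ v, m v * hh v := by
      rw [← e1, sum_comm' (t' := univ) (s' := fun w => G.neighborFinset w \ rev w)]
      · refine sum_congr rfl fun v _ => sum_congr rfl fun w _ => ?_
        simp only [eq_comm]
      · intro v w
        simp only [mem_univ, true_and, and_true]
        exact ⟨hid_symm v w, hid_symm w v⟩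
    rw [two_mul]
    nth_rewrite 1 [← e1]
    rw [← e2]
    simp only [A]
    rw [← sum_add_distrib, ← sum_add_distrib]
    refine sum_le_sum fun v _ => ?_
    rw [← sum_add_distrib, ← sum_add_distrib]
    refine sum_le_sum fun w hw => ?_
    obtain ⟨a1, a2⟩ := hid_c v w hw
    have b1 : cn c' v = cn c v := by unfold cn; rw [a1]
    have b2 : cn c' w = cn c w := by unfold cn; rw [a2]
    by_cases e : c w = c v
    · rw [if_pos e, if_pos e, ← add_assoc]
      have e' := (cn_eq_iff c w v).2 e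
      refine HOK_le hH (tc_lt hG _ _) (tc_lt hG _ _) (tc_lt hG _ _) (tc_lt hG _ _)
        (hF v w ((G.mem_neighborFinset _ _).1 (mem_sdiff.1 hw).1)) ?_ ?_ ?_ <;>
        simp only [tc_div hG] <;> omega
    · rw [Pt_zero _ (tc_lt hG _ _) _ (tc_lt hG _ _)]
      · exact Nat.zero_le _
      · simp only [tc_div hG, b1, b2]
        exact fun e' => e ((cn_eq_iff c v w).1 e').symm
  have hm : ∑ v, m v * hh v = ∑ i ∈ range s.n, m (ι i) * hh (ι i) := by
    rw [sum_split_img h, sum_eq_zero (s := ((range s.n).image ι)ᶜ), Nat.add_zero]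
    intro v hv
    simp only [hh]
    rw [tc_out v hv, HOK_zero hH (tc_lt hG _ _), Nat.mul_zero]
  have hB : ∑ v ∈ ((range s.n).image ι)ᶜ, B c' v = ∑ v ∈ ((range s.n).image ι)ᶜ, B c v := by
    refine sum_congr rfl fun v hv => ?_
    simp only [B]
    rw [rev_out v hv, tc_out v hv]; simp
  have l1 : ∑ i ∈ range s.n, cost s s.ty i = ∑ i ∈ range s.n, B c (ι i) :=
    sum_congr rfl fun i hi => costB c s.ty h.ty i (mem_range.1 hi)
  have l2 : ∑ i ∈ range s.n, Nat.add (cost s (∑ j ∈ range s.n, Nat.mul (newT s S j) (Nat.pow 8 j)) i)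
      (Nat.mul 2 (Nat.mul (hidc s i) (tab H (s.t i)
        (gd 8 (∑ j ∈ range s.n, Nat.mul (newT s S j) (Nat.pow 8 j)) i)))) =
      ∑ i ∈ range s.n, B c' (ι i) + 2 * ∑ i ∈ range s.n, m (ι i) * hh (ι i) := by
    rw [mul_sum, ← sum_add_distrib]
    refine sum_congr rfl fun i hi => ?_
    have hi := mem_range.1 hi
    rw [costB c' _ hy i hi, hy i hi, h.ty i hi, h.hidc_eq hG hi, ← rev_img i hi]
    rfl
  refine ⟨c', ?_⟩
  rw [l1, l2] at hlt
  rw [split, split, sum_split_img h (B c'), sum_split_img h (B c), hB]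
  have : Nat.succ (∑ i ∈ range s.n, B c' (ι i) + 2 * ∑ i ∈ range s.n, m (ι i) * hh (ι i)) ≤ _ := hlt
  omega

end graph

end Pool.Agent.MP_82b037_lc.H62
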