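import Pool.Agent.MP_82b037_lc.H62.Chk

set_option autoImplicit false
set_option linter.unusedSectionVars false

namespace Pool.Agent.MP_82b037_lc.H62

def pentX (s : St) (m : ℕ) : Bool :=
  allTo 6 (fun i => Nat.ble (Nat.succ (gd 64 m i)) s.n) &&
  (Nat.beq (s.t 0) 1 && Nat.beq (s.t 3) 1 && Nat.beq (s.t (gd 64 m 0)) 5 && Nat.beq (s.t (gd 64 m 1)) 5 &&
    Nat.beq (s.t (gd 64 m 2)) 6 && Nat.beq (s.t (gd 64 m 3)) 0 && Nat.beq (s.t (gd 64 m 4)) 0 &&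
    Nat.beq (s.t (gd 64 m 5)) 0) &&
  (mem3 (s.a (gd 64 m 0)) 1 && mem3 (s.a (gd 64 m 1)) 2 && mem3 (s.a (gd 64 m 2)) (gd 64 m 0) &&
    mem3 (s.a (gd 64 m 2)) (gd 64 m 1) && mem3 (s.a (gd 64 m 3)) (gd 64 m 0) &&
    mem3 (s.a (gd 64 m 4)) (gd 64 m 1) && mem3 (s.a (gd 64 m 5)) (gd 64 m 2)) &&
  (!(Nat.beq (gd 64 m 0) (gd 64 m 1)) && !(Nat.beq (gd 64 m 3) (gd 64 m 4)) &&
    !(Nat.beq (gd 64 m 3) (gd 64 m 5)) && !(Nat.beq (gd 64 m 4) (gd 64 m 5)))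

def wagX (s : St) (m : ℕ) : Bool :=
  allTo 8 fun i => Nat.ble (Nat.succ (gd 64 m i)) s.n &&
    (allTo i fun j => !(Nat.beq (gd 64 m j) (gd 64 m i))) &&
    mem3 (s.a (gd 64 m i)) (gd 64 m ((i + 1) % 8)) && mem3 (s.a (gd 64 m i)) (gd 64 m ((i + 4) % 8))

section graph

variable {V : Type} [Fintype V] [DecidableEq V] (G : SimpleGraph V) [DecidableRel G.Adj]

/-- the surroundings of a pure pentagon `u v q k p` -/
structure Pen0 (c : V → Bool) (a u v b p q k s w t : V) : Prop where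
  ta : tc G c a = 1
  tb : tc G c b = 1
  tp : tc G c p = 5
  tq : tc G c q = 5
  tk : tc G c k = 6
  ts : tc G c s = 0
  tw : tc G c w = 0
  tt : tc G c t = 0
  pu : G.Adj p u
  qv : G.Adj q v
  kp : G.Adj k p
  kq : G.Adj k q
  sp : G.Adj s p
  wq : G.Adj w q
  tk' : G.Adj t k
  pq : p ≠ q
  sw : s ≠ w
  st : s ≠ t
  wt : w ≠ t

structure Pent (c : V → Bool) (a u v b p q k s w t : V) : Prop extends
    Pen0 G c a u v b p q k s w t where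
  tu : tc G c u = 2
  tv : tc G c v = 2
  au : G.Adj a u
  uv : G.Adj u v
  bv : G.Adj b v
  ra : ¬ InR G a
  ru : ¬ InR G u
  rv : ¬ InR G v
  rb : ¬ InR G b

def HasWagner : Prop := ∃ φ : ℕ → V, (∀ i < 8, ∀ j < 8, φ i = φ j → i = j) ∧
  ∀ i < 8, G.Adj (φ i) (φ ((i + 1) % 8)) ∧ G.Adj (φ i) (φ ((i + 4) % 8))

variable {G} {c : V → Bool}

theorem pentX_sound {ω : ℕ → V} (s : St) (m : ℕ) (h : RS G c 4 ω s) (hx : pentX s m = true) :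
    ∃ p q k s w t, Pen0 G c (ω 0) (ω 1) (ω 2) (ω 3) p q k s w t := by
  obtain ⟨ι, h, hr, hω⟩ := h
  unfold pentX at hx
  simp only [Bool.and_eq_true, allTo_iff, ble_iff, beq_iff, mem3_iff, Bool.not_eq_true',
    ← Bool.not_eq_true] at hx
  obtain ⟨⟨⟨l, ⟨⟨⟨⟨⟨⟨⟨t0, t3⟩, tp⟩, tq⟩, tk⟩, ts⟩, tw⟩, tt⟩⟩, ⟨⟨⟨⟨⟨⟨a1, a2⟩, a3⟩, a4⟩, a5⟩, a6⟩, a7⟩⟩,
    ⟨⟨⟨n1, n2⟩, n3⟩, n4⟩⟩ := hx
  have l' : ∀ i < 6, gd 64 m i < s.n := l
  have ne : ∀ i < 6, ∀ j < 6, gd 64 m i ≠ gd 64 m j → ι (gd 64 m i) ≠ ι (gd 64 m j) :=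
    fun i hi j hj hn e => hn (h.inj _ (l' i hi) _ (l' j hj) e)
  have ad : ∀ i < 6, ∀ j ∈ dec (s.a (gd 64 m i)), G.Adj (ι (gd 64 m i)) (ι j) :=
    fun i hi j hj => (h.adj _ (l' i hi) j hj).2.1
  rw [← hω 0 (by omega), ← hω 1 (by omega), ← hω 2 (by omega), ← hω 3 (by omega)]
  exact ⟨ι (gd 64 m 0), ι (gd 64 m 1), ι (gd 64 m 2), ι (gd 64 m 3), ι (gd 64 m 4), ι (gd 64 m 5),
    h.ty 0 (by omega) ▸ t0, h.ty 3 (by omega) ▸ t3, h.ty _ (l' 0 (by omega)) ▸ tp,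
    h.ty _ (l' 1 (by omega)) ▸ tq, h.ty _ (l' 2 (by omega)) ▸ tk, h.ty _ (l' 3 (by omega)) ▸ ts,
    h.ty _ (l' 4 (by omega)) ▸ tw, h.ty _ (l' 5 (by omega)) ▸ tt, ad 0 (by omega) _ a1,
    ad 1 (by omega) _ a2, ad 2 (by omega) _ a3, ad 2 (by omega) _ a4, ad 3 (by omega) _ a5,
    ad 4 (by omega) _ a6, ad 5 (by omega) _ a7, ne 0 (by omega) 1 (by omega) n1,
    ne 3 (by omega) 4 (by omega) n2, ne 3 (by omega) 5 (by omega) n3, ne 4 (by omega) 5 (by omega) n4⟩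

theorem wagX_sound {ω : ℕ → V} (s : St) (m : ℕ) (h : RS G c 0 ω s) (hx : wagX s m = true) :
    HasWagner G := by
  obtain ⟨ι, h, -, -⟩ := h
  unfold wagX at hx
  simp only [Bool.and_eq_true, allTo_iff, ble_iff, beq_iff, mem3_iff, Bool.not_eq_true',
    ← Bool.not_eq_true] at hx
  have l : ∀ i < 8, gd 64 m i < s.n := fun i hi => (hx i hi).1.1.1
  refine ⟨fun i => ι (gd 64 m i), fun i hi j hj e => ?_, fun i hi =>
    ⟨(h.adj _ (l i hi) _ (hx i hi).1.2).2.1, (h.adj _ (l i hi) _ (hx i hi).2).2.1⟩⟩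
  have e' := h.inj _ (l i hi) _ (l j hj) e
  rcases lt_trichotomy i j with hc | hc | hc
  · exact absurd e' ((hx j hj).1.1.2 i hc)
  · exact hc
  · exact absurd e'.symm ((hx i hi).1.1.2 j hc)

end graph

end Pool.Agent.MP_82b037_lc.H62
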