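import Pool.Agent.MP_82b037_lc.H62.Flip

set_option autoImplicit false
set_option linter.unusedSectionVars false

namespace Pool.Agent.MP_82b037_lc.H62

open Finset

def pa (ad i : ℕ) : ℕ := gd 262144 ad i
def pnb (ad i : ℕ) : List ℕ := dec (pa ad i)

structure PWF (nd n ad : ℕ) : Prop where
  lt : nd < n
  sym : ∀ i < n, ∀ j ∈ pnb ad i, j < n ∧ i ∈ pnb ad j
  nodup : ∀ i < n, (pnb ad i).Nodup
  len : ∀ i < nd, (pnb ad i).length = 3
  out : ∀ i, nd ≤ i → i < n → (∀ j ∈ pnb ad i, j < nd) ∧ 1 ≤ (pnb ad i).length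

def patWF (nd n ad : ℕ) : Bool :=
  Nat.ble (nd + 1) n && allTo n fun i => all3 (pa ad i) (fun j => Nat.ble (j + 1) n && mem3 (pa ad j) i) &&
    decide (pnb ad i).Nodup && bif Nat.ble nd i then
      all3 (pa ad i) (fun j => Nat.ble (j + 1) nd) && Nat.ble 1 (pnb ad i).length else Nat.ble 4096 (pa ad i)

theorem patWF_sound {nd n ad : ℕ} (h : patWF nd n ad = true) : PWF nd n ad := by
  unfold patWF at h
  rw [Bool.and_eq_true, ble_iff, allTo_iff] at h
  obtain ⟨h0, h⟩ := h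
  simp only [Bool.and_eq_true, all3_iff, ble_iff, mem3_iff, decide_eq_true_eq] at h
  refine ⟨h0, fun i hi j hj => (h i hi).1.1 j hj, fun i hi => (h i hi).1.2, ?_, ?_⟩
  · intro i hi
    have := (h i (by omega)).2
    rw [ble_false hi, cond_false, ble_iff] at this
    exact dec_len3 this
  · intro i hi hi'
    have := (h i hi').2
    rw [ble_true hi, cond_true, Bool.and_eq_true, all3_iff, ble_iff] at this
    exact ⟨fun j hj => ble_iff.1 (this.1 j hj), this.2⟩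

def Good (n ad : ℕ) (σ : ℕ → Fin 5) : Prop :=
  ∀ b < n, ∀ c ∈ pnb ad b, σ b ≠ σ c ∧ ∀ a ∈ pnb ad b, ∀ d ∈ pnb ad c, a ≠ c → d ≠ b →
    σ a = σ c → σ d = σ b → False

def Ext (nd n ad : ℕ) (π q1 q2 : ℕ → Fin 5) : Prop :=
  ∃ σ : ℕ → Fin 5, (∀ j, nd ≤ j → j < n → σ j = π j) ∧ Good n ad σ ∧
    ∀ j, nd ≤ j → j < n → ∀ i ∈ pnb ad j,
      ((pnb ad j).length ≤ 2 → σ i ≠ q1 j) ∧ ((pnb ad j).length ≤ 1 → σ i ≠ q2 j)

def RedOK (nd n ad : ℕ) : Prop := ∀ π q1 q2, Ext nd n ad π q1 q2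

theorem two_cols (Q : Finset (Fin 5)) (k : ℕ) (h1 : 1 ≤ k) (h : Q.card + k ≤ 3) :
    ∃ q1 q2 : Fin 5, ∀ a ∈ Q, (a = q1 ∧ k ≤ 2) ∨ (a = q2 ∧ k ≤ 1) := by
  have : Q.card = 0 ∨ Q.card = 1 ∨ Q.card = 2 := by omega
  rcases this with e | e | e
  · rw [card_eq_zero] at e; subst e; exact ⟨0, 0, by simp⟩
  · obtain ⟨a, rfl⟩ := card_eq_one.1 e
    exact ⟨a, a, fun b hb => Or.inl ⟨mem_singleton.1 hb, by omega⟩⟩
  · obtain ⟨a, b, _, rfl⟩ := card_eq_two.1 e
    refine ⟨a, b, fun x hx => ?_⟩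
    rcases mem_insert.1 hx with h | h
    · exact Or.inl ⟨h, by omega⟩
    · exact Or.inr ⟨mem_singleton.1 h, by omega⟩

section graph

variable {V : Type} [Fintype V] [DecidableEq V] {G : SimpleGraph V} [DecidableRel G.Adj]

theorem nbr_of_three (hG : G.IsRegularOfDegree 3) {v : V} {l : List V} (hl : l.Nodup)
    (h3 : l.length = 3) (ha : ∀ w ∈ l, G.Adj v w) {w : V} (hw : G.Adj v w) : w ∈ l := by
  have : l.toFinset = G.neighborFinset v := by
    refine eq_of_subset_of_card_le (fun x hx => ?_) ?_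
    · exact (G.mem_neighborFinset _ _).2 (ha x (List.mem_toFinset.1 hx))
    · rw [G.card_neighborFinset_eq_degree, hG, List.toFinset_card_of_nodup hl, h3]
  exact List.mem_toFinset.1 (this ▸ (G.mem_neighborFinset _ _).2 hw)

theorem red_of_emb (hG : G.IsRegularOfDegree 3) {nd n ad : ℕ} (hw : PWF nd n ad)
    (hr : RedOK nd n ad) (φ : ℕ → V) (inj : ∀ i < n, ∀ j < n, φ i = φ j → i = j)
    (hadj : ∀ i < nd, ∀ j ∈ pnb ad i, G.Adj (φ i) (φ j)) :
    Reducible G {v | ∃ i < nd, φ i = v} := by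
  classical
  intro U f hf
  set D : Set V := {v | ∃ i < nd, φ i = v} with hD
  have hlt := hw.lt
  have mapnd : ∀ i < n, ((pnb ad i).map φ).Nodup := fun i hi =>
    (hw.nodup i hi).map_on fun x hx y hy e => inj x (hw.sym i hi x hx).1 y (hw.sym i hi y hy).1 e
  have nbr : ∀ i < nd, ∀ w, G.Adj (φ i) w → ∃ j ∈ pnb ad i, φ j = w := by
    intro i hi w h
    have := nbr_of_three hG (mapnd i (by omega)) (by rw [List.length_map, hw.len i hi])
      (fun x hx => by obtain ⟨j, hj, rfl⟩ := List.mem_map.1 hx; exact hadj i hi j hj) h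
    exact List.mem_map.1 this
  have hq : ∀ j, ∃ q : Fin 5 × Fin 5, nd ≤ j → j < n → ∀ w, G.Adj (φ j) w → w ∉ D →
      (f w = q.1 ∧ (pnb ad j).length ≤ 2) ∨ (f w = q.2 ∧ (pnb ad j).length ≤ 1) := by
    intro j
    by_cases hj : nd ≤ j ∧ j < n
    · have h1 : ((pnb ad j).map φ).toFinset ⊆ G.neighborFinset (φ j) := by
        intro x hx
        obtain ⟨i, hi, rfl⟩ := List.mem_map.1 (List.mem_toFinset.1 hx)
        exact (G.mem_neighborFinset _ _).2
          (hadj i ((hw.out j hj.1 hj.2).1 i hi) j (hw.sym j hj.2 i hi).2).symm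
      have h2 := card_sdiff_add_card_eq_card h1
      rw [G.card_neighborFinset_eq_degree, hG, List.toFinset_card_of_nodup (mapnd j hj.2),
        List.length_map] at h2
      obtain ⟨q1, q2, h⟩ := two_cols ((G.neighborFinset (φ j) \ ((pnb ad j).map φ).toFinset).image f)
        (pnb ad j).length (hw.out j hj.1 hj.2).2 (le_trans (Nat.add_le_add_right card_image_le _) h2.le)
      refine ⟨(q1, q2), fun _ _ w ha hwD => h _ (mem_image_of_mem f ?_)⟩
      refine mem_sdiff.2 ⟨(G.mem_neighborFinset _ _).2 ha, fun hx => hwD ?_⟩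
      obtain ⟨i, hi, rfl⟩ := List.mem_map.1 (List.mem_toFinset.1 hx)
      exact ⟨i, (hw.out j hj.1 hj.2).1 i hi, rfl⟩
    · exact ⟨(0, 0), fun h1 h2 => absurd ⟨h1, h2⟩ hj⟩
  choose q hq using hq
  obtain ⟨σ, s1, s2, s3⟩ := hr (fun j => f (φ j)) (fun j => (q j).1) (fun j => (q j).2)
  let g : V → Fin 5 := fun v => if h : ∃ i < nd, φ i = v then σ h.choose else f v
  have gout : ∀ v, v ∉ D → g v = f v := fun v hv => dif_neg hv
  have gφ : ∀ i < n, g (φ i) = σ i := by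
    intro i hi
    by_cases h : ∃ k < nd, φ k = φ i
    · have := h.choose_spec
      show dite _ _ _ = _
      rw [dif_pos h, inj _ (by omega) i hi this.2]
    · rw [gout _ h, s1 i (by by_contra hc; exact h ⟨i, by omega, rfl⟩) hi]
  have key : ∀ y p z, y ∈ D → p ∉ D → z ∉ D → G.Adj y p → G.Adj p z → g y ≠ g z := by
    rintro _ p z ⟨i, hi, rfl⟩ hp hz h1 h2
    obtain ⟨j, hj, rfl⟩ := nbr i hi p h1
    obtain ⟨hjn, hij⟩ := hw.sym i (by omega) j hj
    have hjd : nd ≤ j := by by_contra hc; exact hp ⟨j, by omega, rfl⟩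
    rw [gφ i (by omega), gout z hz]
    rcases hq j hjd hjn z h2 hz with ⟨e, hl⟩ | ⟨e, hl⟩
    · rw [e]; exact (s3 j hjd hjn i hij).1 hl
    · rw [e]; exact (s3 j hjd hjn i hij).2 hl
  have edge : ∀ u v, G.Adj u v → u ∈ D ∨ v ∈ D → ∃ i < n, ∃ j < n, j ∈ pnb ad i ∧ φ i = u ∧ φ j = v := by
    rintro u v h (⟨i, hi, rfl⟩ | ⟨j, hj, rfl⟩)
    · obtain ⟨j, hj, rfl⟩ := nbr i hi v h
      exact ⟨i, by omega, j, (hw.sym i (by omega) j hj).1, hj, rfl, rfl⟩
    · obtain ⟨i, hi, rfl⟩ := nbr j hj u h.symm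
      exact ⟨i, (hw.sym j (by omega) i hi).1, j, by omega, (hw.sym j (by omega) i hi).2, rfl, rfl⟩
  have mem : ∀ v, v ∈ U ∪ D → v ∉ D → v ∈ U \ D := fun v h1 h2 => ⟨h1.resolve_right h2, h2⟩
  refine ⟨g, ?_, ?_⟩
  · intro u v hu hv h
    by_cases hd : u ∈ D ∨ v ∈ D
    · obtain ⟨i, hi, j, hj, hij, rfl, rfl⟩ := edge u v h hd
      rw [gφ i hi, gφ j hj]; exact (s2 i hi j hij).1
    · rw [not_or] at hd
      rw [gout u hd.1, gout v hd.2]
      exact hf.1 u v (mem u hu hd.1) (mem v hv hd.2) h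
  · intro a b c d ha hb hc hd hab hbc hcd hac hbd e1 e2
    by_cases h1 : a ∈ D ∨ b ∈ D
    · by_cases h2 : b ∈ D ∨ c ∈ D
      · by_cases h3 : c ∈ D ∨ d ∈ D
        · obtain ⟨ib, hib, ia, hia, m1, rfl, rfl⟩ := edge b a hab.symm h1.symm
          obtain ⟨ib', hib', ic, hic, m2, eb, rfl⟩ := edge _ c hbc h2
          obtain ⟨ic', hic', id, hid, m3, ec, rfl⟩ := edge _ d hcd h3
          have := inj _ hib' _ hib eb; subst this
          have := inj _ hic' _ hic ec; subst this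
          rw [gφ _ hia, gφ _ hic] at e1
          rw [gφ _ hib, gφ _ hid] at e2
          exact (s2 _ hib _ m2).2 _ m1 _ m3 (fun e => hac (e ▸ rfl)) (fun e => hbd (e ▸ rfl)) e1 e2.symm
        · rw [not_or] at h3
          exact key b c d (h2.resolve_right h3.1) h3.1 h3.2 hbc hcd e2
      · rw [not_or] at h2
        exact key a b c (h1.resolve_right h2.1) h2.1 h2.2 hab hbc e1
    · rw [not_or] at h1
      by_cases h2 : c ∈ D
      · exact key c b a h2 h1.2 h1.1 hbc.symm hab.symm e1.symm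
      · by_cases h3 : d ∈ D
        · exact key d c b h3 h2 h1.2 hcd.symm hbc.symm e2.symm
        · rw [gout a h1.1, gout c h2] at e1
          rw [gout b h1.2, gout d h3] at e2
          exact hf.2 a b c d (mem a ha h1.1) (mem b hb h1.2) (mem c hc h2) (mem d hd h3) hab hbc hcd
            hac hbd e1 e2

end graph

theorem norm_perm : ∀ p q1 q2 : Fin 5, ∃ a b c : Fin 5,
    Equiv.swap c 3 (Equiv.swap b 4 (Equiv.swap a 0 p)) = 0 ∧
    (Equiv.swap c 3 (Equiv.swap b 4 (Equiv.swap a 0 q1)) = 0 ∨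
      Equiv.swap c 3 (Equiv.swap b 4 (Equiv.swap a 0 q1)) = 4) ∧
    (Equiv.swap c 3 (Equiv.swap b 4 (Equiv.swap a 0 q2)) = 0 ∨
      Equiv.swap c 3 (Equiv.swap b 4 (Equiv.swap a 0 q2)) = 3 ∨
      Equiv.swap c 3 (Equiv.swap b 4 (Equiv.swap a 0 q2)) = 4) := by decide +kernel

theorem redOK_of_norm {nd n ad : ℕ}
    (h : ∀ π q1 q2 : ℕ → Fin 5, π nd = 0 → (q1 nd = 0 ∨ q1 nd = 4) →
      (q2 nd = 0 ∨ q2 nd = 3 ∨ q2 nd = 4) → Ext nd n ad π q1 q2) : RedOK nd n ad := by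
  intro π q1 q2
  obtain ⟨a, b, c, h1, h2, h3⟩ := norm_perm (π nd) (q1 nd) (q2 nd)
  let τ : Equiv.Perm (Fin 5) := (Equiv.swap a 0).trans ((Equiv.swap b 4).trans (Equiv.swap c 3))
  obtain ⟨σ, s1, s2, s3⟩ := h (fun j => τ (π j)) (fun j => τ (q1 j)) (fun j => τ (q2 j)) h1 h2 h3
  refine ⟨fun j => τ.symm (σ j), ?_, ?_, ?_⟩
  · intro j h1 h2
    show τ.symm (σ j) = π j
    rw [s1 j h1 h2, Equiv.symm_apply_apply]
  · intro x hx y hy
    refine ⟨fun e => (s2 x hx y hy).1 (τ.symm.injective e), fun u hu v hv n1 n2 e1 e2 => ?_⟩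
    exact (s2 x hx y hy).2 u hu v hv n1 n2 (τ.symm.injective e1) (τ.symm.injective e2)
  · intro j h1 h2 i hi
    refine ⟨fun hl e => (s3 j h1 h2 i hi).1 hl ?_, fun hl e => (s3 j h1 h2 i hi).2 hl ?_⟩
    · exact (Equiv.symm_apply_eq τ).1 e
    · exact (Equiv.symm_apply_eq τ).1 e

end Pool.Agent.MP_82b037_lc.H62
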